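import Pool.Agent.OmSt2.RM2

/-!
# Bounds for derivatives of maps between compact manifolds
-/

open Set Filter Topology Manifold ContDiff Metric

set_option linter.unusedSectionVars false

namespace OmSt

section local_part

variable {E : Type*} [NormedAddCommGroup E] [NormedSpace ℝ E]
  {M : Type*} [TopologicalSpace M] [ChartedSpace E M] [IsManifold 𝓘(ℝ, E) ∞ M]
  {E' : Type*} [NormedAddCommGroup E'] [NormedSpace ℝ E']
  {B : Type*} [TopologicalSpace B] [ChartedSpace E' B] [IsManifold 𝓘(ℝ, E') ∞ B]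

/-- The derivative of a map in charts. -/
noncomputable def chA (p : M → B) (b y : M) : E →L[ℝ] E' :=
  (Dc (p b) (p y) : E' →L[ℝ] E') ∘L (mfderiv 𝓘(ℝ, E) 𝓘(ℝ, E') p y : E →L[ℝ] E') ∘L
    (Dc' b y : E →L[ℝ] E)

theorem chA_apply (p : M → B) {b y : M} (hy : y ∈ (chartAt E b).source) (v : E) :
    chA p b y ((Dc b y : E →L[ℝ] E) v) =
      (Dc (p b) (p y) : E' →L[ℝ] E') (mfderiv 𝓘(ℝ, E) 𝓘(ℝ, E') p y v) := by
  change (Dc (p b) (p y) : E' →L[ℝ] E') ((mfderiv 𝓘(ℝ, E) 𝓘(ℝ, E') p y : E →L[ℝ] E')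
    ((Dc' b y : E →L[ℝ] E) ((Dc b y : E →L[ℝ] E) v))) = _
  rw [Dc'_Dc hy]

theorem chA_continuousAt (p : M → B) (hp : ContMDiff 𝓘(ℝ, E) 𝓘(ℝ, E') 1 p) (b : M) :
    ContinuousAt (chA (E := E) (E' := E') p b) b := by
  have h1 := (ContMDiffAt.mfderiv_const (x₀ := b) (m := 0) (hp b) (by norm_num)).continuousAt
  refine h1.congr ?_
  have e1 : (chartAt E b).source ∈ 𝓝 b :=
    (chartAt E b).open_source.mem_nhds (mem_chart_source E b)
  have e2 : ∀ᶠ y in 𝓝 b, p y ∈ (chartAt E' (p b)).source :=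
    hp.continuous.continuousAt.eventually
      ((chartAt E' (p b)).open_source.mem_nhds (mem_chart_source E' (p b)))
  filter_upwards [e1, e2] with y hy hpy
  rw [inTangentCoordinates_eq_mfderiv_comp hy hpy]
  unfold chA Dc Dc'
  have e : (extChartAt 𝓘(ℝ, E') (p b) : B → E') = chartAt E' (p b) := by
    ext x
    simp
  have e' : ((extChartAt 𝓘(ℝ, E) b).symm : E → M) = (chartAt E b).symm := by
    ext x
    simp
  have e'' : (extChartAt 𝓘(ℝ, E) b : M → E) = chartAt E b := by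
    ext x
    simp
  have e3 : range (𝓘(ℝ, E)) = univ := by simp
  simp only [id]
  rw [e, e3, mfderivWithin_univ, e', e'']
  rfl

end local_part

variable {E : Type*} [NormedAddCommGroup E] [NormedSpace ℝ E] [FiniteDimensional ℝ E]
  {M : Type*} [MetricSpace M] [CompactSpace M] [ChartedSpace E M] [IsManifold 𝓘(ℝ, E) ∞ M]
  {E' : Type*} [NormedAddCommGroup E'] [NormedSpace ℝ E'] [FiniteDimensional ℝ E']
  {B : Type*} [MetricSpace B] [CompactSpace B] [ChartedSpace E' B] [IsManifold 𝓘(ℝ, E') ∞ B]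

/-- A local bound gives a global bound on a compact space. -/
theorem exists_bound_of_local {X : Type*} [TopologicalSpace X] [CompactSpace X]
    (Q : ℝ → X → Prop) (hmono : ∀ C C' x, C ≤ C' → Q C x → Q C' x)
    (h : ∀ b, ∃ C > 0, ∀ᶠ y in 𝓝 b, Q C y) : ∃ C > 0, ∀ y, Q C y := by
  have key : ∃ C > 0, ∀ y ∈ (univ : Set X), Q C y := by
    refine isCompact_univ.induction_on (p := fun s => ∃ C > 0, ∀ y ∈ s, Q C y)
      ⟨1, one_pos, fun y hy => absurd hy (notMem_empty y)⟩ ?_ ?_ ?_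
    · rintro s t hst ⟨C, hC, h1⟩
      exact ⟨C, hC, fun y hy => h1 y (hst hy)⟩
    · rintro s t ⟨C, hC, h1⟩ ⟨C', hC', h2⟩
      refine ⟨max C C', lt_max_of_lt_left hC, ?_⟩
      rintro y (hy | hy)
      · exact hmono _ _ _ (le_max_left _ _) (h1 y hy)
      · exact hmono _ _ _ (le_max_right _ _) (h2 y hy)
    · intro b _
      obtain ⟨C, hC, h1⟩ := h b
      exact ⟨{y | Q C y}, mem_nhdsWithin_of_mem_nhds h1, C, hC, fun y hy => hy⟩
  obtain ⟨C, hC, h1⟩ := key
  exact ⟨C, hC, fun y => h1 y (mem_univ y)⟩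

theorem rnorm_nonneg' (γ : RMetric E M) (x : M) (v : E) : 0 ≤ rnorm γ x v := Real.sqrt_nonneg _

/-- (F1) The derivative of a `C^1` map between compact manifolds is bounded. -/
theorem exists_deriv_bound (p : M → B) (hp : ContMDiff 𝓘(ℝ, E) 𝓘(ℝ, E') 1 p)
    (γ : RMetric E M) (γ' : RMetric E' B) :
    ∃ C > 0, ∀ (x : M) (v : E),
      rnorm γ' (p x) (mfderiv 𝓘(ℝ, E) 𝓘(ℝ, E') p x v) ≤ C * rnorm γ x v := by
  refine exists_bound_of_local (X := M) (fun C x => ∀ v : E,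
      rnorm γ' (p x) (mfderiv 𝓘(ℝ, E) 𝓘(ℝ, E') p x v) ≤ C * rnorm γ x v) ?_ ?_
  · intro C C' x hCC h v
    exact (h v).trans (mul_le_mul_of_nonneg_right hCC (rnorm_nonneg' γ x v))
  · intro b
    obtain ⟨C₁, hC₁, h1⟩ := exists_comparison γ b
    obtain ⟨C₂, hC₂, h2⟩ := exists_comparison γ' (p b)
    have h3 : ∀ᶠ y in 𝓝 b, ‖chA (E := E) (E' := E') p b y‖ ≤ ‖chA (E := E) (E' := E') p b b‖ + 1 := by
      have h4 := (chA_continuousAt p hp b).norm
      exact (h4.eventually (gt_mem_nhds (lt_add_one _))).mono fun y hy => le_of_lt hy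
    have e1 : (chartAt E b).source ∈ 𝓝 b :=
      (chartAt E b).open_source.mem_nhds (mem_chart_source E b)
    have h5 := hp.continuous.continuousAt.eventually h2
    refine ⟨C₂ * ((‖chA (E := E) (E' := E') p b b‖ + 1) * C₁), by positivity, ?_⟩
    filter_upwards [h1, h3, e1, h5] with y h6 h7 h8 h9 v
    calc rnorm γ' (p y) (mfderiv 𝓘(ℝ, E) 𝓘(ℝ, E') p y v)
        ≤ C₂ * ‖(Dc (p b) (p y) : E' →L[ℝ] E') (mfderiv 𝓘(ℝ, E) 𝓘(ℝ, E') p y v)‖ := (h9 _).2
      _ = C₂ * ‖chA (E := E) (E' := E') p b y ((Dc b y : E →L[ℝ] E) v)‖ := by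
          rw [chA_apply (E := E) (E' := E') p h8]
      _ ≤ C₂ * ((‖chA (E := E) (E' := E') p b b‖ + 1) * (C₁ * rnorm γ y v)) := by
          have h10 : ‖chA (E := E) (E' := E') p b y ((Dc b y : E →L[ℝ] E) v)‖ ≤
              ‖chA (E := E) (E' := E') p b y‖ * ‖(Dc b y : E →L[ℝ] E) v‖ :=
            ContinuousLinearMap.le_opNorm _ _
          have h11 := (h6 v).1
          have h12 : ‖chA (E := E) (E' := E') p b y‖ * ‖(Dc b y : E →L[ℝ] E) v‖ ≤
              (‖chA (E := E) (E' := E') p b b‖ + 1) * (C₁ * rnorm γ y v) := by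
            gcongr
          exact mul_le_mul_of_nonneg_left (h10.trans h12) hC₂.le
      _ = C₂ * ((‖chA (E := E) (E' := E') p b b‖ + 1) * C₁) * rnorm γ y v := by ring

end OmSt
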