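import Pool.Agent.PCE.Line

/-!
# Bands with margins and the contraction of projective maps
-/

open Set Filter Topology Real

namespace PCE

/-- The density of the projective metric of an arc at a point at distances `A`, `B` from the
endpoints. -/
noncomputable def dens (A B : ℝ) : ℝ := sin (A + B) / (sin A * sin B)

/-- The contraction factor. -/
noncomputable def lam (θ : ℝ) : ℝ := cos θ / (cos θ + sin θ ^ 2)

theorem dens_eq {A B : ℝ} (hA : 0 < sin A) (hB : 0 < sin B) :
    dens A B = cos A / sin A + cos B / sin B := by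
  unfold dens
  rw [sin_add]
  field_simp
  ring

theorem cot_sub {A θ : ℝ} (hA : 0 < sin A) (hA' : 0 < sin (A + θ)) :
    cos A / sin A - cos (A + θ) / sin (A + θ) = sin θ / (sin A * sin (A + θ)) := by
  have h : sin θ = sin (A + θ) * cos A - cos (A + θ) * sin A := by
    rw [← sin_sub]
    congr 1
    ring
  rw [h]
  field_simp

theorem cot_sub_ge {A θ : ℝ} (hA : 0 < sin A) (hA' : 0 < sin (A + θ)) (hθ : 0 ≤ sin θ) :
    sin θ ≤ cos A / sin A - cos (A + θ) / sin (A + θ) := by
  rw [cot_sub hA hA', le_div_iff₀ (by positivity)]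
  have h1 : sin A * sin (A + θ) ≤ 1 := by
    have := sin_le_one A
    have := sin_le_one (A + θ)
    nlinarith
  nlinarith

theorem cot_le {A θ : ℝ} (hθ0 : 0 < θ) (hA : θ ≤ A) (hAπ : A < π) :
    cos A / sin A ≤ cos θ / sin θ := by
  have h1 : 0 < sin θ := sin_pos_of_pos_of_lt_pi hθ0 (by linarith)
  have h2 : 0 < sin A := sin_pos_of_pos_of_lt_pi (by linarith) hAπ
  have h3 := cot_sub (A := θ) (θ := A - θ) h1 (by rwa [add_sub_cancel])
  rw [add_sub_cancel] at h3
  have h4 : 0 ≤ sin (A - θ) := sin_nonneg_of_nonneg_of_le_pi (by linarith) (by linarith)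
  have h5 : 0 ≤ sin (A - θ) / (sin θ * sin A) := by positivity
  linarith

theorem dens_le {A B θ : ℝ} (hθ : 0 < θ) (hA : θ ≤ A) (hB : θ ≤ B) (h : A + B < π) :
    dens A B ≤ 2 * (cos θ / sin θ) := by
  have hA' : 0 < sin A := sin_pos_of_pos_of_lt_pi (by linarith) (by linarith)
  have hB' : 0 < sin B := sin_pos_of_pos_of_lt_pi (by linarith) (by linarith)
  rw [dens_eq hA' hB']
  have := cot_le hθ hA (by linarith)
  have := cot_le hθ hB (by linarith)
  linarith

theorem dens_ge {A B : ℝ} (hA : 0 < A) (hB : 0 < B) (h : A + B < π) :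
    sin (A + B) ≤ dens A B := by
  have hA' : 0 < sin A := sin_pos_of_pos_of_lt_pi (by linarith) (by linarith)
  have hB' : 0 < sin B := sin_pos_of_pos_of_lt_pi (by linarith) (by linarith)
  have hAB : 0 < sin (A + B) := sin_pos_of_pos_of_lt_pi (by linarith) h
  unfold dens
  rw [le_div_iff₀ (by positivity)]
  have h1 : sin A * sin B ≤ 1 := by
    have := sin_le_one A
    have := sin_le_one B
    nlinarith
  nlinarith

theorem lam_pos {θ : ℝ} (hθ : 0 < θ) (hθ' : θ < π / 2) : 0 < lam θ := by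
  have h1 : 0 < cos θ := cos_pos_of_mem_Ioo ⟨by linarith, hθ'⟩
  unfold lam
  positivity

theorem lam_lt_one {θ : ℝ} (hθ : 0 < θ) (hθ' : θ < π / 2) : lam θ < 1 := by
  have h1 : 0 < cos θ := cos_pos_of_mem_Ioo ⟨by linarith, hθ'⟩
  have h2 : 0 < sin θ := sin_pos_of_pos_of_lt_pi hθ (by linarith)
  unfold lam
  rw [div_lt_one (by positivity)]
  have : 0 < sin θ ^ 2 := by positivity
  linarith

theorem dens_step {A B θ : ℝ} (hA : 0 < A) (hB : 0 < B) (hθ : 0 < θ) (h : A + B + 2 * θ < π) :
    dens (A + θ) (B + θ) ≤ lam θ * dens A B := by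
  have hA' : 0 < sin A := sin_pos_of_pos_of_lt_pi (by linarith) (by linarith)
  have hB' : 0 < sin B := sin_pos_of_pos_of_lt_pi (by linarith) (by linarith)
  have hA1 : 0 < sin (A + θ) := sin_pos_of_pos_of_lt_pi (by linarith) (by linarith)
  have hB1 : 0 < sin (B + θ) := sin_pos_of_pos_of_lt_pi (by linarith) (by linarith)
  have hs : 0 < sin θ := sin_pos_of_pos_of_lt_pi hθ (by linarith)
  have hc : 0 < cos θ := cos_pos_of_mem_Ioo ⟨by linarith, by linarith⟩
  have h1 : dens (A + θ) (B + θ) + 2 * sin θ ≤ dens A B := by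
    rw [dens_eq hA' hB', dens_eq hA1 hB1]
    have := cot_sub_ge hA' hA1 hs.le
    have := cot_sub_ge hB' hB1 hs.le
    linarith
  have h2 : dens (A + θ) (B + θ) ≤ 2 * (cos θ / sin θ) :=
    dens_le hθ (by linarith) (by linarith) (by linarith)
  have h3 : lam θ * (dens (A + θ) (B + θ) + 2 * sin θ) ≤ lam θ * dens A B :=
    mul_le_mul_of_nonneg_left h1 (lam_pos hθ (by linarith)).le
  refine le_trans ?_ h3
  unfold lam
  rw [div_mul_eq_mul_div, le_div_iff₀ (by positivity)]
  have h4 : dens (A + θ) (B + θ) * sin θ ≤ 2 * cos θ := by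
    have := mul_le_mul_of_nonneg_right h2 hs.le
    have e : 2 * (cos θ / sin θ) * sin θ = 2 * cos θ := by field_simp
    linarith
  nlinarith

/-- The constant. -/
noncomputable def CC (θ R : ℝ) : ℝ := 2 * (cos θ / sin θ) / sin (min (2 * θ) (2 * θ / R))

namespace Cyc

variable (c : Cyc)

theorem G_iter {θ : ℝ} {m : ℕ} {s : ℝ} {k : ℤ} (h : c.G θ (m * c.n) s = s + k * π) (i : ℕ) :
    c.G θ (m * c.n + i) s = c.G θ i s + k * π := by
  rw [G_add, h, G_deg]

theorem dens_J (hchord : ∀ i s t, sin (c.Φ i t - c.Φ i s) = √(c.J i t) * √(c.J i s) * sin (t - s))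
    (i : ℕ) (a y b : ℝ) :
    c.J i y * dens (c.Φ i y - c.Φ i a) (c.Φ i b - c.Φ i y) = dens (y - a) (b - y) := by
  have e1 : c.Φ i y - c.Φ i a + (c.Φ i b - c.Φ i y) = c.Φ i b - c.Φ i a := by ring
  have e2 : y - a + (b - y) = b - a := by ring
  unfold dens
  rw [e1, e2, hchord, hchord, hchord]
  have ha : 0 < √(c.J i a) := sqrt_pos.2 (c.J_pos i a)
  have hb : 0 < √(c.J i b) := sqrt_pos.2 (c.J_pos i b)
  have hy : 0 < √(c.J i y) := sqrt_pos.2 (c.J_pos i y)
  have hyy : c.J i y = √(c.J i y) * √(c.J i y) := (mul_self_sqrt (c.J_pos i y).le).symm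
  by_cases h1 : sin (y - a) = 0
  · simp [h1]
  by_cases h2 : sin (b - y) = 0
  · simp [h2]
  rw [mul_div_assoc', div_eq_div_iff (by positivity) (by positivity)]
  conv_lhs => rw [hyy]
  ring

/-- **The bands.** -/
theorem bands
    (hchord : ∀ i s t, sin (c.Φ i t - c.Φ i s) = √(c.J i t) * √(c.J i s) * sin (t - s))
    {R : ℝ} (hR : 0 < R) (hJR : ∀ i s, c.J i s ≤ R) {ε : ℝ} (hstar : c.Star ε)
    {θ : ℝ} (hθ0 : 0 < θ) (hθε : θ < ε) :
    ∃ m > 0, ∃ (k : ℤ) (s : ℝ), c.G 0 (m * c.n) s = s + k * π ∧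
      ∀ i l : ℕ, ∏ j ∈ Finset.range l, c.J (i + j) (c.G 0 (i + j) s) ≤ CC θ R * lam θ ^ l := by
  obtain ⟨m, hm, k, hk⟩ := c.lock (by linarith) hstar
  obtain ⟨N, hN⟩ : ∃ N, m * c.n = N + 1 :=
    ⟨m * c.n - 1, (Nat.succ_pred_eq_of_pos (Nat.mul_pos hm c.n_pos)).symm⟩
  obtain ⟨a₀, ha₀⟩ := hk (-θ) (by rw [abs_neg, abs_of_pos hθ0]; exact hθε)
  obtain ⟨b', hb'⟩ := hk θ (by rw [abs_of_pos hθ0]; exact hθε)
  -- the right endpoint
  obtain ⟨b₀, hb₀, hab, hba⟩ : ∃ b₀, c.G θ (m * c.n) b₀ = b₀ + k * π ∧ a₀ < b₀ ∧ b₀ < a₀ + π := by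
    refine ⟨toIocMod pi_pos a₀ b', ?_, ?_, ?_⟩
    · have h1 := toIocMod_add_toIocDiv_zsmul pi_pos a₀ b'
      rw [zsmul_eq_mul] at h1
      have h2 : toIocMod pi_pos a₀ b' = b' + ((-toIocDiv pi_pos a₀ b' : ℤ) : ℝ) * π := by
        push_cast
        linarith
      rw [h2, G_deg, hb']
      ring
    · exact (toIocMod_mem_Ioc pi_pos a₀ b').1
    · refine lt_of_le_of_ne (toIocMod_mem_Ioc pi_pos a₀ b').2 fun heq => ?_
      have h1 := toIocMod_add_toIocDiv_zsmul pi_pos a₀ b'
      rw [zsmul_eq_mul, heq] at h1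
      have h2 : b' = a₀ + ((toIocDiv pi_pos a₀ b' + 1 : ℤ) : ℝ) * π := by
        push_cast
        linarith
      rw [h2, G_deg] at hb'
      have h3 := c.G_push (-θ) θ (by linarith) N a₀
      rw [← hN, ha₀] at h3
      linarith
  set a : ℕ → ℝ := fun i => c.G (-θ) i a₀ with ha
  set b : ℕ → ℝ := fun i => c.G θ i b₀ with hb
  have ha_succ : ∀ i, a (i + 1) = c.Φ i (a i) - θ := fun i => by
    simp only [ha]; rw [G_succ]; ring
  have hb_succ : ∀ i, b (i + 1) = c.Φ i (b i) + θ := fun i => rfl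
  have ha_per : ∀ i, a (m * c.n + i) = a i + k * π := fun i => c.G_iter ha₀ i
  have hb_per : ∀ i, b (m * c.n + i) = b i + k * π := fun i => c.G_iter hb₀ i
  have hlt : ∀ i, a i < b i := by
    intro i
    induction i with
    | zero => exact hab
    | succ i ih =>
      rw [ha_succ, hb_succ]
      have := c.mono i ih
      linarith
  have hlt2' : ∀ i, a (i + 1) + 2 * θ < b (i + 1) := by
    intro i
    rw [ha_succ, hb_succ]
    have := c.mono i (hlt i)
    linarith
  have hlt2 : ∀ i, a i + 2 * θ < b i := by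
    intro i
    have h1 := hlt2' (N + i)
    have e1 : N + i + 1 = m * c.n + i := by omega
    rw [e1, ha_per, hb_per] at h1
    linarith
  have hge : ∀ i j, a i + π ≤ b i → a (i + j) + π ≤ b (i + j) := by
    intro i j h
    induction j with
    | zero => exact h
    | succ j ih =>
      rw [← add_assoc, ha_succ, hb_succ]
      have h1 := (c.mono (i + j)).monotone ih
      rw [c.deg] at h1
      linarith
  have hmul : ∀ j, a (j * (m * c.n)) = a₀ + j * (k * π) ∧ b (j * (m * c.n)) = b₀ + j * (k * π) := by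
    intro j
    induction j with
    | zero => simp [ha, hb]
    | succ j ih =>
      have e1 : (j + 1) * (m * c.n) = m * c.n + j * (m * c.n) := by ring
      rw [e1, ha_per, hb_per, ih.1, ih.2]
      push_cast
      constructor <;> ring
  have hltπ : ∀ i, b i < a i + π := by
    intro i
    by_contra hcon
    push Not at hcon
    have hpos : 0 < m * c.n := Nat.mul_pos hm c.n_pos
    obtain ⟨j, hj⟩ : ∃ j, i + j = i * (m * c.n) :=
      ⟨i * (m * c.n) - i, Nat.add_sub_cancel' (Nat.le_mul_of_pos_right i hpos)⟩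
    have h1 := hge i j hcon
    rw [hj, (hmul i).1, (hmul i).2] at h1
    linarith
  -- the length is at most `π - 2 θ / R`
  have hlen : ∀ i, 2 * θ / R ≤ a i + π - b i := by
    intro i
    have h1 := hltπ (i + 1)
    rw [ha_succ, hb_succ] at h1
    obtain ⟨ξ, -, hξ⟩ := exists_hasDerivAt_eq_slope (c.Φ i) (c.J i) (hltπ i)
      (c.cont i).continuousOn (fun x _ => c.deriv i x)
    have h2 : a i + π - b i > 0 := by linarith [hltπ i]
    rw [eq_div_iff h2.ne', c.deg] at hξ
    rw [div_le_iff₀ hR]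
    have h3 := mul_le_mul_of_nonneg_right (hJR i ξ) h2.le
    nlinarith
  set η := min (2 * θ) (2 * θ / R) with hη
  have hη0 : 0 < η := lt_min (by linarith) (by positivity)
  have hsin : ∀ i, sin η ≤ sin (b i - a i) := by
    intro i
    have h1 : η ≤ b i - a i := (min_le_left _ _).trans (by linarith [hlt2 i])
    have h2 : η ≤ π - (b i - a i) := (min_le_right _ _).trans (by linarith [hlen i])
    rcases le_total (b i - a i) (π / 2) with h | h
    · exact sin_le_sin_of_le_of_le_pi_div_two (by linarith) h h1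
    · rw [← sin_pi_sub (b i - a i)]
      exact sin_le_sin_of_le_of_le_pi_div_two (by linarith) (by linarith) h2
  have hηπ : η < π := (min_le_left _ _).trans_lt (by linarith [hlt2 0, hltπ 0])
  have hsη : 0 < sin η := sin_pos_of_pos_of_lt_pi hη0 hηπ
  -- the periodic point
  obtain ⟨s, ⟨has, hsb⟩, hs⟩ : ∃ s ∈ Icc a₀ b₀, c.G 0 (m * c.n) s = s + k * π := by
    have hc : Continuous fun t => c.G 0 (m * c.n) t - (t + k * π) :=
      ((c.G_cont (m * c.n)).comp (Continuous.prodMk_right 0)).sub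
        (continuous_id.add continuous_const)
    have h1 := c.G_push (-θ) 0 (by linarith) N a₀
    have h2 := c.G_push 0 θ (by linarith) N b₀
    rw [← hN] at h1 h2
    have h3 : (0 : ℝ) ∈ Icc ((fun t => c.G 0 (m * c.n) t - (t + k * π)) b₀)
        ((fun t => c.G 0 (m * c.n) t - (t + k * π)) a₀) := by
      constructor
      · change c.G 0 (m * c.n) b₀ - (b₀ + k * π) ≤ 0
        linarith
      · change 0 ≤ c.G 0 (m * c.n) a₀ - (a₀ + k * π)
        linarith
    obtain ⟨s, hs, hs0⟩ := intermediate_value_Icc' hab.le hc.continuousOn h3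
    exact ⟨s, hs, by
      have : c.G 0 (m * c.n) s - (s + k * π) = 0 := hs0
      linarith⟩
  refine ⟨m, hm, k, s, hs, ?_⟩
  set y : ℕ → ℝ := fun i => c.G 0 i s with hy
  have hy_succ : ∀ i, y (i + 1) = c.Φ i (y i) := fun i => by
    simp only [hy]; rw [G_succ, add_zero]
  have hy_per : ∀ i, y (m * c.n + i) = y i + k * π := fun i => c.G_iter hs i
  have hay : ∀ i, a i ≤ y i ∧ y i ≤ b i := by
    intro i
    induction i with
    | zero => exact ⟨has, hsb⟩
    | succ i ih =>
      rw [ha_succ, hb_succ, hy_succ]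
      have h1 := (c.mono i).monotone ih.1
      have h2 := (c.mono i).monotone ih.2
      constructor <;> linarith
  have hmar' : ∀ i, a (i + 1) + θ ≤ y (i + 1) ∧ y (i + 1) + θ ≤ b (i + 1) := by
    intro i
    rw [ha_succ, hb_succ, hy_succ]
    have h1 := (c.mono i).monotone (hay i).1
    have h2 := (c.mono i).monotone (hay i).2
    constructor <;> linarith
  have hmar : ∀ i, a i + θ ≤ y i ∧ y i + θ ≤ b i := by
    intro i
    have h1 := hmar' (N + i)
    have e1 : N + i + 1 = m * c.n + i := by omega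
    rw [e1, ha_per, hb_per, hy_per] at h1
    constructor <;> linarith [h1.1, h1.2]
  have hθπ : θ < π / 2 := by linarith [hlt2 0, hltπ 0]
  set h : ℕ → ℝ := fun i => dens (y i - a i) (b i - y i) with hh
  have hstep : ∀ i, c.J i (y i) * h (i + 1) ≤ lam θ * h i := by
    intro i
    have h1 : y (i + 1) - a (i + 1) = (c.Φ i (y i) - c.Φ i (a i)) + θ := by
      rw [ha_succ, hy_succ]; ring
    have h2 : b (i + 1) - y (i + 1) = (c.Φ i (b i) - c.Φ i (y i)) + θ := by
      rw [hb_succ, hy_succ]; ring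
    have h3 : 0 < c.Φ i (y i) - c.Φ i (a i) := by
      have := c.mono i (show a i < y i by linarith [(hmar i).1])
      linarith
    have h4 : 0 < c.Φ i (b i) - c.Φ i (y i) := by
      have := c.mono i (show y i < b i by linarith [(hmar i).2])
      linarith
    have h5 := hltπ (i + 1)
    rw [ha_succ, hb_succ] at h5
    have h6 := dens_step h3 h4 hθ0 (by linarith)
    have h7 := mul_le_mul_of_nonneg_left h6 (c.J_pos i (y i)).le
    calc c.J i (y i) * h (i + 1)
        = c.J i (y i) * dens (c.Φ i (y i) - c.Φ i (a i) + θ) (c.Φ i (b i) - c.Φ i (y i) + θ) := by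
          simp only [hh]
          rw [h1, h2]
      _ ≤ c.J i (y i) * (lam θ * dens (c.Φ i (y i) - c.Φ i (a i)) (c.Φ i (b i) - c.Φ i (y i))) := h7
      _ = lam θ * (c.J i (y i) * dens (c.Φ i (y i) - c.Φ i (a i)) (c.Φ i (b i) - c.Φ i (y i))) := by
          ring
      _ = lam θ * h i := by rw [c.dens_J hchord]
  have hprod : ∀ i l, (∏ j ∈ Finset.range l, c.J (i + j) (y (i + j))) * h (i + l) ≤
      lam θ ^ l * h i := by
    intro i l
    induction l with
    | zero => simp
    | succ l ih =>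
      rw [Finset.prod_range_succ, pow_succ]
      have h1 := hstep (i + l)
      have h2 : 0 ≤ ∏ j ∈ Finset.range l, c.J (i + j) (y (i + j)) :=
        Finset.prod_nonneg fun j _ => (c.J_pos _ _).le
      calc _ = (∏ j ∈ Finset.range l, c.J (i + j) (y (i + j))) *
            (c.J (i + l) (y (i + l)) * h (i + l + 1)) := by rw [mul_assoc]; rfl
        _ ≤ (∏ j ∈ Finset.range l, c.J (i + j) (y (i + j))) * (lam θ * h (i + l)) := by gcongr
        _ = lam θ * ((∏ j ∈ Finset.range l, c.J (i + j) (y (i + j))) * h (i + l)) := by ring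
        _ ≤ lam θ * (lam θ ^ l * h i) :=
            mul_le_mul_of_nonneg_left ih (lam_pos hθ0 hθπ).le
        _ = _ := by ring
  have hh_ge : ∀ i, sin η ≤ h i := by
    intro i
    have h1 := dens_ge (A := y i - a i) (B := b i - y i) (by linarith [(hmar i).1])
      (by linarith [(hmar i).2]) (by linarith [hltπ i])
    have e : y i - a i + (b i - y i) = b i - a i := by ring
    rw [e] at h1
    exact (hsin i).trans h1
  have hh_le : ∀ i, h i ≤ 2 * (cos θ / sin θ) := fun i =>
    dens_le hθ0 (by linarith [(hmar i).1]) (by linarith [(hmar i).2]) (by linarith [hltπ i])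
  intro i l
  have h1 := hprod i l
  have h2 : 0 ≤ ∏ j ∈ Finset.range l, c.J (i + j) (y (i + j)) :=
    Finset.prod_nonneg fun j _ => (c.J_pos _ _).le
  have h3 : (∏ j ∈ Finset.range l, c.J (i + j) (y (i + j))) * sin η ≤
      lam θ ^ l * (2 * (cos θ / sin θ)) := by
    calc _ ≤ (∏ j ∈ Finset.range l, c.J (i + j) (y (i + j))) * h (i + l) := by
          gcongr
          exact hh_ge _
      _ ≤ lam θ ^ l * h i := h1
      _ ≤ _ := by
          have := lam_pos hθ0 hθπ
          gcongr
          exact hh_le i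
  change (∏ j ∈ Finset.range l, c.J (i + j) (y (i + j))) ≤ _
  unfold CC
  rw [← hη, div_mul_eq_mul_div, le_div_iff₀ hsη]
  linarith

end Cyc

end PCE
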