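import Pool.Agent.PCE.Defs

/-!
# The generator of the circle action
-/

open Set Filter Topology Manifold ContDiff Metric

namespace OmSt

section

variable {E : Type*} [NormedAddCommGroup E] [NormedSpace ℝ E]
  {M : Type*} [TopologicalSpace M] [ChartedSpace E M] [IsManifold 𝓘(ℝ, E) ∞ M]
  {E' : Type*} [NormedAddCommGroup E'] [NormedSpace ℝ E']
  {B : Type*} [TopologicalSpace B] [ChartedSpace E' B]

/-- The action in the chart at `b`. -/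
noncomputable def CircleBundle.chΦ (P : CircleBundle E M E' B) (b : M) (q : ℝ × E) : E :=
  chartAt E b (P.ρ q.1 ((chartAt E b).symm q.2))

omit [IsManifold 𝓘(ℝ, E) ∞ M] in
theorem CircleBundle.orbit_smooth (P : CircleBundle E M E' B) (x : M) :
    ContMDiff 𝓘(ℝ, ℝ) 𝓘(ℝ, E) ∞ (fun s : ℝ => P.ρ s x) := by
  have h1 : ContMDiff 𝓘(ℝ, ℝ) (𝓘(ℝ, ℝ).prod 𝓘(ℝ, E)) ∞ (fun s : ℝ => (s, x)) :=
    contMDiff_id.prodMk contMDiff_const
  exact P.smooth.comp h1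

omit [IsManifold 𝓘(ℝ, E) ∞ M] in
theorem CircleBundle.rho_smooth (P : CircleBundle E M E' B) (s : ℝ) :
    ContMDiff 𝓘(ℝ, E) 𝓘(ℝ, E) ∞ (P.ρ s) := by
  have h1 : ContMDiff 𝓘(ℝ, E) (𝓘(ℝ, ℝ).prod 𝓘(ℝ, E)) ∞ (fun x : M => (s, x)) :=
    contMDiff_const.prodMk contMDiff_id
  exact P.smooth.comp h1

theorem CircleBundle.chΦ_contDiffAt (P : CircleBundle E M E' B) (b : M) :
    ContDiffAt ℝ ∞ (P.chΦ b) (0, chartAt E b b) := by
  rw [← contMDiffAt_iff_contDiffAt]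
  have hb : b ∈ (chartAt E b).source := mem_chart_source E b
  have hbt : chartAt E b b ∈ (chartAt E b).target := (chartAt E b).map_source hb
  have hsy : (chartAt E b).symm (chartAt E b b) = b := (chartAt E b).left_inv hb
  have h1 : ContMDiffAt 𝓘(ℝ, ℝ × E) 𝓘(ℝ, ℝ) ∞ (Prod.fst : ℝ × E → ℝ) (0, chartAt E b b) :=
    contDiff_fst.contMDiff.contMDiffAt
  have h2 : ContMDiffAt 𝓘(ℝ, ℝ × E) 𝓘(ℝ, E) ∞ (Prod.snd : ℝ × E → E) (0, chartAt E b b) :=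
    contDiff_snd.contMDiff.contMDiffAt
  have h3 : ContMDiffAt 𝓘(ℝ, E) 𝓘(ℝ, E) ∞ (chartAt E b).symm (chartAt E b b) :=
    (contMDiffOn_chart_symm (I := 𝓘(ℝ, E)) (n := ∞) (x := b)).contMDiffAt
      ((chartAt E b).open_target.mem_nhds hbt)
  have h4 : ContMDiffAt 𝓘(ℝ, ℝ × E) 𝓘(ℝ, E) ∞ (fun q : ℝ × E => (chartAt E b).symm q.2)
      (0, chartAt E b b) := h3.comp (0, chartAt E b b) h2
  have h5 := h1.prodMk h4
  have h6 : ContMDiffAt 𝓘(ℝ, ℝ × E) 𝓘(ℝ, E) ∞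
      (fun q : ℝ × E => P.ρ q.1 ((chartAt E b).symm q.2)) (0, chartAt E b b) :=
    (P.smooth.contMDiffAt).comp (0, chartAt E b b) h5
  have h7 : ContMDiffAt 𝓘(ℝ, E) 𝓘(ℝ, E) ∞ (chartAt E b) b :=
    (contMDiffOn_chart (I := 𝓘(ℝ, E)) (n := ∞) (x := b)).contMDiffAt
      ((chartAt E b).open_source.mem_nhds hb)
  have e0 : P.ρ 0 ((chartAt E b).symm (chartAt E b b)) = b := by rw [hsy, P.zero]
  exact ContMDiffAt.comp_of_eq h7 h6 e0

/-- The generator in a chart. -/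
theorem CircleBundle.Dc_X (P : CircleBundle E M E' B) (b : M) :
    ∀ᶠ y in 𝓝 b, (Dc b y : E →L[ℝ] E) (P.X y) =
      fderiv ℝ (P.chΦ b) (0, chartAt E b y) ((1 : ℝ), (0 : E)) := by
  have hb : b ∈ (chartAt E b).source := mem_chart_source E b
  have h1 : ∀ᶠ q in 𝓝 ((0 : ℝ), chartAt E b b), DifferentiableAt ℝ (P.chΦ b) q := by
    have h := ((P.chΦ_contDiffAt b).of_le (m := 1) (by simp)).eventually (by simp)
    filter_upwards [h] with q hq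
    exact hq.differentiableAt (by simp)
  have hcont : ContinuousAt (fun y : M => ((0 : ℝ), chartAt E b y)) b :=
    continuousAt_const.prodMk ((chartAt E b).continuousAt hb)
  have h2 := hcont.eventually h1
  filter_upwards [h2, (chartAt E b).open_source.mem_nhds hb] with y hy hys
  have hsy : (chartAt E b).symm (chartAt E b y) = y := (chartAt E b).left_inv hys
  -- the left side
  have h3 : MDifferentiableAt 𝓘(ℝ, ℝ) 𝓘(ℝ, E) (fun s : ℝ => P.ρ s y) 0 :=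
    (P.orbit_smooth y).mdifferentiableAt (by simp)
  have h4 : MDifferentiableAt 𝓘(ℝ, E) 𝓘(ℝ, E) (chartAt E b) (P.ρ 0 y) := by
    rw [P.zero]
    exact mdifferentiableAt_atlas (chart_mem_atlas E b) hys
  have h5 : HasMFDerivAt 𝓘(ℝ, ℝ) 𝓘(ℝ, E) (chartAt E b ∘ fun s : ℝ => P.ρ s y) 0
      ((mfderiv 𝓘(ℝ, E) 𝓘(ℝ, E) (chartAt E b) (P.ρ 0 y)).comp
        (mfderiv 𝓘(ℝ, ℝ) 𝓘(ℝ, E) (fun s : ℝ => P.ρ s y) 0)) :=
    HasMFDerivAt.comp 0 h4.hasMFDerivAt h3.hasMFDerivAt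
  let L₁ : E →L[ℝ] E := mfderiv 𝓘(ℝ, E) 𝓘(ℝ, E) (chartAt E b) (P.ρ 0 y)
  let L₂ : ℝ →L[ℝ] E := mfderiv 𝓘(ℝ, ℝ) 𝓘(ℝ, E) (fun s : ℝ => P.ρ s y) 0
  have h6 : HasFDerivAt (fun s : ℝ => chartAt E b (P.ρ s y)) (L₁.comp L₂) 0 := h5.hasFDerivAt
  have h7 : HasDerivAt (fun s : ℝ => chartAt E b (P.ρ s y))
      ((Dc b (P.ρ 0 y) : E →L[ℝ] E) (P.X y)) 0 := h6.hasDerivAt
  rw [P.zero] at h7
  -- the right side
  have h8 : HasFDerivAt (P.chΦ b) (fderiv ℝ (P.chΦ b) (0, chartAt E b y)) (0, chartAt E b y) :=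
    hy.hasFDerivAt
  have h9 : HasDerivAt (fun s : ℝ => (s, chartAt E b y)) ((1 : ℝ), (0 : E)) 0 :=
    (hasDerivAt_id (0 : ℝ)).prodMk (hasDerivAt_const (0 : ℝ) (chartAt E b y))
  have h10 : HasDerivAt (P.chΦ b ∘ fun s : ℝ => (s, chartAt E b y))
      (fderiv ℝ (P.chΦ b) (0, chartAt E b y) ((1 : ℝ), (0 : E))) 0 :=
    h8.comp_hasDerivAt 0 h9
  have h11 : (P.chΦ b ∘ fun s : ℝ => (s, chartAt E b y)) = fun s : ℝ => chartAt E b (P.ρ s y) := by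
    funext s
    simp only [Function.comp, CircleBundle.chΦ, hsy]
  rw [h11] at h10
  exact h7.unique h10

theorem CircleBundle.Dc_X_continuousAt (P : CircleBundle E M E' B) (b : M) :
    ContinuousAt (fun y : M => (Dc b y : E →L[ℝ] E) (P.X y)) b := by
  have hb : b ∈ (chartAt E b).source := mem_chart_source E b
  have h1 : ContDiffAt ℝ 0 (fderiv ℝ (P.chΦ b)) (0, chartAt E b b) :=
    (P.chΦ_contDiffAt b).fderiv_right (by simp)
  have h2 := h1.continuousAt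
  have hcont : ContinuousAt (fun y : M => ((0 : ℝ), chartAt E b y)) b :=
    continuousAt_const.prodMk ((chartAt E b).continuousAt hb)
  have h3 : ContinuousAt (fun y : M => fderiv ℝ (P.chΦ b) (0, chartAt E b y)
      ((1 : ℝ), (0 : E))) b :=
    (ContinuousAt.comp (f := fun y : M => ((0 : ℝ), chartAt E b y)) h2 hcont).clm_apply
      continuousAt_const
  exact h3.congr (EventuallyEq.symm (P.Dc_X b))

omit [IsManifold 𝓘(ℝ, E) ∞ M] in
/-- The derivative of an orbit at any time. -/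
theorem CircleBundle.orbit_deriv (P : CircleBundle E M E' B) (x : M) (hx : P.X x = 0) (s₀ : ℝ) :
    HasMFDerivAt 𝓘(ℝ, ℝ) 𝓘(ℝ, E) (fun s : ℝ => P.ρ s x) s₀ (0 : ℝ →L[ℝ] E) := by
  have h1 : HasMFDerivAt 𝓘(ℝ, ℝ) 𝓘(ℝ, E) (fun s : ℝ => P.ρ s x) 0
      (mfderiv 𝓘(ℝ, ℝ) 𝓘(ℝ, E) (fun s : ℝ => P.ρ s x) 0) :=
    ((P.orbit_smooth x).mdifferentiableAt (by simp)).hasMFDerivAt
  have h2 : (mfderiv 𝓘(ℝ, ℝ) 𝓘(ℝ, E) (fun s : ℝ => P.ρ s x) 0 : ℝ →L[ℝ] E) = 0 := by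
    ext
    exact hx
  have h3 : ∀ t : ℝ, t = 0 →
      HasMFDerivAt 𝓘(ℝ, ℝ) 𝓘(ℝ, E) (fun s : ℝ => P.ρ s x) t (0 : ℝ →L[ℝ] E) := by
    rintro t rfl
    have := h1
    rw [show mfderiv 𝓘(ℝ, ℝ) 𝓘(ℝ, E) (fun s : ℝ => P.ρ s x) 0 = (0 : ℝ →L[ℝ] E) from h2] at this
    exact this
  have h4 : HasMFDerivAt 𝓘(ℝ, ℝ) 𝓘(ℝ, ℝ) (fun s : ℝ => s - s₀) s₀
      (ContinuousLinearMap.id ℝ ℝ) :=
    ((hasFDerivAt_id s₀).sub_const s₀).hasMFDerivAt
  have h5 := HasMFDerivAt.comp (f := fun s : ℝ => s - s₀) s₀ (h3 (s₀ - s₀) (sub_self s₀)) h4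
  have h6 : MDifferentiableAt 𝓘(ℝ, E) 𝓘(ℝ, E) (P.ρ s₀) (P.ρ (s₀ - s₀) x) :=
    (P.rho_smooth s₀).mdifferentiableAt (by simp)
  have h7 := HasMFDerivAt.comp s₀ h6.hasMFDerivAt h5
  have e1 : (P.ρ s₀ ∘ (fun s : ℝ => P.ρ s x) ∘ fun s : ℝ => s - s₀) = fun s : ℝ => P.ρ s x := by
    funext s
    simp only [Function.comp]
    rw [← P.add, add_sub_cancel]
  rw [e1] at h7
  let L : E →L[ℝ] E := mfderiv 𝓘(ℝ, E) 𝓘(ℝ, E) (P.ρ s₀) (P.ρ (s₀ - s₀) x)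
  have e2 : L.comp ((0 : ℝ →L[ℝ] E).comp (ContinuousLinearMap.id ℝ ℝ)) = 0 := by
    ext
    simp
  have h8 : ∀ T : ℝ →L[ℝ] E, T = 0 →
      HasMFDerivAt 𝓘(ℝ, ℝ) 𝓘(ℝ, E) (fun s : ℝ => P.ρ s x) s₀ T →
      HasMFDerivAt 𝓘(ℝ, ℝ) 𝓘(ℝ, E) (fun s : ℝ => P.ρ s x) s₀ (0 : ℝ →L[ℝ] E) := by
    rintro _ rfl h
    exact h
  exact h8 _ e2 h7

theorem CircleBundle.X_ne (P : CircleBundle E M E' B) (x : M) : P.X x ≠ 0 := by
  intro hx
  have hcont : Continuous (fun s : ℝ => P.ρ s x) := (P.orbit_smooth x).continuous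
  have hlc : IsLocallyConstant (fun s : ℝ => P.ρ s x) := by
    rw [IsLocallyConstant.iff_eventually_eq]
    intro s₀
    set b := P.ρ s₀ x with hb
    have hU : {s : ℝ | P.ρ s x ∈ (chartAt E b).source} ∈ 𝓝 s₀ :=
      hcont.continuousAt.preimage_mem_nhds
        ((chartAt E b).open_source.mem_nhds (mem_chart_source E b))
    obtain ⟨ε, hε, hball⟩ := Metric.mem_nhds_iff.1 hU
    have hd : ∀ s ∈ ball s₀ ε, HasDerivAt (fun s : ℝ => chartAt E b (P.ρ s x)) 0 s := by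
      intro s hs
      have h1 : MDifferentiableAt 𝓘(ℝ, E) 𝓘(ℝ, E) (chartAt E b) (P.ρ s x) :=
        mdifferentiableAt_atlas (chart_mem_atlas E b) (hball hs)
      have h2 := HasMFDerivAt.comp s h1.hasMFDerivAt (P.orbit_deriv x hx s)
      let L₁ : E →L[ℝ] E := mfderiv 𝓘(ℝ, E) 𝓘(ℝ, E) (chartAt E b) (P.ρ s x)
      have h3 : HasFDerivAt (fun s : ℝ => chartAt E b (P.ρ s x))
          (L₁.comp (0 : ℝ →L[ℝ] E)) s := h2.hasFDerivAt
      have h4 := h3.hasDerivAt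
      have e : (L₁.comp (0 : ℝ →L[ℝ] E)) 1 = 0 := by simp
      rw [e] at h4
      exact h4
    filter_upwards [ball_mem_nhds s₀ hε] with s hs
    have h1 : (fun s : ℝ => chartAt E b (P.ρ s x)) s = (fun s : ℝ => chartAt E b (P.ρ s x)) s₀ :=
      isOpen_ball.is_const_of_deriv_eq_zero (convex_ball s₀ ε).isPreconnected
        (fun t ht => (hd t ht).differentiableAt.differentiableWithinAt)
        (fun t ht => (hd t ht).deriv) hs (mem_ball_self hε)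
    have h2 := congrArg (chartAt E b).symm h1
    rw [(chartAt E b).left_inv (hball hs), (chartAt E b).left_inv (hball (mem_ball_self hε))] at h2
    exact h2
  have h1 : P.ρ 1 x = x := by
    have := hlc.apply_eq_of_preconnectedSpace 1 0
    rw [this, P.zero]
  obtain ⟨k, hk⟩ := (P.period 1 x).1 h1
  have hpi := Real.pi_gt_three
  rcases le_or_gt k 0 with h | h
  · have : (k : ℝ) * Real.pi ≤ 0 :=
      mul_nonpos_of_nonpos_of_nonneg (by exact_mod_cast h) Real.pi_pos.le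
    linarith
  · have h2 : (1 : ℝ) ≤ k := by exact_mod_cast h
    nlinarith

end

section

variable {E : Type*} [NormedAddCommGroup E] [NormedSpace ℝ E] [FiniteDimensional ℝ E]
  {M : Type*} [MetricSpace M] [CompactSpace M] [ChartedSpace E M] [IsManifold 𝓘(ℝ, E) ∞ M]
  {E' : Type*} [NormedAddCommGroup E'] [NormedSpace ℝ E'] [FiniteDimensional ℝ E']
  {B : Type*} [MetricSpace B] [CompactSpace B] [ChartedSpace E' B] [IsManifold 𝓘(ℝ, E') ∞ B]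

/-- (F3) The generator of the action does not vanish, is bounded, and spans the kernel of the
derivative of the projection. -/
theorem CircleBundle.X_bounds (P : CircleBundle E M E' B) (γ : RMetric E M) :
    ∃ C > 0, ∀ x, rnorm γ x (P.X x) ≤ C ∧ 1 ≤ C * rnorm γ x (P.X x) := by
  have hloc : ∀ b : M, ∃ C > 0, ∀ᶠ y in 𝓝 b,
      rnorm γ y (P.X y) ≤ C ∧ 1 ≤ C * rnorm γ y (P.X y) := by
    intro b
    obtain ⟨C₁, hC₁, hcmp⟩ := exists_comparison γ b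
    have hb : b ∈ (chartAt E b).source := mem_chart_source E b
    set N := ‖(Dc b b : E →L[ℝ] E) (P.X b)‖ with hN
    have hNpos : 0 < N := by
      rw [hN, norm_pos_iff]
      intro h
      apply P.X_ne b
      have h1 := Dc'_Dc hb (P.X b)
      rw [h, map_zero] at h1
      exact h1.symm
    have hcont : ContinuousAt (fun y : M => ‖(Dc b y : E →L[ℝ] E) (P.X y)‖) b :=
      (P.Dc_X_continuousAt b).norm
    have h1 : ∀ᶠ y in 𝓝 b, N / 2 < ‖(Dc b y : E →L[ℝ] E) (P.X y)‖ :=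
      hcont.eventually (lt_mem_nhds (by change N / 2 < N; linarith))
    have h2 : ∀ᶠ y in 𝓝 b, ‖(Dc b y : E →L[ℝ] E) (P.X y)‖ < N + 1 :=
      hcont.eventually (gt_mem_nhds (by change N < N + 1; linarith))
    refine ⟨C₁ * (N + 1) + 2 * C₁ / N, by positivity, ?_⟩
    filter_upwards [hcmp, h1, h2] with y hy hy1 hy2
    have hy3 := hy (P.X y)
    have hr0 : 0 ≤ rnorm γ y (P.X y) := Real.sqrt_nonneg _
    have hq : 0 ≤ 2 * C₁ / N := by positivity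
    constructor
    · have : rnorm γ y (P.X y) ≤ C₁ * (N + 1) :=
        hy3.2.trans (mul_le_mul_of_nonneg_left hy2.le hC₁.le)
      linarith
    · have h3 : N / 2 ≤ C₁ * rnorm γ y (P.X y) := hy1.le.trans hy3.1
      have h4 : 1 ≤ 2 * C₁ / N * rnorm γ y (P.X y) := by
        have : 2 * C₁ / N * rnorm γ y (P.X y) = (C₁ * rnorm γ y (P.X y)) / (N / 2) := by
          field_simp
        rw [this, le_div_iff₀ (by positivity), one_mul]
        exact h3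
      have h5 : 0 ≤ C₁ * (N + 1) * rnorm γ y (P.X y) := by positivity
      linarith [add_mul (C₁ * (N + 1)) (2 * C₁ / N) (rnorm γ y (P.X y))]
  have hmain : ∃ C > 0, ∀ x ∈ (univ : Set M),
      rnorm γ x (P.X x) ≤ C ∧ 1 ≤ C * rnorm γ x (P.X x) := by
    refine isCompact_univ.induction_on
      (p := fun s : Set M => ∃ C > 0, ∀ x ∈ s,
        rnorm γ x (P.X x) ≤ C ∧ 1 ≤ C * rnorm γ x (P.X x)) ?_ ?_ ?_ ?_
    · exact ⟨1, one_pos, fun x hx => absurd hx (notMem_empty x)⟩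
    · rintro s t hst ⟨C, hC, h⟩
      exact ⟨C, hC, fun x hx => h x (hst hx)⟩
    · rintro s t ⟨C, hC, h⟩ ⟨C', hC', h'⟩
      refine ⟨C + C', by positivity, ?_⟩
      rintro x (hx | hx)
      · have hr0 : 0 ≤ rnorm γ x (P.X x) := Real.sqrt_nonneg _
        have := h x hx
        exact ⟨by linarith, by nlinarith⟩
      · have hr0 : 0 ≤ rnorm γ x (P.X x) := Real.sqrt_nonneg _
        have := h' x hx
        exact ⟨by linarith, by nlinarith⟩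
    · intro b _
      obtain ⟨C, hC, h⟩ := hloc b
      exact ⟨_, mem_nhdsWithin_of_mem_nhds h, C, hC, fun x hx => hx⟩
  obtain ⟨C, hC, h⟩ := hmain
  exact ⟨C, hC, fun x => h x (mem_univ x)⟩

omit [FiniteDimensional ℝ E] [CompactSpace M] [IsManifold 𝓘(ℝ, E) ∞ M]
  [FiniteDimensional ℝ E'] [CompactSpace B] [IsManifold 𝓘(ℝ, E') ∞ B] in
theorem CircleBundle.Dp_X (P : CircleBundle E M E' B) (x : M) :
    mfderiv 𝓘(ℝ, E) 𝓘(ℝ, E') P.p x (P.X x) = 0 := by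
  have h1 : HasMFDerivAt 𝓘(ℝ, ℝ) 𝓘(ℝ, E) (fun s : ℝ => P.ρ s x) 0
      (mfderiv 𝓘(ℝ, ℝ) 𝓘(ℝ, E) (fun s : ℝ => P.ρ s x) 0) :=
    ((P.orbit_smooth x).mdifferentiableAt (by simp)).hasMFDerivAt
  have h2 : HasMFDerivAt 𝓘(ℝ, E) 𝓘(ℝ, E') P.p (P.ρ 0 x)
      (mfderiv 𝓘(ℝ, E) 𝓘(ℝ, E') P.p (P.ρ 0 x)) :=
    (P.p_smooth.mdifferentiableAt (by simp)).hasMFDerivAt
  have h3 := HasMFDerivAt.comp (0 : ℝ) h2 h1
  have e1 : (P.p ∘ fun s : ℝ => P.ρ s x) = fun _ : ℝ => P.p x := by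
    funext s
    exact ((P.fib x (P.ρ s x)).2 ⟨s, rfl⟩).symm
  rw [e1] at h3
  have h4 : HasMFDerivAt 𝓘(ℝ, ℝ) 𝓘(ℝ, E') (fun _ : ℝ => P.p x) 0 (0 : ℝ →L[ℝ] E') :=
    hasMFDerivAt_const (P.p x) (0 : ℝ)
  have h5 := congrArg (fun L : ℝ →L[ℝ] E' => L 1) (hasMFDerivAt_unique h3 h4)
  have h6 : ∀ y : M, y = x →
      (mfderiv 𝓘(ℝ, E) 𝓘(ℝ, E') P.p y : E →L[ℝ] E') (P.X x) = 0 →
      (mfderiv 𝓘(ℝ, E) 𝓘(ℝ, E') P.p x : E →L[ℝ] E') (P.X x) = 0 := by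
    rintro y rfl h
    exact h
  exact h6 (P.ρ 0 x) (P.zero x) h5

theorem CircleBundle.ker_eq (P : CircleBundle E M E' B) (x : M) (v : E) :
    mfderiv 𝓘(ℝ, E) 𝓘(ℝ, E') P.p x v = 0 ↔ ∃ c : ℝ, v = c • P.X x := by
  constructor
  · intro hv
    let A' : E →L[ℝ] E' := mfderiv 𝓘(ℝ, E) 𝓘(ℝ, E') P.p x
    let A : E →ₗ[ℝ] E' := A'.toLinearMap
    have hA : Function.Surjective A := P.p_subm x
    have h1 := LinearMap.finrank_range_add_finrank_ker A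
    rw [LinearMap.range_eq_top.2 hA, finrank_top, P.dim] at h1
    have h2 : Module.finrank ℝ (LinearMap.ker A) = 1 := by omega
    have hX : P.X x ∈ LinearMap.ker A := P.Dp_X x
    have hv' : v ∈ LinearMap.ker A := hv
    have hne : (⟨P.X x, hX⟩ : LinearMap.ker A) ≠ 0 := fun h => P.X_ne x (congrArg Subtype.val h)
    obtain ⟨c, hc⟩ := (finrank_eq_one_iff_of_nonzero' (⟨P.X x, hX⟩ : LinearMap.ker A) hne).1 h2
      ⟨v, hv'⟩
    exact ⟨c, (congrArg Subtype.val hc).symm⟩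
  · rintro ⟨c, rfl⟩
    let A' : E →L[ℝ] E' := mfderiv 𝓘(ℝ, E) 𝓘(ℝ, E') P.p x
    have h1 : A' (P.X x) = 0 := P.Dp_X x
    have h2 : A' (c • P.X x) = 0 := by
      rw [map_smul, h1, smul_zero]
    exact h2

end

end OmSt
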