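import Pool.Agent.PCE.Ext1
import Pool.Agent.PCE.Gen

/-!
# From circle bundles and projective maps to circle extensions
-/

open Set Filter Topology Manifold ContDiff Metric

namespace OmSt

section Lift

open Real

/-- The data of a projective map of the circle, normalised. -/
theorem exists_chord {a b c d : ℝ} {F : ℝ → ℝ} (hdet : 0 < a * d - b * c) (hF : Continuous F)
    (h : ∀ s, (a * cos s + b * sin s) * sin (F s) = (c * cos s + d * sin s) * cos (F s)) :
    ∃ κ : ℝ → ℝ, Continuous κ ∧ (∀ s, 0 < κ s) ∧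
      ∀ s t, sin (F t - F s) = κ t * κ s * sin (t - s) := by
  set u : ℝ → ℝ := fun s => a * cos s + b * sin s with hu
  set v : ℝ → ℝ := fun s => c * cos s + d * sin s with hv
  set q : ℝ → ℝ := fun s => u s * cos (F s) + v s * sin (F s) with hq
  have huc : Continuous u := by fun_prop
  have hvc : Continuous v := by fun_prop
  have hqc : Continuous q :=
    (huc.mul (continuous_cos.comp hF)).add (hvc.mul (continuous_sin.comp hF))
  have h' : ∀ s, u s * sin (F s) = v s * cos (F s) := h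
  have hu' : ∀ s, u s = q s * cos (F s) := by
    intro s
    have h1 := h' s
    have h2 := sin_sq_add_cos_sq (F s)
    simp only [hq]
    calc u s = u s * (sin (F s) ^ 2 + cos (F s) ^ 2) := by rw [h2, mul_one]
      _ = (u s * sin (F s)) * sin (F s) + u s * cos (F s) * cos (F s) := by ring
      _ = (v s * cos (F s)) * sin (F s) + u s * cos (F s) * cos (F s) := by rw [h1]
      _ = _ := by ring
  have hv' : ∀ s, v s = q s * sin (F s) := by
    intro s
    have h1 := h' s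
    have h2 := sin_sq_add_cos_sq (F s)
    simp only [hq]
    calc v s = v s * (sin (F s) ^ 2 + cos (F s) ^ 2) := by rw [h2, mul_one]
      _ = v s * sin (F s) * sin (F s) + (v s * cos (F s)) * cos (F s) := by ring
      _ = v s * sin (F s) * sin (F s) + (u s * sin (F s)) * cos (F s) := by rw [h1]
      _ = _ := by ring
  have hdet' : ∀ s t, v t * u s - u t * v s = (a * d - b * c) * sin (t - s) := by
    intro s t
    simp only [hu, hv]
    rw [sin_sub]
    ring
  have hq0 : ∀ s, q s ≠ 0 := by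
    intro s h0
    have h1 : u s = 0 := by rw [hu', h0, zero_mul]
    have h2 : v s = 0 := by rw [hv', h0, zero_mul]
    have h3 := hdet' s (s + π / 2)
    rw [h1, h2, mul_zero, mul_zero, sub_zero, add_sub_cancel_left, sin_pi_div_two, mul_one] at h3
    linarith
  have hsign : ∀ s t, 0 < q t * q s := by
    intro s t
    by_contra hcon
    push Not at hcon
    have h1 : ∃ w, q w = 0 := by
      rcases mul_nonpos_iff.1 hcon with ⟨h1, h2⟩ | ⟨h1, h2⟩
      · exact mem_range_of_exists_le_of_exists_ge hqc ⟨s, h2⟩ ⟨t, h1⟩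
      · exact mem_range_of_exists_le_of_exists_ge hqc ⟨t, h1⟩ ⟨s, h2⟩
    obtain ⟨w, hw⟩ := h1
    exact hq0 w hw
  refine ⟨fun s => √(a * d - b * c) / |q s|, continuous_const.div hqc.abs fun s =>
    abs_ne_zero.2 (hq0 s), fun s => div_pos (sqrt_pos.2 hdet) (abs_pos.2 (hq0 s)), fun s t => ?_⟩
  have h1 : (q t * q s) * sin (F t - F s) = (a * d - b * c) * sin (t - s) := by
    rw [← hdet', sin_sub, hu' s, hv' s, hu' t, hv' t]
    ring
  have h2 : √(a * d - b * c) / |q t| * (√(a * d - b * c) / |q s|) = (a * d - b * c) / (q t * q s) := by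
    rw [div_mul_div_comm, mul_self_sqrt hdet.le, ← abs_mul, abs_of_pos (hsign s t)]
  change _ = √(a * d - b * c) / |q t| * (√(a * d - b * c) / |q s|) * sin (t - s)
  rw [h2, div_mul_eq_mul_div, eq_div_iff (hsign s t).ne', ← h1]
  ring

/-- The derivative of a projective map. -/
theorem hasDerivAt_of_chord {F κ : ℝ → ℝ} (hF : Continuous F) (hκ : Continuous κ)
    (h : ∀ s t, sin (F t - F s) = κ t * κ s * sin (t - s)) (s : ℝ) :
    HasDerivAt F (κ s * κ s) s := by
  have h1 : HasDerivAt (fun t => κ t * κ s * sin (t - s)) (κ s * κ s) s := by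
    rw [hasDerivAt_iff_tendsto_slope]
    have h2 : HasDerivAt (fun t => sin (t - s)) 1 s := by
      have := ((hasDerivAt_id s).sub_const s).sin
      simpa using this
    rw [hasDerivAt_iff_tendsto_slope] at h2
    have h3 : Tendsto (fun t => κ t * κ s * slope (fun t => sin (t - s)) s t) (𝓝[≠] s)
        (𝓝 (κ s * κ s * 1)) :=
      (((hκ.tendsto s).mono_left nhdsWithin_le_nhds).mul_const (κ s)).mul h2
    rw [mul_one] at h3
    refine h3.congr fun t => ?_
    simp only [slope, vsub_eq_sub, sub_self, sin_zero, mul_zero, sub_zero, smul_eq_mul]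
    ring
  have h4 : HasDerivAt (fun t => arcsin (κ t * κ s * sin (t - s))) (κ s * κ s) s := by
    have h5 : HasDerivAt arcsin 1 (κ s * κ s * sin (s - s)) := by
      have := hasDerivAt_arcsin (x := 0) (by norm_num) (by norm_num)
      simpa using this
    have h6 := h5.comp s h1
    rw [one_mul] at h6
    exact h6
  have h7 : HasDerivAt (fun t => F s + arcsin (κ t * κ s * sin (t - s))) (κ s * κ s) s :=
    h4.const_add (F s)
  refine h7.congr_of_eventuallyEq ?_
  have h8 : ∀ᶠ t in 𝓝 s, F t - F s ∈ Ioo (-(π / 2)) (π / 2) := by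
    have : ContinuousAt (fun t => F t - F s) s := (hF.sub continuous_const).continuousAt
    refine this.eventually (Ioo_mem_nhds ?_ ?_)
    · change -(π / 2) < F s - F s
      linarith [pi_pos]
    · change F s - F s < π / 2
      linarith [pi_pos]
  filter_upwards [h8] with t ht
  rw [← h, arcsin_sin ht.1.le ht.2.le]
  ring

end Lift

variable {E : Type*} [NormedAddCommGroup E] [NormedSpace ℝ E]
  {M : Type*} [TopologicalSpace M] [ChartedSpace E M]
  {E' : Type*} [NormedAddCommGroup E'] [NormedSpace ℝ E']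
  {B : Type*} [TopologicalSpace B] [ChartedSpace E' B]
  {r : ℕ∞}

namespace CircleBundle

variable (P : CircleBundle E M E' B)

theorem rho_int (k : ℤ) (x : M) : P.ρ (k * Real.pi) x = x := (P.period _ _).2 ⟨k, rfl⟩

theorem rho_add_int (s : ℝ) (k : ℤ) (x : M) : P.ρ (s + k * Real.pi) x = P.ρ s x := by
  rw [P.add, rho_int]

theorem rho_eq {s t : ℝ} {x : M} (h : P.ρ s x = P.ρ t x) : ∃ k : ℤ, s = t + k * Real.pi := by
  have h1 : P.ρ (s - t) x = x := by
    have e1 : s - t = -t + s := by ring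
    rw [e1, P.add, h, ← P.add, neg_add_cancel, P.zero]
  obtain ⟨k, hk⟩ := (P.period _ _).1 h1
  exact ⟨k, by linarith⟩

/-- Normalised lifts. -/
theorem exists_lift {f : M → M} (hf : Function.Injective f) (hP : P.Projective f) (x : M) :
    ∃ (F κ : ℝ → ℝ), Continuous F ∧ StrictMono F ∧ F 0 = 0 ∧ (∀ s, F (s + Real.pi) = F s + Real.pi) ∧
      (∀ s, f (P.ρ s x) = P.ρ (F s) (f x)) ∧ Continuous κ ∧ (∀ s, 0 < κ s) ∧
      ∀ s t, Real.sin (F t - F s) = κ t * κ s * Real.sin (t - s) := by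
  obtain ⟨a, b, c, d, F₀, hdet, hFc, hFm, hF⟩ := hP x
  obtain ⟨κ, hκc, hκ0, hκ⟩ := exists_chord hdet hFc fun s => (hF s).2
  obtain ⟨k, hk⟩ : ∃ k : ℤ, F₀ 0 = k * Real.pi := by
    have h1 := (hF 0).1
    rw [P.zero] at h1
    exact (P.period _ _).1 h1.symm
  have hF1 : ∀ s, f (P.ρ s x) = P.ρ (F₀ s - F₀ 0) (f x) := by
    intro s
    rw [(hF s).1]
    have e1 : F₀ s = F₀ s - F₀ 0 + k * Real.pi := by rw [hk]; ring
    conv_lhs => rw [e1]
    rw [P.rho_add_int]
  refine ⟨fun s => F₀ s - F₀ 0, κ, hFc.sub continuous_const,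
    fun s t hst => sub_lt_sub_right (hFm hst) _, sub_self _, fun s => ?_, hF1, hκc, hκ0,
    fun s t => ?_⟩
  · -- degree one
    have h1 : P.ρ (F₀ (s + Real.pi) - F₀ 0) (f x) = P.ρ (F₀ s - F₀ 0) (f x) := by
      rw [← hF1, ← hF1]
      have e1 : s + Real.pi = s + ((1 : ℤ) : ℝ) * Real.pi := by push_cast; ring
      rw [e1, P.rho_add_int]
    obtain ⟨l, hl⟩ := P.rho_eq h1
    have hπ := Real.pi_pos
    have hlt : F₀ s < F₀ (s + Real.pi) := hFm (by linarith)
    have hl0 : 0 < l := by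
      have : 0 < (l : ℝ) * Real.pi := by linarith
      have h2 : (0 : ℝ) < l := by
        by_contra hc
        push Not at hc
        have := mul_nonpos_of_nonpos_of_nonneg hc hπ.le
        linarith
      exact_mod_cast h2
    have hl1 : l < 2 := by
      by_contra hc
      push Not at hc
      have hc' : (2 : ℝ) ≤ l := by exact_mod_cast hc
      have h2 : F₀ s + Real.pi < F₀ (s + Real.pi) := by nlinarith
      obtain ⟨t, ht, htF⟩ := intermediate_value_Ioo (a := s) (b := s + Real.pi) (by linarith)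
        hFc.continuousOn (show F₀ s + Real.pi ∈ Ioo (F₀ s) (F₀ (s + Real.pi)) from
          ⟨by linarith, h2⟩)
      have h3 : f (P.ρ t x) = f (P.ρ s x) := by
        rw [hF1, hF1, htF]
        have e1 : F₀ s + Real.pi - F₀ 0 = F₀ s - F₀ 0 + ((1 : ℤ) : ℝ) * Real.pi := by
          push_cast; ring
        rw [e1, P.rho_add_int]
      obtain ⟨j, hj⟩ := P.rho_eq (hf h3)
      have h4 : 0 < (j : ℝ) * Real.pi := by linarith [ht.1]
      have h5 : (j : ℝ) * Real.pi < 1 * Real.pi := by linarith [ht.2]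
      have h6 : (j : ℝ) < 1 := lt_of_mul_lt_mul_right h5 hπ.le
      have h7 : (0 : ℝ) < j := by
        by_contra hc
        push Not at hc
        have := mul_nonpos_of_nonpos_of_nonneg hc hπ.le
        linarith
      have h8 : j < 1 := by exact_mod_cast h6
      have h9 : 0 < j := by exact_mod_cast h7
      omega
    have hl2 : l = 1 := by omega
    rw [hl2] at hl
    push_cast at hl
    change F₀ (s + Real.pi) - F₀ 0 = F₀ s - F₀ 0 + Real.pi
    linarith
  · change Real.sin (F₀ t - F₀ 0 - (F₀ s - F₀ 0)) = _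
    rw [sub_sub_sub_cancel_right]
    exact hκ s t

/-- the orbit map has derivative `X` -/
theorem hasMFDerivAt_orbit [IsManifold 𝓘(ℝ, E) ∞ M] (x : M) :
    HasMFDerivAt 𝓘(ℝ, ℝ) 𝓘(ℝ, E) (fun s : ℝ => P.ρ s x) 0
      (ContinuousLinearMap.toSpanSingleton ℝ (P.X x) : ℝ →L[ℝ] E) := by
  have h1 : HasMFDerivAt 𝓘(ℝ, ℝ) 𝓘(ℝ, E) (fun s : ℝ => P.ρ s x) 0
      (mfderiv 𝓘(ℝ, ℝ) 𝓘(ℝ, E) (fun s : ℝ => P.ρ s x) 0) :=
    ((P.orbit_smooth x).mdifferentiableAt (by simp)).hasMFDerivAt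
  have h2 : (mfderiv 𝓘(ℝ, ℝ) 𝓘(ℝ, E) (fun s : ℝ => P.ρ s x) 0 : ℝ →L[ℝ] E) =
      ContinuousLinearMap.toSpanSingleton ℝ (P.X x) := by
    ext
    exact (one_smul ℝ (P.X x)).symm
  have h3 : ∀ T : ℝ →L[ℝ] E, T = ContinuousLinearMap.toSpanSingleton ℝ (P.X x) →
      HasMFDerivAt 𝓘(ℝ, ℝ) 𝓘(ℝ, E) (fun s : ℝ => P.ρ s x) 0 T →
      HasMFDerivAt 𝓘(ℝ, ℝ) 𝓘(ℝ, E) (fun s : ℝ => P.ρ s x) 0
        (ContinuousLinearMap.toSpanSingleton ℝ (P.X x) : ℝ →L[ℝ] E) := by
    rintro _ rfl h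
    exact h
  exact h3 _ h2 h1

/-- A map sending circles to circles, in terms of a differentiable lift. -/
theorem D_X [IsManifold 𝓘(ℝ, E) ∞ M] {f : M → M} {x : M}
    (hf : MDifferentiableAt 𝓘(ℝ, E) 𝓘(ℝ, E) f x) {F : ℝ → ℝ} {J : ℝ}
    (hF0 : F 0 = 0) (hF : HasDerivAt F J 0) (h : ∀ s, f (P.ρ s x) = P.ρ (F s) (f x)) :
    (D f x : E →L[ℝ] E) (P.X x) = J • P.X (f x) := by
  have h1 := P.hasMFDerivAt_orbit x
  have h2 : HasMFDerivAt 𝓘(ℝ, E) 𝓘(ℝ, E) f x (D f x : E →L[ℝ] E) := hf.hasMFDerivAt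
  have h2' : ∀ y : M, y = x → HasMFDerivAt 𝓘(ℝ, E) 𝓘(ℝ, E) f y (D f x : E →L[ℝ] E) := by
    rintro y rfl
    exact h2
  have h3 := HasMFDerivAt.comp (0 : ℝ) (h2' (P.ρ 0 x) (P.zero x)) h1
  have h4 := P.hasMFDerivAt_orbit (f x)
  have h4' : ∀ t : ℝ, t = 0 → HasMFDerivAt 𝓘(ℝ, ℝ) 𝓘(ℝ, E) (fun s : ℝ => P.ρ s (f x)) t
      (ContinuousLinearMap.toSpanSingleton ℝ (P.X (f x)) : ℝ →L[ℝ] E) := by
    rintro t rfl
    exact h4
  have h5 : HasMFDerivAt 𝓘(ℝ, ℝ) 𝓘(ℝ, ℝ) F 0 (ContinuousLinearMap.toSpanSingleton ℝ J) :=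
    hF.hasFDerivAt.hasMFDerivAt
  have h6 := HasMFDerivAt.comp (0 : ℝ) (h4' (F 0) hF0) h5
  have e1 : (f ∘ fun s : ℝ => P.ρ s x) = (fun s : ℝ => P.ρ s (f x)) ∘ F := funext h
  rw [e1] at h3
  have h7 := congrArg (fun L : ℝ →L[ℝ] E => L 1) (hasMFDerivAt_unique h3 h6)
  have h8 : (D f x : E →L[ℝ] E) ((1 : ℝ) • P.X x) = ((1 : ℝ) • J) • P.X (f x) := h7
  rw [one_smul, one_smul] at h8
  exact h8

end CircleBundle

end OmSt
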