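import Pool.Agent.OmSt2.Final3

/-!
# Principal circle bundles and projective circle extensions
-/

open Set Filter Topology Manifold ContDiff Metric

namespace OmSt

/-- A principal circle bundle `p : M → B`; the circle is `ℝ / πℤ`, written additively. It acts
smoothly and freely on `M` by `ρ`, and `p` is a smooth submersion of `M` onto `B` whose fibres are
the orbits of `ρ`. -/
structure CircleBundle (E : Type*) [NormedAddCommGroup E] [NormedSpace ℝ E]
    (M : Type*) [TopologicalSpace M] [ChartedSpace E M]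
    (E' : Type*) [NormedAddCommGroup E'] [NormedSpace ℝ E']
    (B : Type*) [TopologicalSpace B] [ChartedSpace E' B] where
  /-- the action of `ℝ` -/
  ρ : ℝ → M → M
  /-- the projection -/
  p : M → B
  smooth : ContMDiff (𝓘(ℝ, ℝ).prod 𝓘(ℝ, E)) 𝓘(ℝ, E) ∞ fun q : ℝ × M => ρ q.1 q.2
  zero : ∀ x, ρ 0 x = x
  add : ∀ s t x, ρ (s + t) x = ρ s (ρ t x)
  period : ∀ s x, ρ s x = x ↔ ∃ k : ℤ, s = k * Real.pi
  p_smooth : ContMDiff 𝓘(ℝ, E) 𝓘(ℝ, E') ∞ p
  p_surj : Function.Surjective p
  p_subm : ∀ x, Function.Surjective (mfderiv 𝓘(ℝ, E) 𝓘(ℝ, E') p x)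
  fib : ∀ x y, p x = p y ↔ ∃ s, ρ s x = y
  dim : Module.finrank ℝ E = Module.finrank ℝ E' + 1

variable {E : Type*} [NormedAddCommGroup E] [NormedSpace ℝ E]
  {M : Type*} [TopologicalSpace M] [ChartedSpace E M]
  {E' : Type*} [NormedAddCommGroup E'] [NormedSpace ℝ E']
  {B : Type*} [TopologicalSpace B] [ChartedSpace E' B]

/-- `f` maps each orbit of the circle action onto an orbit, by an orientation preserving
projective map. Here the circle `ℝ / πℤ` is identified with the projective line, the point `s`
corresponding to the line spanned by `(cos s, sin s)`. So for every `x` there are a matrix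
`(a b; c d)` of positive determinant and a continuous increasing function `F`, such that
`f (ρ s x) = ρ (F s) (f x)` and `(cos F(s), sin F(s))` is proportional to
`(a cos s + b sin s, c cos s + d sin s)` for all `s`. -/
def CircleBundle.Projective (P : CircleBundle E M E' B) (f : M → M) : Prop :=
  ∀ x, ∃ (a b c d : ℝ) (F : ℝ → ℝ), 0 < a * d - b * c ∧ Continuous F ∧ StrictMono F ∧
    ∀ s, f (P.ρ s x) = P.ρ (F s) (f x) ∧
      (a * Real.cos s + b * Real.sin s) * Real.sin (F s) =
        (c * Real.cos s + d * Real.sin s) * Real.cos (F s)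

/-- The generator of the circle action: `X x` is the velocity of `s ↦ ρ s x` at `s = 0`. -/
noncomputable def CircleBundle.X (P : CircleBundle E M E' B) (x : M) : E :=
  mfderiv 𝓘(ℝ, ℝ) 𝓘(ℝ, E) (fun s : ℝ => P.ρ s x) 0 (1 : ℝ)

end OmSt
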