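import Pool.Agent.PCE.DerivBound

/-!
# Bounded right inverses of the derivative of a submersion
-/

open Set Filter Topology Manifold ContDiff Metric

set_option linter.unusedSectionVars false

namespace OmSt

variable {E : Type*} [NormedAddCommGroup E] [NormedSpace ℝ E] [FiniteDimensional ℝ E]
  {M : Type*} [MetricSpace M] [CompactSpace M] [ChartedSpace E M] [IsManifold 𝓘(ℝ, E) ∞ M]
  {E' : Type*} [NormedAddCommGroup E'] [NormedSpace ℝ E'] [FiniteDimensional ℝ E']
  {B : Type*} [MetricSpace B] [CompactSpace B] [ChartedSpace E' B] [IsManifold 𝓘(ℝ, E') ∞ B]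

/-- (F2) The derivative of a submersion has bounded right inverses. -/
theorem exists_lift_bound (p : M → B) (hp : ContMDiff 𝓘(ℝ, E) 𝓘(ℝ, E') 1 p)
    (hs : ∀ x, Function.Surjective (mfderiv 𝓘(ℝ, E) 𝓘(ℝ, E') p x))
    (γ : RMetric E M) (γ' : RMetric E' B) :
    ∃ C > 0, ∀ (x : M) (w : E'), ∃ v : E, mfderiv 𝓘(ℝ, E) 𝓘(ℝ, E') p x v = w ∧
      rnorm γ x v ≤ C * rnorm γ' (p x) w := by
  refine exists_bound_of_local (X := M) (fun C x => ∀ w : E', ∃ v : E,
      mfderiv 𝓘(ℝ, E) 𝓘(ℝ, E') p x v = w ∧ rnorm γ x v ≤ C * rnorm γ' (p x) w) ?_ ?_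
  · intro C C' x hCC h w
    obtain ⟨v, h1, h2⟩ := h w
    exact ⟨v, h1, h2.trans (mul_le_mul_of_nonneg_right hCC (rnorm_nonneg' γ' (p x) w))⟩
  · intro b
    obtain ⟨C₁, hC₁, h1⟩ := exists_comparison γ b
    obtain ⟨C₂, hC₂, h2⟩ := exists_comparison γ' (p b)
    have hbs : b ∈ (chartAt E b).source := mem_chart_source E b
    have hpbs : p b ∈ (chartAt E' (p b)).source := mem_chart_source E' (p b)
    -- a right inverse at `b`
    have hsurj : Function.Surjective (chA (E := E) (E' := E') p b b) := by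
      intro w
      obtain ⟨v, hv⟩ := hs b ((Dc' (p b) (p b) : E' →L[ℝ] E') w)
      refine ⟨(Dc b b : E →L[ℝ] E) v, ?_⟩
      rw [chA_apply p hbs]
      have hv' : (mfderiv 𝓘(ℝ, E) 𝓘(ℝ, E') p b v : E') = (Dc' (p b) (p b) : E' →L[ℝ] E') w := hv
      rw [hv']
      exact Dc_Dc' hpbs w
    obtain ⟨R₀, hR₀⟩ := LinearMap.exists_rightInverse_of_surjective
      (chA (E := E) (E' := E') p b b : E →ₗ[ℝ] E') (LinearMap.range_eq_top.2 hsurj)
    let R : E' →L[ℝ] E := LinearMap.toContinuousLinearMap R₀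
    have hR : chA (E := E) (E' := E') p b b ∘L R = ContinuousLinearMap.id ℝ E' := by
      ext w
      exact congrArg (fun L : E' →ₗ[ℝ] E' => L w) hR₀
    have h3 : ∀ᶠ y in 𝓝 b, ‖chA (E := E) (E' := E') p b y ∘L R - ContinuousLinearMap.id ℝ E'‖ <
        1 / 2 := by
      have h4 : ContinuousAt (fun y => ‖chA (E := E) (E' := E') p b y ∘L R -
          ContinuousLinearMap.id ℝ E'‖) b := by
        have h5 := chA_continuousAt p hp b
        exact ((h5.clm_comp continuousAt_const).sub continuousAt_const).norm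
      refine h4.eventually_lt continuousAt_const ?_
      simp only [hR, sub_self, norm_zero]
      norm_num
    have e1 : (chartAt E b).source ∈ 𝓝 b :=
      (chartAt E b).open_source.mem_nhds hbs
    have e2 : ∀ᶠ y in 𝓝 b, p y ∈ (chartAt E' (p b)).source :=
      hp.continuous.continuousAt.eventually
        ((chartAt E' (p b)).open_source.mem_nhds hpbs)
    have h5 := hp.continuous.continuousAt.eventually h2
    refine ⟨C₁ * ((‖R‖ + 1) * (2 * C₂)), by positivity, ?_⟩
    filter_upwards [h1, h3, e1, h5, e2] with y h6 h7 h8 h9 h10 w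
    -- solve `A(y) R u = w'`
    set w' := (Dc (p b) (p y) : E' →L[ℝ] E') w with hw'
    have hbelow : ∀ u : E', ‖u‖ ≤ 2 * ‖chA (E := E) (E' := E') p b y (R u)‖ := by
      intro u
      have h11 : ‖(chA (E := E) (E' := E') p b y ∘L R - ContinuousLinearMap.id ℝ E') u‖ ≤
          1 / 2 * ‖u‖ :=
        (ContinuousLinearMap.le_opNorm _ _).trans
          (mul_le_mul_of_nonneg_right h7.le (norm_nonneg _))
      have h12 : (chA (E := E) (E' := E') p b y ∘L R - ContinuousLinearMap.id ℝ E') u =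
          chA (E := E) (E' := E') p b y (R u) - u := rfl
      rw [h12] at h11
      have h13 : ‖u‖ ≤ ‖chA (E := E) (E' := E') p b y (R u)‖ +
          ‖chA (E := E) (E' := E') p b y (R u) - u‖ := by
        have := norm_sub_le (chA (E := E) (E' := E') p b y (R u))
          (chA (E := E) (E' := E') p b y (R u) - u)
        rwa [sub_sub_cancel] at this
      linarith
    have hinj : Function.Injective ((chA (E := E) (E' := E') p b y ∘L R : E' →L[ℝ] E') :
        E' →ₗ[ℝ] E') := by
      rw [← LinearMap.ker_eq_bot, LinearMap.ker_eq_bot']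
      intro u hu
      have h11 := hbelow u
      have h12 : chA (E := E) (E' := E') p b y (R u) = 0 := hu
      rw [h12, norm_zero, mul_zero] at h11
      exact norm_le_zero_iff.1 h11
    obtain ⟨u, hu⟩ := LinearMap.surjective_of_injective hinj w'
    have hu : chA (E := E) (E' := E') p b y (R u) = w' := hu
    have hub := hbelow u
    rw [hu] at hub
    refine ⟨(Dc' b y : E →L[ℝ] E) (R u), ?_, ?_⟩
    · have h11 := chA_apply (E := E) (E' := E') p h8 ((Dc' b y : E →L[ℝ] E) (R u))
      rw [Dc_Dc' h8, hu, hw'] at h11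
      have h12 : (Dc' (p b) (p y) : E' →L[ℝ] E') ((Dc (p b) (p y) : E' →L[ℝ] E') w) =
          (Dc' (p b) (p y) : E' →L[ℝ] E') ((Dc (p b) (p y) : E' →L[ℝ] E')
            (mfderiv 𝓘(ℝ, E) 𝓘(ℝ, E') p y ((Dc' b y : E →L[ℝ] E) (R u)))) :=
        congrArg (fun z => (Dc' (p b) (p y) : E' →L[ℝ] E') z) h11
      rw [Dc'_Dc h10] at h12
      exact (h12.trans (Dc'_Dc h10 _)).symm
    · calc rnorm γ y ((Dc' b y : E →L[ℝ] E) (R u))
          ≤ C₁ * ‖(Dc b y : E →L[ℝ] E) ((Dc' b y : E →L[ℝ] E) (R u))‖ := (h6 _).2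
        _ = C₁ * ‖R u‖ := by rw [Dc_Dc' h8]
        _ ≤ C₁ * ((‖R‖ + 1) * (2 * (C₂ * rnorm γ' (p y) w))) := by
            have h11 : ‖R u‖ ≤ ‖R‖ * ‖u‖ := R.le_opNorm u
            have h12 := (h9 w).1
            have h13 : ‖u‖ ≤ 2 * (C₂ * rnorm γ' (p y) w) := by
              refine hub.trans ?_
              exact mul_le_mul_of_nonneg_left h12 (by norm_num)
            have h14 : 0 ≤ ‖u‖ := norm_nonneg u
            have h15 : ‖R‖ * ‖u‖ ≤ (‖R‖ + 1) * (2 * (C₂ * rnorm γ' (p y) w)) := by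
              gcongr
              linarith
            exact mul_le_mul_of_nonneg_left (h11.trans h15) hC₁.le
        _ = C₁ * ((‖R‖ + 1) * (2 * C₂)) * rnorm γ' (p y) w := by ring

end OmSt
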