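import Mathlib

/-!
# Abstract linear skew products: a uniformly contracted line bundle over a hyperbolic base
-/

set_option autoImplicit false

namespace OmSt

/-- `μ < ν` and `k μ ^ (k - 1) ≤ C ν ^ k` -/
theorem exists_mul_pow_le {μ : ℝ} (h0 : 0 < μ) (h1 : μ < 1) :
    ∃ C > 0, ∀ k : ℕ, (k : ℝ) * μ ^ (k - 1) ≤ C * ((1 + μ) / 2) ^ k := by
  set ν := (1 + μ) / 2 with hν
  have hν0 : 0 < ν := by rw [hν]; linarith
  have hμν : μ < ν := by rw [hν]; linarith
  set h := ν / μ - 1 with hh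
  have hh0 : 0 < h := by
    rw [hh, sub_pos, lt_div_iff₀ h0]
    linarith
  refine ⟨(h * μ)⁻¹, by positivity, ?_⟩
  intro k
  rcases Nat.eq_zero_or_pos k with rfl | hk
  · simp
    positivity
  have h2 : 1 + (k : ℝ) * h ≤ (1 + h) ^ k := one_add_mul_le_pow (by linarith) k
  have h3 : 1 + h = ν / μ := by rw [hh]; ring
  rw [h3, div_pow, le_div_iff₀ (by positivity)] at h2
  have h4 : μ ^ k = μ ^ (k - 1) * μ := by rw [← pow_succ]; congr 1; omega
  have h5 : (k : ℝ) * h * μ ^ k ≤ ν ^ k := by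
    have : 0 ≤ μ ^ k := by positivity
    nlinarith
  rw [h4] at h5
  rw [inv_mul_eq_div, le_div_iff₀ (by positivity)]
  calc (k : ℝ) * μ ^ (k - 1) * (h * μ) = (k : ℝ) * h * (μ ^ (k - 1) * μ) := by ring
    _ ≤ ν ^ k := h5

/-- a scalar linear recursion -/
theorem lin_rec_bound (a t d : ℕ → ℝ) (ha : ∀ i, 0 ≤ a i)
    (ht : ∀ k, t (k + 1) = a k * t k + d k) (k : ℕ) :
    |t k| ≤ (∏ i ∈ Finset.range k, a i) * |t 0| +
      ∑ j ∈ Finset.range k, (∏ i ∈ Finset.Ico (j + 1) k, a i) * |d j| := by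
  induction k with
  | zero => simp
  | succ k ih =>
    rw [ht, Finset.prod_range_succ, Finset.sum_range_succ]
    have h1 : ∏ i ∈ Finset.Ico (k + 1) (k + 1), a i = 1 := by simp
    have h2 : ∀ j ∈ Finset.range k, (∏ i ∈ Finset.Ico (j + 1) (k + 1), a i) * |d j| =
        a k * ((∏ i ∈ Finset.Ico (j + 1) k, a i) * |d j|) := by
      intro j hj
      rw [Finset.mem_range] at hj
      rw [Finset.prod_Ico_succ_top (by omega)]
      ring
    rw [h1, one_mul, Finset.sum_congr rfl h2, ← Finset.mul_sum]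
    calc |a k * t k + d k| ≤ |a k * t k| + |d k| := abs_add_le _ _
      _ = a k * |t k| + |d k| := by rw [abs_mul, abs_of_nonneg (ha k)]
      _ ≤ a k * ((∏ i ∈ Finset.range k, a i) * |t 0| +
          ∑ j ∈ Finset.range k, (∏ i ∈ Finset.Ico (j + 1) k, a i) * |d j|) + |d k| := by
          have := mul_le_mul_of_nonneg_left ih (ha k)
          linarith
      _ = _ := by ring

/-- the data of a linear skew product -/
structure Skew (M B E E' : Type*) [AddCommGroup E] [Module ℝ E] [AddCommGroup E']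
    [Module ℝ E'] where
  f : M → M
  fi : M → M
  g : B → B
  gi : B → B
  p : M → B
  ffi : ∀ x, f (fi x) = x
  fif : ∀ x, fi (f x) = x
  ggi : ∀ y, g (gi y) = y
  gig : ∀ y, gi (g y) = y
  pf : ∀ x, p (f x) = g (p x)
  A : M → E →ₗ[ℝ] E
  Ai : M → E →ₗ[ℝ] E
  A' : B → E' →ₗ[ℝ] E'
  Ai' : B → E' →ₗ[ℝ] E'
  AiA : ∀ x v, Ai (f x) (A x v) = v
  AAi : ∀ x v, A x (Ai (f x) v) = v
  AiA' : ∀ y w, Ai' (g y) (A' y w) = w
  AAi' : ∀ y w, A' y (Ai' (g y) w) = w
  π : M → E →ₗ[ℝ] E'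
  πA : ∀ x v, π (f x) (A x v) = A' (p x) (π x v)
  X : M → E
  J : M → ℝ
  J0 : ∀ x, 0 < J x
  AX : ∀ x, A x (X x) = J x • X (f x)
  ker : ∀ x v, π x v = 0 ↔ ∃ c : ℝ, v = c • X x
  N : M → E → ℝ
  N' : B → E' → ℝ
  N_add : ∀ x v w, N x (v + w) ≤ N x v + N x w
  N_smul : ∀ x (c : ℝ) v, N x (c • v) = |c| * N x v
  N_nonneg : ∀ x v, 0 ≤ N x v
  N'_nonneg : ∀ y w, 0 ≤ N' y w
  C : ℝ
  C1 : 1 ≤ C
  Nπ : ∀ x v, N' (p x) (π x v) ≤ C * N x v
  NA : ∀ x v, N (f x) (A x v) ≤ C * N x v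
  lift : M → E' → E
  πlift : ∀ x w, π x (lift x w) = w
  Nlift : ∀ x w, N x (lift x w) ≤ C * N' (p x) w
  NX : ∀ x, N x (X x) ≤ C
  NX' : ∀ x, 1 ≤ C * N x (X x)

namespace Skew

variable {M B E E' : Type*} [AddCommGroup E] [Module ℝ E] [AddCommGroup E'] [Module ℝ E']
  (s : Skew M B E E')

theorem N_neg (x : M) (v : E) : s.N x (-v) = s.N x v := by
  have := s.N_smul x (-1) v
  simpa using this

theorem N_sub (x : M) (v w : E) : s.N x (v - w) ≤ s.N x v + s.N x w := by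
  have := s.N_add x v (-w)
  rwa [s.N_neg, ← sub_eq_add_neg] at this

theorem pfi (x : M) : s.p (s.fi x) = s.gi (s.p x) := by
  have := s.pf (s.fi x)
  rw [s.ffi] at this
  rw [this, s.gig]

open Classical in
/-- the coefficient of a vertical vector -/
noncomputable def coef (x : M) (v : E) : ℝ :=
  if h : s.π x v = 0 then ((s.ker x v).1 h).choose else 0

theorem coef_spec {x : M} {v : E} (h : s.π x v = 0) : v = s.coef x v • s.X x := by
  unfold coef
  rw [dif_pos h]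
  exact ((s.ker x v).1 h).choose_spec

theorem abs_le_of_smul {x : M} {c : ℝ} : |c| ≤ s.C * s.N x (c • s.X x) := by
  rw [s.N_smul]
  have h1 := s.NX' x
  have h2 := abs_nonneg c
  nlinarith

theorem coef_le {x : M} {v : E} (h : s.π x v = 0) : |s.coef x v| ≤ s.C * s.N x v := by
  have h1 := s.abs_le_of_smul (x := x) (c := s.coef x v)
  rwa [← s.coef_spec h] at h1

/-- the defect of the lift -/
noncomputable def dl (x : M) (w : E') : ℝ :=
  s.coef x (s.A (s.fi x) (s.lift (s.fi x) (s.Ai' (s.p x) w)) - s.lift x w)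

theorem dl_vert (x : M) (w : E') :
    s.π x (s.A (s.fi x) (s.lift (s.fi x) (s.Ai' (s.p x) w)) - s.lift x w) = 0 := by
  have h1 := s.πA (s.fi x) (s.lift (s.fi x) (s.Ai' (s.p x) w))
  rw [s.ffi, s.πlift, s.pfi] at h1
  have h2 := s.AAi' (s.gi (s.p x)) w
  rw [s.ggi] at h2
  rw [map_sub, h1, h2, s.πlift, sub_self]

theorem dl_spec (x : M) (w : E') :
    s.A (s.fi x) (s.lift (s.fi x) (s.Ai' (s.p x) w)) = s.lift x w + s.dl x w • s.X x := by
  have h := s.coef_spec (s.dl_vert x w)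
  rw [sub_eq_iff_eq_add'] at h
  exact h

theorem dl_le (x : M) (w : E') : |s.dl x w| ≤
    s.C ^ 3 * s.N' (s.gi (s.p x)) (s.Ai' (s.p x) w) + s.C ^ 2 * s.N' (s.p x) w := by
  have hC := s.C1
  have h1 := s.coef_le (s.dl_vert x w)
  have h2 := s.N_sub x (s.A (s.fi x) (s.lift (s.fi x) (s.Ai' (s.p x) w))) (s.lift x w)
  have h3 := s.NA (s.fi x) (s.lift (s.fi x) (s.Ai' (s.p x) w))
  rw [s.ffi] at h3
  have h4 := s.Nlift (s.fi x) (s.Ai' (s.p x) w)
  rw [s.pfi] at h4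
  have h5 := s.Nlift x w
  calc |s.dl x w| ≤ s.C * s.N x (s.A (s.fi x) (s.lift (s.fi x) (s.Ai' (s.p x) w)) -
        s.lift x w) := h1
    _ ≤ s.C * (s.C * (s.C * s.N' (s.gi (s.p x)) (s.Ai' (s.p x) w)) +
        s.C * s.N' (s.p x) w) := by
        apply mul_le_mul_of_nonneg_left _ (by linarith)
        refine h2.trans (add_le_add (h3.trans ?_) h5)
        exact mul_le_mul_of_nonneg_left h4 (by linarith)
    _ = _ := by ring

/-- forward iterates of the cocycle -/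
noncomputable def An : ℕ → M → E →ₗ[ℝ] E
  | 0, _ => LinearMap.id
  | k + 1, x => (s.A (s.f^[k] x)).comp (An k x)

noncomputable def Am : ℕ → M → E →ₗ[ℝ] E
  | 0, _ => LinearMap.id
  | k + 1, x => (Am k (s.fi x)).comp (s.Ai x)

noncomputable def Bn : ℕ → B → E' →ₗ[ℝ] E'
  | 0, _ => LinearMap.id
  | k + 1, y => (s.A' (s.g^[k] y)).comp (Bn k y)

noncomputable def Bm : ℕ → B → E' →ₗ[ℝ] E'
  | 0, _ => LinearMap.id
  | k + 1, y => (Bm k (s.gi y)).comp (s.Ai' y)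

/-- products of the `J` -/
def Jn (k : ℕ) (x : M) : ℝ := ∏ i ∈ Finset.range k, s.J (s.f^[i] x)

theorem Jn_pos (k : ℕ) (x : M) : 0 < s.Jn k x := Finset.prod_pos fun _ _ => s.J0 _

theorem p_iter (k : ℕ) (x : M) : s.p (s.f^[k] x) = s.g^[k] (s.p x) := by
  induction k with
  | zero => rfl
  | succ k ih => rw [Function.iterate_succ_apply', Function.iterate_succ_apply', s.pf, ih]

theorem p_iteri (k : ℕ) (x : M) : s.p (s.fi^[k] x) = s.gi^[k] (s.p x) := by
  induction k with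
  | zero => rfl
  | succ k ih => rw [Function.iterate_succ_apply', Function.iterate_succ_apply', s.pfi, ih]

/-- the base is hyperbolic along the invariant set `K` -/
structure Hyp (K : Set M) (P : B → E' →ₗ[ℝ] E') (c μ : ℝ) : Prop where
  hc : 0 < c
  hμ0 : 0 < μ
  hμ1 : μ < 1
  inv : ∀ x ∈ K, s.f x ∈ K
  invi : ∀ x ∈ K, s.fi x ∈ K
  idem : ∀ x ∈ K, ∀ w, P (s.p x) (P (s.p x) w) = P (s.p x) w
  comm : ∀ x ∈ K, ∀ w, P (s.g (s.p x)) (s.A' (s.p x) w) = s.A' (s.p x) (P (s.p x) w)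
  fwd : ∀ x ∈ K, ∀ w, P (s.p x) w = w → ∀ m,
    s.N' (s.g^[m] (s.p x)) (s.Bn m (s.p x) w) ≤ c * μ ^ m * s.N' (s.p x) w
  bwd : ∀ x ∈ K, ∀ w, P (s.p x) w = 0 → ∀ m,
    s.N' (s.gi^[m] (s.p x)) (s.Bm m (s.p x) w) ≤ c * μ ^ m * s.N' (s.p x) w
  vert : ∀ x ∈ K, ∀ m, s.Jn m x ≤ c * μ ^ m

variable {s} {K : Set M} {P : B → E' →ₗ[ℝ] E'} {c μ : ℝ}

theorem Hyp.iter (h : s.Hyp K P c μ) (k : ℕ) {x : M} (hx : x ∈ K) : s.f^[k] x ∈ K := by
  induction k with
  | zero => exact hx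
  | succ k ih => rw [Function.iterate_succ_apply']; exact h.inv _ ih

theorem Hyp.iteri (h : s.Hyp K P c μ) (k : ℕ) {x : M} (hx : x ∈ K) : s.fi^[k] x ∈ K := by
  induction k with
  | zero => exact hx
  | succ k ih => rw [Function.iterate_succ_apply']; exact h.invi _ ih

/-- invariance of the unstable directions of the base under the inverse -/
theorem Hyp.unst_inv (h : s.Hyp K P c μ) {x : M} (hx : x ∈ K) {w : E'} (hw : P (s.p x) w = 0) :
    P (s.p (s.fi x)) (s.Ai' (s.p x) w) = 0 := by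
  have h1 := h.comm (s.fi x) (h.invi x hx) (s.Ai' (s.p x) w)
  rw [s.pfi, s.ggi] at h1
  have h2 := s.AAi' (s.gi (s.p x)) w
  rw [s.ggi] at h2
  rw [h2, hw] at h1
  have h3 := s.AiA' (s.gi (s.p x)) (P (s.gi (s.p x)) (s.Ai' (s.p x) w))
  rw [← h1, map_zero] at h3
  rw [s.pfi]
  exact h3.symm

/-- the constant of the defect -/
noncomputable def D0 (s : Skew M B E E') (c : ℝ) : ℝ := 2 * s.C ^ 3 * c

theorem C_pos (s : Skew M B E E') : 0 < s.C := lt_of_lt_of_le one_pos s.C1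

/-- unstable defect -/
theorem Hyp.dl_unst (h : s.Hyp K P c μ) (hc1 : 1 ≤ c) {x : M} (hx : x ∈ K) {w : E'}
    (hw : P (s.p x) w = 0) : |s.dl x w| ≤ s.D0 c * s.N' (s.p x) w := by
  have h1 := s.dl_le x w
  have h2 := h.bwd x hx w hw 1
  have h3 : s.N' (s.gi (s.p x)) (s.Ai' (s.p x) w) ≤ c * μ * s.N' (s.p x) w := by
    simpa [Bm] using h2
  have hN := s.N'_nonneg (s.p x) w
  have hμ := h.hμ1
  have hμ0 := h.hμ0
  have hC := s.C1
  have hC0 := s.C_pos
  have h4 : s.N' (s.gi (s.p x)) (s.Ai' (s.p x) w) ≤ c * s.N' (s.p x) w := by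
    refine h3.trans ?_
    have : c * μ * s.N' (s.p x) w = μ * (c * s.N' (s.p x) w) := by ring
    rw [this]
    have h5 : 0 ≤ c * s.N' (s.p x) w := mul_nonneg (by linarith) hN
    nlinarith
  have h6 : s.C ^ 2 * s.N' (s.p x) w ≤ s.C ^ 3 * (c * s.N' (s.p x) w) := by
    have h7 : s.C ^ 2 ≤ s.C ^ 3 := pow_le_pow_right₀ hC (by norm_num)
    have h8 : s.N' (s.p x) w ≤ c * s.N' (s.p x) w := by nlinarith
    exact mul_le_mul h7 h8 hN (by positivity)
  calc |s.dl x w| ≤ s.C ^ 3 * s.N' (s.gi (s.p x)) (s.Ai' (s.p x) w) +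
        s.C ^ 2 * s.N' (s.p x) w := h1
    _ ≤ s.C ^ 3 * (c * s.N' (s.p x) w) + s.C ^ 3 * (c * s.N' (s.p x) w) := by
        refine add_le_add (mul_le_mul_of_nonneg_left h4 (by positivity)) h6
    _ = s.D0 c * s.N' (s.p x) w := by unfold D0; ring

/-- the terms of the series -/
noncomputable def tm (s : Skew M B E E') (x : M) (w : E') (m : ℕ) : ℝ :=
  s.dl (s.fi^[m] x) (s.Bm m (s.p x) w) * s.Jn m (s.fi^[m] x)

theorem unst_iter (h : s.Hyp K P c μ) {x : M} (hx : x ∈ K) {w : E'} (hw : P (s.p x) w = 0)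
    (m : ℕ) : P (s.p (s.fi^[m] x)) (s.Bm m (s.p x) w) = 0 := by
  induction m generalizing x w with
  | zero => exact hw
  | succ m ih =>
    have h1 := ih (h.invi x hx) (h.unst_inv hx hw)
    rw [Function.iterate_succ_apply]
    rw [s.pfi] at h1
    exact h1

theorem tm_le (h : s.Hyp K P c μ) (hc1 : 1 ≤ c) {x : M} (hx : x ∈ K) {w : E'}
    (hw : P (s.p x) w = 0) (m : ℕ) :
    |s.tm x w m| ≤ (s.D0 c * c * c * s.N' (s.p x) w) * μ ^ m := by
  unfold tm
  have hμ0 := h.hμ0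
  have hμ1 := h.hμ1
  have hN := s.N'_nonneg (s.p x) w
  have hC0 := s.C_pos
  have hD : 0 ≤ s.D0 c := by unfold D0; have := s.C1; positivity
  rw [abs_mul, abs_of_pos (s.Jn_pos _ _)]
  have h1 := h.dl_unst hc1 (h.iteri m hx) (unst_iter h hx hw m)
  rw [s.p_iteri] at h1
  have h2 := h.bwd x hx w hw m
  have h3 := h.vert _ (h.iteri m hx) m
  have hμm : μ ^ m ≤ 1 := pow_le_one₀ hμ0.le hμ1.le
  calc |s.dl (s.fi^[m] x) (s.Bm m (s.p x) w)| * s.Jn m (s.fi^[m] x)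
      ≤ (s.D0 c * (c * μ ^ m * s.N' (s.p x) w)) * (c * μ ^ m) := by
        apply mul_le_mul (h1.trans (mul_le_mul_of_nonneg_left h2 hD)) h3 (s.Jn_pos _ _).le
        positivity
    _ = ((s.D0 c * c * c * s.N' (s.p x) w) * μ ^ m) * μ ^ m := by ring
    _ ≤ ((s.D0 c * c * c * s.N' (s.p x) w) * μ ^ m) * 1 := by
        apply mul_le_mul_of_nonneg_left hμm
        positivity
    _ = _ := mul_one _

theorem tm_summable (h : s.Hyp K P c μ) (hc1 : 1 ≤ c) {x : M} (hx : x ∈ K) {w : E'}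
    (hw : P (s.p x) w = 0) : Summable (s.tm x w) := by
  refine Summable.of_norm_bounded (g := fun m => (s.D0 c * c * c * s.N' (s.p x) w) * μ ^ m) ?_
    (fun m => tm_le h hc1 hx hw m)
  exact (summable_geometric_of_lt_one h.hμ0.le h.hμ1).mul_left _

/-- the correction -/
noncomputable def tau (s : Skew M B E E') (x : M) (w : E') : ℝ := ∑' m, s.tm x w m

theorem tau_le (h : s.Hyp K P c μ) (hc1 : 1 ≤ c) {x : M} (hx : x ∈ K) {w : E'}
    (hw : P (s.p x) w = 0) :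
    |s.tau x w| ≤ (s.D0 c * c * c * (1 - μ)⁻¹) * s.N' (s.p x) w := by
  have h1 : ‖∑' m, s.tm x w m‖ ≤ ∑' m, ((s.D0 c * c * c * s.N' (s.p x) w) * μ ^ m) :=
    tsum_of_norm_bounded ((summable_geometric_of_lt_one h.hμ0.le h.hμ1).mul_left _).hasSum
      (fun m => tm_le h hc1 hx hw m)
  rw [tsum_mul_left, tsum_geometric_of_lt_one h.hμ0.le h.hμ1] at h1
  unfold tau
  rw [← Real.norm_eq_abs]
  refine h1.trans (le_of_eq ?_)
  ring

theorem tau_rec (h : s.Hyp K P c μ) (hc1 : 1 ≤ c) {x : M} (hx : x ∈ K) {w : E'}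
    (hw : P (s.p x) w = 0) :
    s.tau x w = s.dl x w + s.J (s.fi x) * s.tau (s.fi x) (s.Ai' (s.p x) w) := by
  have h1 := (tm_summable h hc1 hx hw).tsum_eq_zero_add
  unfold tau
  rw [h1]
  congr 1
  · simp [tm, Bm, Jn]
  · rw [← tsum_mul_left]
    refine tsum_congr fun m => ?_
    unfold tm
    have e1 : s.fi^[m + 1] x = s.fi^[m] (s.fi x) := Function.iterate_succ_apply _ _ _
    have e2 : s.Bm (m + 1) (s.p x) w = s.Bm m (s.p (s.fi x)) (s.Ai' (s.p x) w) := by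
      rw [s.pfi]; rfl
    have e3 : s.f^[m] (s.fi^[m] (s.fi x)) = s.fi x :=
      (Function.LeftInverse.iterate (s.ffi) m) (s.fi x)
    have e4 : s.Jn (m + 1) (s.fi^[m] (s.fi x)) = s.Jn m (s.fi^[m] (s.fi x)) * s.J (s.fi x) := by
      unfold Jn
      rw [Finset.prod_range_succ, e3]
    rw [e1, e2, e4]
    ring

/-- the unstable lift -/
noncomputable def L (s : Skew M B E E') (x : M) (w : E') : E := s.lift x w + s.tau x w • s.X x

theorem π_L (s : Skew M B E E') (x : M) (w : E') : s.π x (s.L x w) = w := by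
  unfold L
  have h1 : s.π x (s.tau x w • s.X x) = 0 := (s.ker x _).2 ⟨_, rfl⟩
  rw [map_add, h1, s.πlift, add_zero]

theorem L_step (h : s.Hyp K P c μ) (hc1 : 1 ≤ c) {x : M} (hx : x ∈ K) {w : E'}
    (hw : P (s.p x) w = 0) : s.Ai x (s.L x w) = s.L (s.fi x) (s.Ai' (s.p x) w) := by
  have h1 : s.A (s.fi x) (s.L (s.fi x) (s.Ai' (s.p x) w)) = s.L x w := by
    unfold L
    rw [map_add, map_smul, s.AX, s.dl_spec, s.ffi, tau_rec h hc1 hx hw, smul_smul, add_assoc,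
      ← add_smul]
    congr 2
    ring
  rw [← h1]
  have h2 := s.AiA (s.fi x) (s.L (s.fi x) (s.Ai' (s.p x) w))
  rw [s.ffi] at h2
  exact h2

theorem L_iter (h : s.Hyp K P c μ) (hc1 : 1 ≤ c) (m : ℕ) {x : M} (hx : x ∈ K) {w : E'}
    (hw : P (s.p x) w = 0) : s.Am m x (s.L x w) = s.L (s.fi^[m] x) (s.Bm m (s.p x) w) := by
  induction m generalizing x w with
  | zero => rfl
  | succ m ih =>
    have h1 := ih (h.invi x hx) (h.unst_inv hx hw)
    change s.Am m (s.fi x) (s.Ai x (s.L x w)) = _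
    rw [L_step h hc1 hx hw, h1, s.pfi]
    rfl

/-- the constant of the unstable lift -/
noncomputable def CL (s : Skew M B E E') (c μ : ℝ) : ℝ :=
  s.C + s.D0 c * c * c * (1 - μ)⁻¹ * s.C

theorem N_L (h : s.Hyp K P c μ) (hc1 : 1 ≤ c) {x : M} (hx : x ∈ K) {w : E'}
    (hw : P (s.p x) w = 0) : s.N x (s.L x w) ≤ s.CL c μ * s.N' (s.p x) w := by
  have h1 := s.N_add x (s.lift x w) (s.tau x w • s.X x)
  rw [s.N_smul] at h1
  have h2 := s.Nlift x w
  have h3 := tau_le h hc1 hx hw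
  have h4 := s.NX x
  have h5 : |s.tau x w| * s.N x (s.X x) ≤
      (s.D0 c * c * c * (1 - μ)⁻¹ * s.N' (s.p x) w) * s.C :=
    mul_le_mul h3 h4 (s.N_nonneg _ _) ((abs_nonneg _).trans h3)
  unfold L CL
  calc s.N x (s.lift x w + s.tau x w • s.X x) ≤ s.N x (s.lift x w) +
        |s.tau x w| * s.N x (s.X x) := h1
    _ ≤ s.C * s.N' (s.p x) w + (s.D0 c * c * c * (1 - μ)⁻¹ * s.N' (s.p x) w) * s.C :=
        add_le_add h2 h5
    _ = _ := by ring

/-- backward iterates of the vertical direction -/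
theorem Am_X (s : Skew M B E E') (m : ℕ) (x : M) :
    s.Am m x (s.X x) = (s.Jn m (s.fi^[m] x))⁻¹ • s.X (s.fi^[m] x) := by
  induction m generalizing x with
  | zero => simp [Am, Jn]
  | succ m ih =>
    have h1 : s.Ai x (s.X x) = (s.J (s.fi x))⁻¹ • s.X (s.fi x) := by
      have h2 := s.AiA (s.fi x) (s.X (s.fi x))
      rw [s.AX, s.ffi, map_smul] at h2
      rw [← h2, smul_smul, inv_mul_cancel₀ (s.J0 _).ne', one_smul]
    change s.Am m (s.fi x) (s.Ai x (s.X x)) = _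
    have e3 : s.f^[m] (s.fi^[m] (s.fi x)) = s.fi x :=
      (Function.LeftInverse.iterate (s.ffi) m) (s.fi x)
    have e4 : s.Jn (m + 1) (s.fi^[m] (s.fi x)) = s.Jn m (s.fi^[m] (s.fi x)) * s.J (s.fi x) := by
      unfold Jn
      rw [Finset.prod_range_succ, e3]
    rw [h1, map_smul, ih, smul_smul, Function.iterate_succ_apply, e4, mul_inv, mul_comm]

/-- stable space -/
def St (s : Skew M B E E') (P : B → E' →ₗ[ℝ] E') (x : M) : Submodule ℝ E where
  carrier := {v | P (s.p x) (s.π x v) = s.π x v}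
  add_mem' := by
    intro a b ha hb
    simp only [Set.mem_ofPred_eq] at ha hb ⊢
    rw [map_add, map_add, ha, hb]
  zero_mem' := by simp
  smul_mem' := by
    intro c v hv
    simp only [Set.mem_ofPred_eq] at hv ⊢
    rw [map_smul, map_smul, hv]

/-- unstable space -/
def Un (s : Skew M B E E') (P : B → E' →ₗ[ℝ] E') (x : M) : Submodule ℝ E where
  carrier := {v | P (s.p x) (s.π x v) = 0 ∧ ∃ R : ℝ, ∀ m, s.N (s.fi^[m] x) (s.Am m x v) ≤ R}
  add_mem' := by
    rintro a b ⟨ha, R, hR⟩ ⟨hb, R', hR'⟩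
    refine ⟨by rw [map_add, map_add, ha, hb, add_zero], R + R', fun m => ?_⟩
    rw [map_add]
    exact (s.N_add _ _ _).trans (add_le_add (hR m) (hR' m))
  zero_mem' := by
    refine ⟨by simp, 0, fun m => ?_⟩
    have := s.N_smul (s.fi^[m] x) 0 0
    rw [map_zero]
    simp at this
    exact this.le
  smul_mem' := by
    rintro c v ⟨hv, R, hR⟩
    refine ⟨by rw [map_smul, map_smul, hv, smul_zero], |c| * R, fun m => ?_⟩
    rw [map_smul, s.N_smul]
    exact mul_le_mul_of_nonneg_left (hR m) (abs_nonneg _)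

theorem mem_St {P : B → E' →ₗ[ℝ] E'} {x : M} {v : E} :
    v ∈ s.St P x ↔ P (s.p x) (s.π x v) = s.π x v := Iff.rfl

theorem mem_Un {P : B → E' →ₗ[ℝ] E'} {x : M} {v : E} : v ∈ s.Un P x ↔
    P (s.p x) (s.π x v) = 0 ∧ ∃ R : ℝ, ∀ m, s.N (s.fi^[m] x) (s.Am m x v) ≤ R := Iff.rfl

/-- bounded backward orbits of vertical vectors -/
theorem vert_zero (h : s.Hyp K P c μ) {x : M} (hx : x ∈ K) {v : E} (hv : s.π x v = 0) {R : ℝ}
    (hR : ∀ m, s.N (s.fi^[m] x) (s.Am m x v) ≤ R) : v = 0 := by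
  obtain ⟨a, rfl⟩ := (s.ker x v).1 hv
  have h1 : ∀ m : ℕ, |a| ≤ (s.C * R * c) * μ ^ m := by
    intro m
    have h2 := hR m
    rw [map_smul, Am_X, smul_smul] at h2
    have h3 := s.abs_le_of_smul (x := s.fi^[m] x) (c := a * (s.Jn m (s.fi^[m] x))⁻¹)
    have hJ := s.Jn_pos m (s.fi^[m] x)
    have h4 := h.vert _ (h.iteri m hx) m
    rw [abs_mul, abs_of_pos (inv_pos.2 hJ)] at h3
    have h5 : |a| * (s.Jn m (s.fi^[m] x))⁻¹ ≤ s.C * R :=
      h3.trans (mul_le_mul_of_nonneg_left h2 s.C_pos.le)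
    rw [← div_eq_mul_inv, div_le_iff₀ hJ] at h5
    have hCR : 0 ≤ s.C * R := by
      have : 0 ≤ R := (s.N_nonneg _ _).trans (hR 0)
      exact mul_nonneg s.C_pos.le this
    calc |a| ≤ s.C * R * s.Jn m (s.fi^[m] x) := h5
      _ ≤ s.C * R * (c * μ ^ m) := mul_le_mul_of_nonneg_left h4 hCR
      _ = _ := by ring
  have h2 : Filter.Tendsto (fun m : ℕ => (s.C * R * c) * μ ^ m) Filter.atTop (nhds 0) := by
    have := (tendsto_pow_atTop_nhds_zero_of_lt_one h.hμ0.le h.hμ1).const_mul (s.C * R * c)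
    rwa [mul_zero] at this
  have h3 : |a| ≤ 0 := ge_of_tendsto' h2 h1
  have h4 : a = 0 := abs_eq_zero.1 (le_antisymm h3 (abs_nonneg _))
  rw [h4, zero_smul]

theorem L_mem (h : s.Hyp K P c μ) (hc1 : 1 ≤ c) {x : M} (hx : x ∈ K) {w : E'}
    (hw : P (s.p x) w = 0) : s.L x w ∈ s.Un P x := by
  refine ⟨by rw [π_L, hw], s.CL c μ * (c * s.N' (s.p x) w), fun m => ?_⟩
  rw [L_iter h hc1 m hx hw]
  refine (N_L h hc1 (h.iteri m hx) (unst_iter h hx hw m)).trans ?_
  have hCL : 0 ≤ s.CL c μ := by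
    unfold CL D0
    have := s.C_pos
    have := h.hμ1
    have h1 : 0 < 1 - μ := by linarith
    positivity
  apply mul_le_mul_of_nonneg_left _ hCL
  rw [s.p_iteri]
  refine (h.bwd x hx w hw m).trans ?_
  have h1 : μ ^ m ≤ 1 := pow_le_one₀ h.hμ0.le h.hμ1.le
  have h2 := s.N'_nonneg (s.p x) w
  have h3 : c * μ ^ m ≤ c * 1 := mul_le_mul_of_nonneg_left h1 (by linarith)
  calc c * μ ^ m * s.N' (s.p x) w ≤ c * 1 * s.N' (s.p x) w := mul_le_mul_of_nonneg_right h3 h2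
    _ = _ := by ring

/-- unstable vectors are unstable lifts -/
theorem eq_L (h : s.Hyp K P c μ) (hc1 : 1 ≤ c) {x : M} (hx : x ∈ K) {v : E}
    (hv : v ∈ s.Un P x) : v = s.L x (s.π x v) := by
  have h1 := sub_mem hv (L_mem h hc1 hx hv.1)
  obtain ⟨-, R, hR⟩ := h1
  have h2 : s.π x (v - s.L x (s.π x v)) = 0 := by rw [map_sub, π_L, sub_self]
  exact sub_eq_zero.1 (vert_zero h hx h2 hR)

theorem isCompl (h : s.Hyp K P c μ) (hc1 : 1 ≤ c) {x : M} (hx : x ∈ K) :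
    IsCompl (s.St P x) (s.Un P x) := by
  constructor
  · rw [Submodule.disjoint_def]
    intro v hv1 hv2
    have h1 : s.π x v = 0 := by
      have e1 : P (s.p x) (s.π x v) = s.π x v := hv1
      rw [← e1, hv2.1]
    obtain ⟨-, R, hR⟩ := hv2
    exact vert_zero h hx h1 hR
  · rw [codisjoint_iff, eq_top_iff]
    intro v _
    set w := s.π x v - P (s.p x) (s.π x v) with hw
    have hw0 : P (s.p x) w = 0 := by
      rw [hw, map_sub, h.idem x hx, sub_self]
    rw [Submodule.mem_sup]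
    refine ⟨v - s.L x w, ?_, s.L x w, L_mem h hc1 hx hw0, by abel⟩
    rw [mem_St, map_sub, π_L, hw, sub_sub_cancel, h.idem x hx]

theorem St_inv (h : s.Hyp K P c μ) {x : M} (hx : x ∈ K) {v : E} (hv : v ∈ s.St P x) :
    s.A x v ∈ s.St P (s.f x) := by
  rw [mem_St] at hv ⊢
  rw [s.πA, s.pf, h.comm x hx, hv]

theorem Un_inv (h : s.Hyp K P c μ) {x : M} (hx : x ∈ K) {v : E} (hv : v ∈ s.Un P x) :
    s.A x v ∈ s.Un P (s.f x) := by
  obtain ⟨h1, R, hR⟩ := hv
  refine ⟨by rw [s.πA, s.pf, h.comm x hx, h1, map_zero], max R (s.N (s.f x) (s.A x v)), ?_⟩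
  intro m
  rcases m with _ | m
  · exact le_max_right _ _
  · refine le_trans ?_ (le_max_left _ _)
    have e1 : s.Am (m + 1) (s.f x) (s.A x v) = s.Am m x v := by
      change s.Am m (s.fi (s.f x)) (s.Ai (s.f x) (s.A x v)) = _
      rw [s.fif, s.AiA]
    rw [e1, Function.iterate_succ_apply, s.fif]
    exact hR m

/-- the rate in the unstable spaces -/
theorem Un_rate (h : s.Hyp K P c μ) (hc1 : 1 ≤ c) {x : M} (hx : x ∈ K) {v : E}
    (hv : v ∈ s.Un P x) (m : ℕ) :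
    s.N (s.fi^[m] x) (s.Am m x v) ≤ (s.CL c μ * c * s.C) * μ ^ m * s.N x v := by
  have hCL : 0 ≤ s.CL c μ := by
    unfold CL D0
    have := s.C_pos
    have := h.hμ1
    have h1 : 0 < 1 - μ := by linarith
    positivity
  have hμ0 := h.hμ0
  have hw := hv.1
  rw [eq_L h hc1 hx hv, L_iter h hc1 m hx hw, ← eq_L h hc1 hx hv]
  have h1 := N_L h hc1 (h.iteri m hx) (unst_iter h hx hw m)
  rw [s.p_iteri] at h1
  have h2 := h.bwd x hx _ hw m
  have h3 := s.Nπ x v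
  calc s.N (s.fi^[m] x) (s.L (s.fi^[m] x) (s.Bm m (s.p x) (s.π x v)))
      ≤ s.CL c μ * s.N' (s.gi^[m] (s.p x)) (s.Bm m (s.p x) (s.π x v)) := h1
    _ ≤ s.CL c μ * (c * μ ^ m * (s.C * s.N x v)) := by
        apply mul_le_mul_of_nonneg_left _ hCL
        exact h2.trans (mul_le_mul_of_nonneg_left h3 (by positivity))
    _ = _ := by ring

/-- the rate in the stable spaces -/
theorem St_rate (h : s.Hyp K P c μ) (hc1 : 1 ≤ c) {Q : ℝ} (hQ0 : 0 < Q)
    (hQ : ∀ k : ℕ, (k : ℝ) * μ ^ (k - 1) ≤ Q * ((1 + μ) / 2) ^ k) {x : M} (hx : x ∈ K) {v : E}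
    (hv : v ∈ s.St P x) (m : ℕ) :
    s.N (s.f^[m] x) (s.An m x v) ≤
      (s.C * c * s.C + (c * (s.C * (1 + s.C * s.C)) + Q * (c * (s.D0 c * s.C))) * s.C) *
        ((1 + μ) / 2) ^ m * s.N x v := by
  have hμ0 := h.hμ0
  have hμ1 := h.hμ1
  have hC := s.C_pos
  have hC1 := s.C1
  have hD : 0 ≤ s.D0 c := by unfold D0; positivity
  set w := s.π x v with hw
  have hw1 : P (s.p x) w = w := hv
  have hNw : s.N' (s.p x) w ≤ s.C * s.N x v := s.Nπ x v
  have hN0 := s.N_nonneg x v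
  have hN'0 := s.N'_nonneg (s.p x) w
  -- the coefficients
  have hvert : ∀ k, s.π (s.f^[k] x) (s.An k x v - s.lift (s.f^[k] x) (s.Bn k (s.p x) w)) = 0 := by
    intro k
    have h1 : s.π (s.f^[k] x) (s.An k x v) = s.Bn k (s.p x) w := by
      induction k with
      | zero => rfl
      | succ k ih =>
        rw [Function.iterate_succ_apply']
        change s.π (s.f (s.f^[k] x)) (s.A (s.f^[k] x) (s.An k x v)) =
          s.A' (s.g^[k] (s.p x)) (s.Bn k (s.p x) w)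
        rw [s.πA, ih, s.p_iter]
    rw [map_sub, h1, s.πlift, sub_self]
  set t : ℕ → ℝ := fun k => s.coef (s.f^[k] x)
    (s.An k x v - s.lift (s.f^[k] x) (s.Bn k (s.p x) w)) with ht
  have hAn : ∀ k, s.An k x v = s.lift (s.f^[k] x) (s.Bn k (s.p x) w) + t k • s.X (s.f^[k] x) := by
    intro k
    have h1 := s.coef_spec (hvert k)
    rw [sub_eq_iff_eq_add'] at h1
    exact h1
  set d : ℕ → ℝ := fun k => s.dl (s.f^[k + 1] x) (s.Bn (k + 1) (s.p x) w) with hd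
  have hXne : ∀ y, s.X y ≠ 0 := by
    intro y hy
    have h1 := s.NX' y
    have h2 := s.N_smul y 0 0
    rw [hy] at h1
    simp at h2
    rw [h2] at h1
    linarith
  have hrec : ∀ k, t (k + 1) = s.J (s.f^[k] x) * t k + d k := by
    intro k
    have h1 := hAn (k + 1)
    have h2 : s.An (k + 1) x v = s.A (s.f^[k] x) (s.An k x v) := rfl
    have h3 := s.dl_spec (s.f^[k + 1] x) (s.Bn (k + 1) (s.p x) w)
    have e1 : s.fi (s.f^[k + 1] x) = s.f^[k] x := by
      rw [Function.iterate_succ_apply', s.fif]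
    have e2 : s.Ai' (s.p (s.f^[k + 1] x)) (s.Bn (k + 1) (s.p x) w) = s.Bn k (s.p x) w := by
      rw [s.p_iter, Function.iterate_succ_apply']
      exact s.AiA' _ _
    have e3 : s.f (s.f^[k] x) = s.f^[k + 1] x := (Function.iterate_succ_apply' _ _ _).symm
    rw [e1, e2] at h3
    rw [h2, hAn k, map_add, h3, map_smul, s.AX, e3] at h1
    have h4 : (s.J (s.f^[k] x) * t k + d k - t (k + 1)) • s.X (s.f^[k + 1] x) = 0 := by
      have h5 : (s.J (s.f^[k] x) * t k + d k - t (k + 1)) • s.X (s.f^[k + 1] x) =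
          (s.lift (s.f^[k + 1] x) (s.Bn (k + 1) (s.p x) w) +
            s.dl (s.f^[k + 1] x) (s.Bn (k + 1) (s.p x) w) • s.X (s.f^[k + 1] x) +
            t k • s.J (s.f^[k] x) • s.X (s.f^[k + 1] x)) -
          (s.lift (s.f^[k + 1] x) (s.Bn (k + 1) (s.p x) w) + t (k + 1) • s.X (s.f^[k + 1] x)) := by
        rw [hd]
        module
      rw [h5, h1, sub_self]
    have h6 := (smul_eq_zero.1 h4).resolve_right (hXne _)
    linarith
  -- bounds
  have hd1 : ∀ k, |d k| ≤ s.D0 c * s.N' (s.p x) w * μ ^ k := by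
    intro k
    have h1 := s.dl_le (s.f^[k + 1] x) (s.Bn (k + 1) (s.p x) w)
    have e1 : s.gi (s.p (s.f^[k + 1] x)) = s.g^[k] (s.p x) := by
      rw [s.p_iter, Function.iterate_succ_apply', s.gig]
    have e2 : s.Ai' (s.p (s.f^[k + 1] x)) (s.Bn (k + 1) (s.p x) w) = s.Bn k (s.p x) w := by
      rw [s.p_iter, Function.iterate_succ_apply']
      exact s.AiA' _ _
    rw [e1, e2, s.p_iter] at h1
    have h2 := h.fwd x hx w hw1 k
    have h3 := h.fwd x hx w hw1 (k + 1)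
    have h4 : c * μ ^ (k + 1) * s.N' (s.p x) w ≤ c * μ ^ k * s.N' (s.p x) w := by
      have : μ ^ (k + 1) ≤ μ ^ k := pow_le_pow_of_le_one hμ0.le hμ1.le (by omega)
      have hc0 : 0 ≤ c := by linarith
      gcongr
    have h5 : s.C ^ 2 ≤ s.C ^ 3 := pow_le_pow_right₀ hC1 (by norm_num)
    calc |d k| ≤ s.C ^ 3 * s.N' (s.g^[k] (s.p x)) (s.Bn k (s.p x) w) +
          s.C ^ 2 * s.N' (s.g^[k + 1] (s.p x)) (s.Bn (k + 1) (s.p x) w) := h1
      _ ≤ s.C ^ 3 * (c * μ ^ k * s.N' (s.p x) w) + s.C ^ 3 * (c * μ ^ k * s.N' (s.p x) w) := by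
          apply add_le_add
          · exact mul_le_mul_of_nonneg_left h2 (by positivity)
          · exact mul_le_mul h5 (h3.trans h4) (s.N'_nonneg _ _) (by positivity)
      _ = _ := by unfold D0; ring
  have hprod : ∀ j, j < m → ∏ i ∈ Finset.Ico (j + 1) m, s.J (s.f^[i] x) ≤ c * μ ^ (m - (j + 1)) := by
    intro j hj
    have h1 := h.vert _ (h.iter (j + 1) hx) (m - (j + 1))
    unfold Jn at h1
    rw [Finset.prod_Ico_eq_prod_range]
    refine le_trans (le_of_eq ?_) h1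
    refine Finset.prod_congr rfl fun i _ => ?_
    rw [← Function.iterate_add_apply, add_comm i (j + 1)]
  have ht0 : |t 0| ≤ s.C * (1 + s.C * s.C) * s.N x v := by
    have h1 := s.coef_le (hvert 0)
    have h2 := s.N_sub (s.f^[0] x) (s.An 0 x v) (s.lift (s.f^[0] x) (s.Bn 0 (s.p x) w))
    have h3 := s.Nlift x w
    have h4 : s.N (s.f^[0] x) (s.An 0 x v) = s.N x v := rfl
    have h5 : s.N (s.f^[0] x) (s.lift (s.f^[0] x) (s.Bn 0 (s.p x) w)) = s.N x (s.lift x w) := rfl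
    rw [h4, h5] at h2
    calc |t 0| ≤ s.C * s.N (s.f^[0] x) (s.An 0 x v - s.lift (s.f^[0] x) (s.Bn 0 (s.p x) w)) := h1
      _ ≤ s.C * (s.N x v + s.C * (s.C * s.N x v)) := by
          apply mul_le_mul_of_nonneg_left _ hC.le
          exact h2.trans (add_le_add le_rfl (h3.trans (mul_le_mul_of_nonneg_left hNw hC.le)))
      _ = _ := by ring
  have htm : |t m| ≤ (c * (s.C * (1 + s.C * s.C)) + Q * (c * (s.D0 c * s.C))) *
      ((1 + μ) / 2) ^ m * s.N x v := by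
    have h1 := lin_rec_bound (fun k => s.J (s.f^[k] x)) t d (fun k => (s.J0 _).le) hrec m
    have h2 : (∏ i ∈ Finset.range m, s.J (s.f^[i] x)) * |t 0| ≤
        (c * ((1 + μ) / 2) ^ m) * (s.C * (1 + s.C * s.C) * s.N x v) := by
      have h3 : (∏ i ∈ Finset.range m, s.J (s.f^[i] x)) ≤ c * ((1 + μ) / 2) ^ m := by
        refine (h.vert x hx m).trans ?_
        have : μ ^ m ≤ ((1 + μ) / 2) ^ m := pow_le_pow_left₀ hμ0.le (by linarith) m
        exact mul_le_mul_of_nonneg_left this (by linarith)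
      exact mul_le_mul h3 ht0 (abs_nonneg _) (by positivity)
    have h3 : ∑ j ∈ Finset.range m, (∏ i ∈ Finset.Ico (j + 1) m, s.J (s.f^[i] x)) * |d j| ≤
        Q * (c * (s.D0 c * s.C)) * ((1 + μ) / 2) ^ m * s.N x v := by
      have h4 : ∀ j ∈ Finset.range m, (∏ i ∈ Finset.Ico (j + 1) m, s.J (s.f^[i] x)) * |d j| ≤
          (c * (s.D0 c * (s.C * s.N x v))) * μ ^ (m - 1) := by
        intro j hj
        rw [Finset.mem_range] at hj
        have h5 : μ ^ (m - 1) = μ ^ (m - (j + 1)) * μ ^ j := by rw [← pow_add]; congr 1; omega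
        rw [h5]
        have h6 := hd1 j
        have h7 : s.D0 c * s.N' (s.p x) w * μ ^ j ≤ s.D0 c * (s.C * s.N x v) * μ ^ j := by
          gcongr
        calc (∏ i ∈ Finset.Ico (j + 1) m, s.J (s.f^[i] x)) * |d j|
            ≤ (c * μ ^ (m - (j + 1))) * (s.D0 c * (s.C * s.N x v) * μ ^ j) :=
              mul_le_mul (hprod j hj) (h6.trans h7) (abs_nonneg _) (by positivity)
          _ = _ := by ring
      refine (Finset.sum_le_sum h4).trans ?_
      rw [Finset.sum_const, Finset.card_range, nsmul_eq_mul]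
      have h8 := hQ m
      have h9 : 0 ≤ c * (s.D0 c * (s.C * s.N x v)) := by positivity
      calc (m : ℝ) * (c * (s.D0 c * (s.C * s.N x v)) * μ ^ (m - 1))
          = (c * (s.D0 c * (s.C * s.N x v))) * ((m : ℝ) * μ ^ (m - 1)) := by ring
        _ ≤ (c * (s.D0 c * (s.C * s.N x v))) * (Q * ((1 + μ) / 2) ^ m) :=
            mul_le_mul_of_nonneg_left h8 h9
        _ = _ := by ring
    calc |t m| ≤ _ := h1
      _ ≤ (c * ((1 + μ) / 2) ^ m) * (s.C * (1 + s.C * s.C) * s.N x v) +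
          Q * (c * (s.D0 c * s.C)) * ((1 + μ) / 2) ^ m * s.N x v := add_le_add h2 h3
      _ = _ := by ring
  have hlift : s.N (s.f^[m] x) (s.lift (s.f^[m] x) (s.Bn m (s.p x) w)) ≤
      s.C * c * s.C * ((1 + μ) / 2) ^ m * s.N x v := by
    have h1 := s.Nlift (s.f^[m] x) (s.Bn m (s.p x) w)
    rw [s.p_iter] at h1
    have h2 := h.fwd x hx w hw1 m
    have h3 : μ ^ m ≤ ((1 + μ) / 2) ^ m := pow_le_pow_left₀ hμ0.le (by linarith) m
    have h4 : c * μ ^ m * s.N' (s.p x) w ≤ c * ((1 + μ) / 2) ^ m * (s.C * s.N x v) := by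
      apply mul_le_mul (mul_le_mul_of_nonneg_left h3 (by linarith)) hNw hN'0 (by positivity)
    calc s.N (s.f^[m] x) (s.lift (s.f^[m] x) (s.Bn m (s.p x) w)) ≤ _ := h1
      _ ≤ s.C * (c * ((1 + μ) / 2) ^ m * (s.C * s.N x v)) :=
          mul_le_mul_of_nonneg_left (h2.trans h4) hC.le
      _ = _ := by ring
  rw [hAn m]
  refine (s.N_add _ _ _).trans ?_
  rw [s.N_smul]
  have h5 : |t m| * s.N (s.f^[m] x) (s.X (s.f^[m] x)) ≤
      ((c * (s.C * (1 + s.C * s.C)) + Q * (c * (s.D0 c * s.C))) *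
      ((1 + μ) / 2) ^ m * s.N x v) * s.C :=
    mul_le_mul htm (s.NX _) (s.N_nonneg _ _) ((abs_nonneg _).trans htm)
  calc s.N (s.f^[m] x) (s.lift (s.f^[m] x) (s.Bn m (s.p x) w)) +
        |t m| * s.N (s.f^[m] x) (s.X (s.f^[m] x))
      ≤ s.C * c * s.C * ((1 + μ) / 2) ^ m * s.N x v +
        ((c * (s.C * (1 + s.C * s.C)) + Q * (c * (s.D0 c * s.C))) *
        ((1 + μ) / 2) ^ m * s.N x v) * s.C := add_le_add hlift h5
    _ = _ := by ring

end Skew

end OmSt
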