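import Pool.Agent.PCE.Split
import Pool.Agent.PCE.DerivBound
import Pool.Agent.PCE.LiftBound
import Pool.Agent.PCE.Gen
import Pool.Agent.PCE.Skew

/-!
# Hyperbolicity of a set with uniformly contracted vertical direction over a hyperbolic base
-/

open Set Filter Topology Manifold ContDiff Metric

namespace OmSt

section rn

variable {E : Type*} [NormedAddCommGroup E] [NormedSpace ℝ E]
  {M : Type*} [TopologicalSpace M] [ChartedSpace E M] [IsManifold 𝓘(ℝ, E) ∞ M]

theorem ext_rnorm_nonneg (γ : RMetric E M) (x : M) (v : E) : 0 ≤ rnorm γ x v := Real.sqrt_nonneg _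

theorem ext_inner_nonneg (γ : RMetric E M) (x : M) (v : E) :
    0 ≤ (γ.inner x : E →L[ℝ] E →L[ℝ] ℝ) v v := by
  let Q : E →L[ℝ] E →L[ℝ] ℝ := γ.inner x
  change 0 ≤ Q v v
  by_cases hv : v = 0
  · rw [hv]
    simp
  · exact (γ.pos x v hv).le

theorem ext_rnorm_smul (γ : RMetric E M) (x : M) (c : ℝ) (v : E) :
    rnorm γ x (c • v : E) = |c| * rnorm γ x v := by
  let Q : E →L[ℝ] E →L[ℝ] ℝ := γ.inner x
  have h1 : Q (c • v) (c • v) = c ^ 2 * Q v v := by
    rw [map_smul, map_smul]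
    simp only [smul_apply, smul_eq_mul]
    ring
  unfold rnorm
  change √(Q (c • v) (c • v)) = |c| * √(Q v v)
  rw [h1, Real.sqrt_mul (sq_nonneg c), Real.sqrt_sq_eq_abs]

theorem ext_rnorm_add_le (γ : RMetric E M) (x : M) (v w : E) :
    rnorm γ x (v + w : E) ≤ rnorm γ x v + rnorm γ x w := by
  let Q : E →L[ℝ] E →L[ℝ] ℝ := γ.inner x
  have hsymm : ∀ a b : E, Q a b = Q b a := fun a b => γ.symm x a b
  have hnn : ∀ a : E, 0 ≤ Q a a := fun a => ext_inner_nonneg γ x a
  have hCS : (Q v w) ^ 2 ≤ Q v v * Q w w := by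
    by_cases hw : w = 0
    · rw [hw]; simp
    have hpos : 0 < Q w w := γ.pos x w hw
    have h1 := hnn (Q w w • v - Q v w • w)
    have h2 : Q (Q w w • v - Q v w • w) (Q w w • v - Q v w • w) =
        Q w w * (Q w w * Q v v - (Q v w) ^ 2) := by
      simp only [map_sub, map_smul, sub_apply, smul_apply, smul_eq_mul]
      rw [hsymm w v]
      ring
    rw [h2] at h1
    have h3 := nonneg_of_mul_nonneg_right h1 hpos
    linarith
  have h1 : Q (v + w) (v + w) = Q v v + 2 * Q v w + Q w w := by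
    simp only [map_add, add_apply]
    rw [hsymm w v]
    ring
  unfold rnorm
  change √(Q (v + w) (v + w)) ≤ √(Q v v) + √(Q w w)
  rw [Real.sqrt_le_left (by positivity), h1, add_sq, Real.sq_sqrt (hnn v), Real.sq_sqrt (hnn w)]
  have h2 : Q v w ≤ √(Q v v) * √(Q w w) := by
    rw [← Real.sqrt_mul (hnn v)]
    exact (le_abs_self _).trans (Real.abs_le_sqrt hCS)
  linarith

end rn

variable {E : Type*} [NormedAddCommGroup E] [NormedSpace ℝ E] [FiniteDimensional ℝ E]
  {M : Type*} [MetricSpace M] [CompactSpace M] [ChartedSpace E M] [IsManifold 𝓘(ℝ, E) ∞ M]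
  {E' : Type*} [NormedAddCommGroup E'] [NormedSpace ℝ E'] [FiniteDimensional ℝ E']
  {B : Type*} [MetricSpace B] [CompactSpace B] [ChartedSpace E' B] [IsManifold 𝓘(ℝ, E') ∞ B]
  {r : ℕ∞}

/-- the derivative of the projection -/
noncomputable def CircleBundle.Dp (P : CircleBundle E M E' B) (x : M) : E →L[ℝ] E' :=
  mfderiv 𝓘(ℝ, E) 𝓘(ℝ, E') P.p x

theorem CircleBundle.Dp_chain (P : CircleBundle E M E' B) (hr : 1 ≤ r) (f : Dyn E M r)
    (g : Dyn E' B r) (hcov : ∀ x, P.p (f x) = g (P.p x)) (x : M) (v : E) :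
    P.Dp (f x) ((D f x : E →L[ℝ] E) v) = (D g (P.p x) : E' →L[ℝ] E') (P.Dp x v) := by
  have hp : MDifferentiable 𝓘(ℝ, E) 𝓘(ℝ, E') P.p := P.p_smooth.mdifferentiable (by simp)
  have h1 : P.p ∘ f = g ∘ P.p := funext hcov
  have h2 := mfderiv_comp x (hp (f x)) (Dyn.mdiff f hr x)
  have h3 := mfderiv_comp x (Dyn.mdiff g hr (P.p x)) (hp x)
  rw [h1, h3] at h2
  exact (congrArg (fun L : E →L[ℝ] E' => L v) h2).symm

/-- (G) Hyperbolicity of an invariant set on which the vertical direction is uniformly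
contracted and whose projection is hyperbolic. -/
theorem CircleBundle.isHyperbolicSet (P : CircleBundle E M E' B) (hr : 1 ≤ r) (f : Dyn E M r)
    (g : Dyn E' B r) (hcov : ∀ x, P.p (f x) = g (P.p x)) {K : Set M} (hK : IsClosed K)
    (hf : ∀ x ∈ K, f x ∈ K) (hf' : ∀ x ∈ K, f.symm x ∈ K)
    (J : M → ℝ) (hJ0 : ∀ x, 0 < J x)
    (hJ : ∀ x, (D f x : E →L[ℝ] E) (P.X x) = J x • P.X (f x))
    {C μ : ℝ} (hμ0 : 0 < μ) (hμ1 : μ < 1)
    (hJc : ∀ x ∈ K, ∀ k : ℕ, ∏ i ∈ Finset.range k, J (f^[i] x) ≤ C * μ ^ k)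
    (hB : IsHyperbolicSet g (P.p '' K)) : IsHyperbolicSet f K := by
  obtain ⟨γ⟩ := exists_rmetric (E := E) (M := M)
  obtain ⟨γ'⟩ := exists_rmetric (E := E') (M := B)
  have hp1 : ContMDiff 𝓘(ℝ, E) 𝓘(ℝ, E') 1 P.p := P.p_smooth.of_le (by exact_mod_cast le_top)
  obtain ⟨C1, hC1, h1⟩ := exists_deriv_bound P.p hp1 γ γ'
  obtain ⟨C2, hC2, h2⟩ := exists_deriv_bound f (Dyn.contMDiff_one f hr) γ γ
  obtain ⟨C3, hC3, h3⟩ := exists_lift_bound P.p hp1 P.p_subm γ γ'
  obtain ⟨C4, hC4, h4⟩ := P.X_bounds γ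
  choose ℓ hℓ1 hℓ2 using h3
  set C0 : ℝ := C1 + C2 + C3 + C4 + 1 with hC0
  have hn : ∀ (x : M) (v : E), 0 ≤ rnorm γ x v := fun x v => ext_rnorm_nonneg γ x v
  have hn' : ∀ (y : B) (w : E'), 0 ≤ rnorm γ' y w := fun y w => ext_rnorm_nonneg γ' y w
  let s : Skew M B E E' :=
    { f := f
      fi := f.symm
      g := g
      gi := g.symm
      p := P.p
      ffi := f.apply_symm_apply
      fif := f.symm_apply_apply
      ggi := g.apply_symm_apply
      gig := g.symm_apply_apply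
      pf := hcov
      A := fun x => ((D f x : E →L[ℝ] E) : E →ₗ[ℝ] E)
      Ai := fun x => ((D f.symm x : E →L[ℝ] E) : E →ₗ[ℝ] E)
      A' := fun y => ((D g y : E' →L[ℝ] E') : E' →ₗ[ℝ] E')
      Ai' := fun y => ((D g.symm y : E' →L[ℝ] E') : E' →ₗ[ℝ] E')
      AiA := fun x v => congrArg (fun L : E →L[ℝ] E => L v) (D_symm_mul f hr x).1
      AAi := fun x v => congrArg (fun L : E →L[ℝ] E => L v) (D_symm_mul f hr x).2
      AiA' := fun x v => congrArg (fun L : E' →L[ℝ] E' => L v) (D_symm_mul g hr x).1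
      AAi' := fun x v => congrArg (fun L : E' →L[ℝ] E' => L v) (D_symm_mul g hr x).2
      π := fun x => (P.Dp x : E →ₗ[ℝ] E')
      πA := fun x v => P.Dp_chain hr f g hcov x v
      X := P.X
      J := J
      J0 := hJ0
      AX := hJ
      ker := fun x v => P.ker_eq x v
      N := fun x v => rnorm γ x v
      N' := fun y w => rnorm γ' y w
      N_add := fun x v w => ext_rnorm_add_le γ x v w
      N_smul := fun x c v => ext_rnorm_smul γ x c v
      N_nonneg := fun x v => ext_rnorm_nonneg γ x v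
      N'_nonneg := fun y w => ext_rnorm_nonneg γ' y w
      C := C0
      C1 := by linarith
      Nπ := fun x v => (h1 x v).trans (mul_le_mul_of_nonneg_right (by linarith) (hn x v))
      NA := fun x v => (h2 x v).trans (mul_le_mul_of_nonneg_right (by linarith) (hn x v))
      lift := ℓ
      πlift := hℓ1
      Nlift := fun x w => (hℓ2 x w).trans (mul_le_mul_of_nonneg_right (by linarith) (hn' _ w))
      NX := fun x => (h4 x).1.trans (by linarith)
      NX' := fun x => (h4 x).2.trans (mul_le_mul_of_nonneg_right (by linarith) (hn x _)) }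
  have hAn : ∀ (m : ℕ) (x : M) (v : E), s.An m x v = (D f^[m] x : E →L[ℝ] E) v := by
    intro m
    induction m with
    | zero =>
      intro x v
      have : (D f^[0] x : E →L[ℝ] E) = 1 := D_id x
      rw [this]
      rfl
    | succ m ih =>
      intro x v
      rw [D_iterate_succ (Dyn.mdiff f hr) m x]
      change (D f (f^[m] x) : E →L[ℝ] E) (s.An m x v) = _
      rw [ih]
      rfl
  have hAm : ∀ (m : ℕ) (x : M) (v : E), s.Am m x v = (D f.symm^[m] x : E →L[ℝ] E) v := by
    intro m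
    induction m with
    | zero =>
      intro x v
      have : (D f.symm^[0] x : E →L[ℝ] E) = 1 := D_id x
      rw [this]
      rfl
    | succ m ih =>
      intro x v
      rw [D_iterate_add (Dyn.mdiff_symm f hr) m 1 x]
      change s.Am m (f.symm x) ((D f.symm x : E →L[ℝ] E) v) = _
      rw [ih]
      rfl
  have hBn : ∀ (m : ℕ) (x : B) (v : E'), s.Bn m x v = (D g^[m] x : E' →L[ℝ] E') v := by
    intro m
    induction m with
    | zero =>
      intro x v
      have : (D g^[0] x : E' →L[ℝ] E') = 1 := D_id x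
      rw [this]
      rfl
    | succ m ih =>
      intro x v
      rw [D_iterate_succ (Dyn.mdiff g hr) m x]
      change (D g (g^[m] x) : E' →L[ℝ] E') (s.Bn m x v) = _
      rw [ih]
      rfl
  have hBm : ∀ (m : ℕ) (x : B) (v : E'), s.Bm m x v = (D g.symm^[m] x : E' →L[ℝ] E') v := by
    intro m
    induction m with
    | zero =>
      intro x v
      have : (D g.symm^[0] x : E' →L[ℝ] E') = 1 := D_id x
      rw [this]
      rfl
    | succ m ih =>
      intro x v
      rw [D_iterate_add (Dyn.mdiff_symm g hr) m 1 x]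
      change s.Bm m (g.symm x) ((D g.symm x : E' →L[ℝ] E') v) = _
      rw [ih]
      rfl
  -- the base
  have hpK : IsClosed (P.p '' K) := by
    have h5 : IsCompact K := hK.isCompact
    exact (h5.image P.p_smooth.continuous).isClosed
  obtain ⟨PB, cB, μB, hyp⟩ := hB.hypF hpK γ'
  have hcB := hyp.hc
  have hμB0 := hyp.hμ0
  have hμB1 := hyp.hμ1
  set c : ℝ := cB + |C| + 1 with hc
  set ν : ℝ := max μ μB with hν
  have hν0 : 0 < ν := lt_max_of_lt_left hμ0
  have hν1 : ν < 1 := max_lt hμ1 hμB1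
  have hc1 : 1 ≤ c := by have := abs_nonneg C; linarith
  have hmono : ∀ (a b : ℝ) (m : ℕ), 0 ≤ a → a ≤ c → 0 < b → b ≤ ν → a * b ^ m ≤ c * ν ^ m := by
    intro a b m ha hac hb hbν
    have : b ^ m ≤ ν ^ m := pow_le_pow_left₀ hb.le hbν m
    exact mul_le_mul hac this (by positivity) (by linarith)
  have hH : s.Hyp K (fun y => ((PB y : E' →L[ℝ] E') : E' →ₗ[ℝ] E')) c ν :=
    { hc := by linarith
      hμ0 := hν0
      hμ1 := hν1
      inv := hf
      invi := hf'
      idem := fun x hx w => congrArg (fun L : E' →L[ℝ] E' => L w)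
        (hyp.idem (P.p x) (mem_image_of_mem _ hx))
      comm := fun x hx w => congrArg (fun L : E' →L[ℝ] E' => L w)
        (hyp.comm (P.p x) (mem_image_of_mem _ hx))
      fwd := fun x hx w hw m => by
        rw [hBn]
        refine (hyp.fwd (P.p x) (mem_image_of_mem _ hx) m w hw).trans ?_
        exact mul_le_mul_of_nonneg_right (hmono cB μB m hcB.le (by
          have := abs_nonneg C; linarith) hμB0 (le_max_right _ _)) (hn' _ _)
      bwd := fun x hx w hw m => by
        rw [hBm]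
        refine (hyp.bwd (P.p x) (mem_image_of_mem _ hx) m w hw).trans ?_
        exact mul_le_mul_of_nonneg_right (hmono cB μB m hcB.le (by
          have := abs_nonneg C; linarith) hμB0 (le_max_right _ _)) (hn' _ _)
      vert := fun x hx m => by
        refine (hJc x hx m).trans ?_
        have h5 : C * μ ^ m ≤ |C| * μ ^ m :=
          mul_le_mul_of_nonneg_right (le_abs_self C) (by positivity)
        exact h5.trans (hmono |C| μ m (abs_nonneg C) (by linarith) hμ0 (le_max_left _ _)) }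
  obtain ⟨Q, hQ0, hQ⟩ := exists_mul_pow_le hν0 hν1
  set c₁ : ℝ := s.C * c * s.C + (c * (s.C * (1 + s.C * s.C)) + Q * (c * (s.D0 c * s.C))) * s.C
    with hc₁
  set c₂ : ℝ := s.CL c ν * c * s.C with hc₂
  have hsC : 0 < s.C := s.C_pos
  have hD0 : 0 ≤ s.D0 c := by unfold Skew.D0; positivity
  have hc₁0 : 0 < c₁ := by rw [hc₁]; positivity
  have hc₂0 : 0 ≤ c₂ := by
    rw [hc₂]
    unfold Skew.CL
    have : 0 < 1 - ν := by linarith
    positivity
  have hν2 : ν ≤ (1 + ν) / 2 := by linarith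
  refine isHyperbolicSet_of_split hr f hK hf hf' γ
    (s.St (fun y => ((PB y : E' →L[ℝ] E') : E' →ₗ[ℝ] E')))
    (s.Un (fun y => ((PB y : E' →L[ℝ] E') : E' →ₗ[ℝ] E')))
    (fun x hx => Skew.isCompl hH hc1 hx) (fun x hx v hv => Skew.St_inv hH hx hv)
    (fun x hx v hv => Skew.Un_inv hH hx hv) (c := c₁ + c₂) (μ := (1 + ν) / 2) (by linarith)
    (by linarith) (by linarith) ?_ ?_
  · intro x hx v hv m
    have h5 := Skew.St_rate hH hc1 hQ0 hQ hx hv m
    rw [hAn] at h5
    have h6 : 0 ≤ ((1 + ν) / 2) ^ m * rnorm γ x v := mul_nonneg (by positivity) (hn x v)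
    calc rnorm γ (f^[m] x) ((D f^[m] x : E →L[ℝ] E) v) ≤ c₁ * ((1 + ν) / 2) ^ m * rnorm γ x v := h5
      _ ≤ _ := by nlinarith
  · intro x hx v hv m
    have h5 := Skew.Un_rate hH hc1 hx hv m
    rw [hAm] at h5
    have h7 : ν ^ m ≤ ((1 + ν) / 2) ^ m := pow_le_pow_left₀ hν0.le hν2 m
    have h8 := hn x v
    calc rnorm γ (f.symm^[m] x) ((D f.symm^[m] x : E →L[ℝ] E) v) ≤ c₂ * ν ^ m * rnorm γ x v := h5
      _ ≤ c₂ * ((1 + ν) / 2) ^ m * rnorm γ x v :=
          mul_le_mul_of_nonneg_right (mul_le_mul_of_nonneg_left h7 hc₂0) h8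
      _ ≤ _ := by
          have h6 : 0 ≤ ((1 + ν) / 2) ^ m * rnorm γ x v := mul_nonneg (by positivity) (hn x v)
          nlinarith

end OmSt
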