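import Pool.Agent.OmSt.Defs
import Pool.Agent.PCE.Bands

/-!
# Circle extensions of homeomorphisms
-/

open Set Filter Topology Real

namespace PCE

/-- Circle extensions: the topological data together with the derivative along the circles. -/
structure Ext (M B : Type*) [TopologicalSpace M] [TopologicalSpace B] where
  ρ : ℝ → M → M
  cont : Continuous fun q : ℝ × M => ρ q.1 q.2
  zero : ∀ x, ρ 0 x = x
  add : ∀ s t x, ρ (s + t) x = ρ s (ρ t x)
  period : ∀ s x, ρ s x = x ↔ ∃ k : ℤ, s = k * π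
  p : M → B
  p_cont : Continuous p
  p_surj : Function.Surjective p
  fib : ∀ x y, p x = p y ↔ ∃ s, ρ s x = y
  f : M ≃ₜ M
  g : B ≃ₜ B
  cov : ∀ x, p (f x) = g (p x)
  F : M → ℝ → ℝ
  F_mono : ∀ x, StrictMono (F x)
  F_zero : ∀ x, F x 0 = 0
  F_pi : ∀ x s, F x (s + π) = F x s + π
  F_eq : ∀ x s, f (ρ s x) = ρ (F x s) (f x)
  J : M → ℝ
  J_pos : ∀ x, 0 < J x
  F_deriv : ∀ x s, HasDerivAt (F x) (J (ρ s x)) s

namespace Ext

variable {M B : Type*} [TopologicalSpace M] [TopologicalSpace B] (e : Ext M B)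

/-- The maps between the circles are projective. -/
def Proj : Prop :=
  ∀ x s t, sin (e.F x t - e.F x s) = √(e.J (e.ρ t x)) * √(e.J (e.ρ s x)) * sin (t - s)

/-- The pushed map. -/
def push (θ : ℝ) (x : M) : M := e.ρ θ (e.f x)

/-- All periodic orbits of the pushed maps have vertical multiplier different from one. -/
def Star (ε : ℝ) : Prop :=
  ∀ θ, |θ| < ε → ∀ (y : M) (n : ℕ), 0 < n → (e.push θ)^[n] y = y →
    ∏ i ∈ Finset.range n, e.J ((e.push θ)^[i] y) ≠ 1

theorem ρ_int (k : ℤ) (x : M) : e.ρ (k * π) x = x := (e.period _ _).2 ⟨k, rfl⟩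

theorem ρ_add_int (s : ℝ) (k : ℤ) (x : M) : e.ρ (s + k * π) x = e.ρ s x := by
  rw [e.add, ρ_int]

theorem ρ_eq {s t : ℝ} {x : M} (h : e.ρ s x = e.ρ t x) : ∃ k : ℤ, s = t + k * π := by
  have h1 : e.ρ (s - t) x = x := by
    have e1 : s - t = -t + s := by ring
    rw [e1, e.add, h, ← e.add, neg_add_cancel, e.zero]
  obtain ⟨k, hk⟩ := (e.period _ _).1 h1
  exact ⟨k, by linarith⟩

theorem ρ_neg (t : ℝ) (x : M) : e.ρ (-t) (e.ρ t x) = x := by
  rw [← e.add, neg_add_cancel, e.zero]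

theorem ρ_neg' (t : ℝ) (x : M) : e.ρ t (e.ρ (-t) x) = x := by
  rw [← e.add, add_neg_cancel, e.zero]

theorem p_ρ (s : ℝ) (x : M) : e.p (e.ρ s x) = e.p x := ((e.fib _ _).2 ⟨s, rfl⟩).symm

theorem cov_iter (n : ℕ) (x : M) : e.p (e.f^[n] x) = e.g^[n] (e.p x) := by
  induction n with
  | zero => rfl
  | succ n ih => rw [Function.iterate_succ_apply', Function.iterate_succ_apply', e.cov, ih]

theorem F_cont (x : M) : Continuous (e.F x) :=
  continuous_iff_continuousAt.2 fun s => (e.F_deriv x s).continuousAt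

/-! ### The sequence of lifts over a periodic point of the base -/

/-- a section -/
noncomputable def σ (b : B) : M := Function.surjInv e.p_surj b

theorem p_σ (b : B) : e.p (e.σ b) = b := Function.surjInv_eq e.p_surj b

theorem exists_shift (b : B) : ∃ c, e.ρ c (e.σ (e.g b)) = e.f (e.σ b) :=
  (e.fib _ _).1 (by rw [p_σ, e.cov, p_σ])

/-- the shift -/
noncomputable def sh (b : B) : ℝ := (e.exists_shift b).choose

theorem ρ_sh (b : B) : e.ρ (e.sh b) (e.σ (e.g b)) = e.f (e.σ b) := (e.exists_shift b).choose_spec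

/-- The periodic sequence of lifts over a periodic point. -/
noncomputable def cyc {b : B} {n : ℕ} (hn : 0 < n) (hb : e.g^[n] b = b) : Cyc where
  n := n
  n_pos := hn
  Φ i s := e.F (e.σ (e.g^[i] b)) s + e.sh (e.g^[i] b)
  J i s := e.J (e.ρ s (e.σ (e.g^[i] b)))
  per_Φ i := by
    have : e.g^[i + n] b = e.g^[i] b := by rw [Function.iterate_add_apply, hb]
    rw [this]
  per_J i := by
    have : e.g^[i + n] b = e.g^[i] b := by rw [Function.iterate_add_apply, hb]
    rw [this]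
  mono i := fun s t hst => by
    have := e.F_mono (e.σ (e.g^[i] b)) hst
    linarith
  deg i s := by rw [e.F_pi]; ring
  deriv i s := (e.F_deriv _ s).add_const _
  J_pos i s := e.J_pos _

theorem f_σ (b : B) (s : ℝ) :
    e.f (e.ρ s (e.σ b)) = e.ρ (e.F (e.σ b) s + e.sh b) (e.σ (e.g b)) := by
  rw [e.F_eq, e.add, ρ_sh]

theorem push_iter {b : B} {n : ℕ} (hn : 0 < n) (hb : e.g^[n] b = b) (θ s : ℝ) (i : ℕ) :
    (e.push θ)^[i] (e.ρ s (e.σ b)) = e.ρ ((e.cyc hn hb).G θ i s) (e.σ (e.g^[i] b)) := by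
  induction i with
  | zero => rfl
  | succ i ih =>
    rw [Function.iterate_succ_apply', ih, push, f_σ, ← e.add, Function.iterate_succ_apply',
      Cyc.G_succ, add_comm _ θ]
    rfl

theorem push_zero : e.push 0 = e.f := by
  funext x
  rw [push, e.zero]

theorem f_iter {b : B} {n : ℕ} (hn : 0 < n) (hb : e.g^[n] b = b) (s : ℝ) (i : ℕ) :
    e.f^[i] (e.ρ s (e.σ b)) = e.ρ ((e.cyc hn hb).G 0 i s) (e.σ (e.g^[i] b)) := by
  rw [← push_iter, push_zero]

theorem iter_mul {b : B} {n : ℕ} (hb : e.g^[n] b = b) (m : ℕ) : e.g^[m * n] b = b := by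
  induction m with
  | zero => simp
  | succ m ih => rw [Nat.succ_mul, Function.iterate_add_apply, hb, ih]

theorem Star.cyc {ε : ℝ} (h : e.Star ε) {b : B} {n : ℕ} (hn : 0 < n) (hb : e.g^[n] b = b) :
    (e.cyc hn hb).Star ε := by
  intro θ hθ m hm s k hs
  have hper : (e.push θ)^[m * n] (e.ρ s (e.σ b)) = e.ρ s (e.σ b) := by
    rw [push_iter (hn := hn) (hb := hb)]
    change e.ρ ((e.cyc hn hb).G θ (m * (e.cyc hn hb).n) s) _ = _
    rw [hs, e.iter_mul hb, e.ρ_add_int]
  have h1 := h θ hθ _ _ (Nat.mul_pos hm hn) hper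
  intro h2
  apply h1
  rw [← h2]
  unfold Cyc.Jn
  refine Finset.prod_congr rfl fun i _ => ?_
  rw [push_iter (hn := hn) (hb := hb)]
  rfl

/-- The vertical derivative of `f^{-k}`, inverted: the product of `J` along the last `k` points
of the past orbit. -/
noncomputable def Dk (k : ℕ) (x : M) : ℝ := ∏ j ∈ Finset.range k, e.J (e.f.symm^[j + 1] x)

/-- The vertical derivative of `f^k`. -/
noncomputable def Jk (k : ℕ) (x : M) : ℝ := ∏ j ∈ Finset.range k, e.J (e.f^[j] x)

/-- The uniformly contracted periodic point in the fibre of a periodic point of the base. -/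
theorem attr (hP : e.Proj) {R : ℝ} (hR : 0 < R) (hJR : ∀ x, e.J x ≤ R) {ε : ℝ} (hstar : e.Star ε)
    {θ : ℝ} (hθ0 : 0 < θ) (hθε : θ < ε) {b : B} (hb : b ∈ Function.periodicPts e.g) :
    ∃ u, e.p u = b ∧ ∀ k, e.Dk k u ≤ CC θ R * lam θ ^ k := by
  obtain ⟨n, hn, hb⟩ := hb
  have hb : e.g^[n] b = b := hb
  obtain ⟨m, hm, k₀, s, hs, hprod⟩ := (e.cyc hn hb).bands
    (fun i s t => by
      have := hP (e.σ (e.g^[i] b)) s t
      change sin ((e.F _ t + _) - (e.F _ s + _)) = _
      rw [add_sub_add_right_eq_sub]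
      exact this)
    hR (fun i s => hJR _) (Star.cyc e hstar hn hb) hθ0 hθε
  have hmn : 0 < m * n := Nat.mul_pos hm hn
  have hfix : e.f^[m * n] (e.ρ s (e.σ b)) = e.ρ s (e.σ b) := by
    rw [f_iter (hn := hn) (hb := hb)]
    change e.ρ ((e.cyc hn hb).G 0 (m * (e.cyc hn hb).n) s) _ = _
    rw [hs, e.iter_mul hb, e.ρ_add_int]
  refine ⟨e.ρ s (e.σ b), by rw [p_ρ, p_σ], fun k => ?_⟩
  set u := e.ρ s (e.σ b) with hu
  have hfix' : e.f^[k * (m * n)] u = u := by
    have : ∀ k, e.f^[k * (m * n)] u = u := by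
      intro k
      induction k with
      | zero => simp
      | succ k ih => rw [Nat.succ_mul, Function.iterate_add_apply, hfix, ih]
    exact this k
  have hkle : k ≤ k * (m * n) := Nat.le_mul_of_pos_right k hmn
  set i := k * (m * n) - k with hi
  have hback : ∀ j < k, e.f.symm^[j + 1] u = e.f^[i + (k - 1 - j)] u := by
    intro j hj
    have h1 : e.f^[j + 1] (e.f^[i + (k - 1 - j)] u) = u := by
      rw [← Function.iterate_add_apply]
      have : j + 1 + (i + (k - 1 - j)) = k * (m * n) := by omega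
      rw [this, hfix']
    have h2 : e.f.symm^[j + 1] (e.f^[j + 1] (e.f^[i + (k - 1 - j)] u)) =
        e.f^[i + (k - 1 - j)] u :=
      (Function.LeftInverse.iterate e.f.symm_apply_apply (j + 1)) _
    rwa [h1] at h2
  have e1 : e.Dk k u = ∏ j ∈ Finset.range k, e.J (e.f^[i + j] u) := by
    unfold Dk
    rw [← Finset.prod_range_reflect (fun j => e.J (e.f^[i + j] u)) k]
    refine Finset.prod_congr rfl fun j hj => ?_
    rw [hback j (Finset.mem_range.1 hj)]
  rw [e1]
  refine le_trans (le_of_eq ?_) (hprod i k)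
  refine Finset.prod_congr rfl fun j _ => ?_
  rw [hu, f_iter (hn := hn) (hb := hb)]
  rfl

/-! ### The chordal distance in the circles -/

/-- The chordal distance of two points of the same circle. -/
noncomputable def ch (x y : M) : ℝ := by
  classical exact if h : ∃ s, e.ρ s x = y then |sin h.choose| else 0

theorem ch_eq {x y : M} {t : ℝ} (h : e.ρ t x = y) : e.ch x y = |sin t| := by
  have hex : ∃ s, e.ρ s x = y := ⟨t, h⟩
  unfold ch
  rw [dif_pos hex]
  have h1 : e.ρ hex.choose x = e.ρ t x := hex.choose_spec.trans h.symm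
  obtain ⟨k, hk⟩ := e.ρ_eq h1
  rw [hk, sin_add_int_mul_pi, abs_mul, abs_zpow, abs_neg, abs_one, one_zpow, one_mul]

theorem ch_le_one {x y : M} (h : e.p x = e.p y) : e.ch x y ≤ 1 := by
  obtain ⟨s, hs⟩ := (e.fib _ _).1 h
  rw [e.ch_eq hs]
  exact abs_sin_le_one s

theorem ch_nonneg {x y : M} (h : e.p x = e.p y) : 0 ≤ e.ch x y := by
  obtain ⟨s, hs⟩ := (e.fib _ _).1 h
  rw [e.ch_eq hs]
  exact abs_nonneg _

theorem eq_of_ch {x y : M} (h : e.p x = e.p y) (h0 : e.ch x y = 0) : x = y := by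
  obtain ⟨s, hs⟩ := (e.fib _ _).1 h
  rw [e.ch_eq hs, abs_eq_zero, sin_eq_zero_iff] at h0
  obtain ⟨k, hk⟩ := h0
  rw [← hs, ← hk, e.ρ_int]

theorem ch_f (hP : e.Proj) {x y : M} (h : e.p x = e.p y) :
    e.ch (e.f x) (e.f y) = √(e.J x) * √(e.J y) * e.ch x y := by
  obtain ⟨s, hs⟩ := (e.fib _ _).1 h
  have h1 := hP x 0 s
  rw [e.F_zero, sub_zero, sub_zero, e.zero, hs] at h1
  have h2 : e.ρ (e.F x s) (e.f x) = e.f y := by rw [← e.F_eq, hs]
  rw [e.ch_eq hs, e.ch_eq h2, h1, abs_mul, abs_mul, abs_of_nonneg (sqrt_nonneg _),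
    abs_of_nonneg (sqrt_nonneg _)]
  ring

theorem Jk_succ (k : ℕ) (x : M) : e.Jk (k + 1) x = e.Jk k x * e.J (e.f^[k] x) := by
  unfold Jk
  rw [Finset.prod_range_succ]

theorem Jk_pos (k : ℕ) (x : M) : 0 < e.Jk k x := Finset.prod_pos fun _ _ => e.J_pos _

theorem Dk_pos (k : ℕ) (x : M) : 0 < e.Dk k x := Finset.prod_pos fun _ _ => e.J_pos _

theorem Dk_f (k : ℕ) (x : M) : e.Dk (k + 1) (e.f x) = e.J x * e.Dk k x := by
  unfold Dk
  rw [Finset.prod_range_succ', mul_comm]
  have h1 : e.f.symm^[0 + 1] (e.f x) = x := by simp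
  rw [h1]
  congr 1
  refine Finset.prod_congr rfl fun j _ => ?_
  rw [Function.iterate_succ_apply, e.f.symm_apply_apply]

theorem Jk_eq_Dk (k : ℕ) (x : M) : e.Jk k x = e.Dk k (e.f^[k] x) := by
  unfold Jk Dk
  rw [← Finset.prod_range_reflect (fun j => e.J (e.f^[j] x)) k]
  refine Finset.prod_congr rfl fun j hj => ?_
  have hj := Finset.mem_range.1 hj
  have h1 : e.f^[k] x = e.f^[j + 1] (e.f^[k - 1 - j] x) := by
    rw [← Function.iterate_add_apply]
    congr 1
    omega
  rw [h1, (Function.LeftInverse.iterate e.f.symm_apply_apply (j + 1))]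

theorem p_iter {x y : M} (h : e.p x = e.p y) (k : ℕ) : e.p (e.f^[k] x) = e.p (e.f^[k] y) := by
  rw [cov_iter, cov_iter, h]

theorem p_symm (x : M) : e.p (e.f.symm x) = e.g.symm (e.p x) := by
  rw [Homeomorph.eq_symm_apply, ← e.cov, e.f.apply_symm_apply]

theorem p_symm_iter {x y : M} (h : e.p x = e.p y) (k : ℕ) :
    e.p (e.f.symm^[k] x) = e.p (e.f.symm^[k] y) := by
  induction k with
  | zero => exact h
  | succ k ih => rw [Function.iterate_succ_apply', Function.iterate_succ_apply', p_symm, p_symm, ih]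

theorem ch_iter (hP : e.Proj) {x y : M} (h : e.p x = e.p y) (k : ℕ) :
    e.ch (e.f^[k] x) (e.f^[k] y) = √(e.Jk k x) * √(e.Jk k y) * e.ch x y := by
  induction k with
  | zero => simp [Jk]
  | succ k ih =>
    rw [Function.iterate_succ_apply', Function.iterate_succ_apply', e.ch_f hP (e.p_iter h k), ih,
      Jk_succ, Jk_succ, sqrt_mul (e.Jk_pos k x).le, sqrt_mul (e.Jk_pos k y).le]
    ring

theorem ch_back (hP : e.Proj) {x y : M} (h : e.p x = e.p y) (k : ℕ) :
    e.ch x y = √(e.Dk k x) * √(e.Dk k y) * e.ch (e.f.symm^[k] x) (e.f.symm^[k] y) := by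
  have h1 := e.ch_iter hP (e.p_symm_iter h k) k
  have h2 : ∀ z, e.f^[k] (e.f.symm^[k] z) = z :=
    (Function.RightInverse.iterate e.f.apply_symm_apply k)
  rw [Jk_eq_Dk, Jk_eq_Dk, h2, h2] at h1
  exact h1

/-- Two points of the same circle with contraction in the past coincide. -/
theorem unique (hP : e.Proj) {x y : M} (h : e.p x = e.p y)
    (hx : Tendsto (fun k => e.Dk k x) atTop (𝓝 0)) (hy : Tendsto (fun k => e.Dk k y) atTop (𝓝 0)) :
    x = y := by
  refine e.eq_of_ch h (le_antisymm ?_ (e.ch_nonneg h))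
  have h1 : Tendsto (fun k => √(e.Dk k x) * √(e.Dk k y)) atTop (𝓝 (√0 * √0)) :=
    ((continuous_sqrt.tendsto 0).comp hx).mul ((continuous_sqrt.tendsto 0).comp hy)
  rw [sqrt_zero, mul_zero] at h1
  refine ge_of_tendsto h1 (Eventually.of_forall fun k => ?_)
  rw [e.ch_back hP h k]
  have h2 := e.ch_le_one (e.p_symm_iter h k)
  have h3 : 0 ≤ √(e.Dk k x) * √(e.Dk k y) := by positivity
  exact mul_le_of_le_one_right h3 h2

end Ext

end PCE
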