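import Pool.Agent.PCE.Ext0

/-!
# Circle extensions: inverse, continuity of the derivative, the invariant sets, recurrent points
-/

open Set Filter Topology Real

namespace PCE

namespace Ext

variable {M B : Type*} [TopologicalSpace M] [TopologicalSpace B] (e : Ext M B)

/-! ### The inverse -/

theorem F_int (x : M) (s : ℝ) (k : ℤ) : e.F x (s + k * π) = e.F x s + k * π := by
  induction k using Int.induction_on with
  | zero => simp
  | succ m ih =>
    have h1 := e.F_pi x (s + m * π)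
    have e1 : s + ((m + 1 : ℤ) : ℝ) * π = s + m * π + π := by push_cast; ring
    rw [e1, h1]
    have ih' : e.F x (s + (m : ℝ) * π) = e.F x s + (m : ℝ) * π := by exact_mod_cast ih
    rw [ih']
    push_cast
    ring
  | pred m ih =>
    have h1 := e.F_pi x (s + ((-(m : ℤ) - 1 : ℤ) : ℝ) * π)
    have e1 : s + ((-(m : ℤ) - 1 : ℤ) : ℝ) * π + π = s + ((-(m : ℤ) : ℤ) : ℝ) * π := by
      push_cast; ring
    rw [e1, ih] at h1
    have : e.F x (s + ((-(m : ℤ) - 1 : ℤ) : ℝ) * π) =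
        e.F x s + ((-(m : ℤ) : ℤ) : ℝ) * π - π := by
      linarith
    rw [this]
    push_cast
    ring

theorem F_surj (x : M) : Function.Surjective (e.F x) := by
  intro y
  obtain ⟨k, hk⟩ := exists_int_gt (y / π)
  obtain ⟨l, hl⟩ := exists_int_lt (y / π)
  have h1 : e.F x (0 + k * π) = k * π := by rw [F_int, e.F_zero, zero_add]
  have h2 : e.F x (0 + l * π) = l * π := by rw [F_int, e.F_zero, zero_add]
  exact mem_range_of_exists_le_of_exists_ge (e.F_cont x)
    ⟨_, by rw [h2]; exact (((lt_div_iff₀ pi_pos).1 hl)).le⟩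
    ⟨_, by rw [h1]; exact (((div_lt_iff₀ pi_pos).1 hk)).le⟩

/-- `F x` as an order isomorphism. -/
noncomputable def Fi (x : M) : ℝ ≃o ℝ := (e.F_mono x).orderIsoOfSurjective _ (e.F_surj x)

theorem Fi_apply (x : M) (s : ℝ) : e.Fi x s = e.F x s := rfl

/-- The inverse extension. -/
noncomputable def symm : Ext M B where
  ρ := e.ρ
  cont := e.cont
  zero := e.zero
  add := e.add
  period := e.period
  p := e.p
  p_cont := e.p_cont
  p_surj := e.p_surj
  fib := e.fib
  f := e.f.symm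
  g := e.g.symm
  cov := e.p_symm
  F x := (e.Fi (e.f.symm x)).symm
  F_mono x := (e.Fi (e.f.symm x)).symm.strictMono
  F_zero x := by
    rw [OrderIso.symm_apply_eq, Fi_apply, e.F_zero]
  F_pi x s := by
    rw [OrderIso.symm_apply_eq, Fi_apply, e.F_pi, ← Fi_apply, OrderIso.apply_symm_apply]
  F_eq x s := by
    rw [Homeomorph.symm_apply_eq, e.F_eq, ← Fi_apply, OrderIso.apply_symm_apply,
      e.f.apply_symm_apply]
  J x := (e.J (e.f.symm x))⁻¹
  J_pos x := inv_pos.2 (e.J_pos _)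
  F_deriv x s := by
    have h1 : e.f.symm (e.ρ s x) = e.ρ ((e.Fi (e.f.symm x)).symm s) (e.f.symm x) := by
      rw [Homeomorph.symm_apply_eq, e.F_eq, ← Fi_apply, OrderIso.apply_symm_apply,
        e.f.apply_symm_apply]
    rw [h1]
    refine HasDerivAt.of_local_left_inverse (f := e.F (e.f.symm x))
      (e.Fi (e.f.symm x)).symm.continuous.continuousAt (e.F_deriv _ _) (e.J_pos _).ne'
      (Eventually.of_forall fun t => ?_)
    exact (e.Fi (e.f.symm x)).apply_symm_apply t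

theorem Proj.symm {e : Ext M B} (hP : e.Proj) : e.symm.Proj := by
  intro x s t
  set y := e.f.symm x with hy
  set s' := (e.Fi y).symm s with hs'
  set t' := (e.Fi y).symm t with ht'
  have hs : e.F y s' = s := (e.Fi y).apply_symm_apply s
  have ht : e.F y t' = t := (e.Fi y).apply_symm_apply t
  have h := hP y s' t'
  rw [hs, ht] at h
  have e1 : ∀ r, e.f.symm (e.ρ r x) = e.ρ ((e.Fi y).symm r) y := by
    intro r
    rw [Homeomorph.symm_apply_eq, e.F_eq, ← Fi_apply, OrderIso.apply_symm_apply, hy,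
      e.f.apply_symm_apply]
  change sin (t' - s') = √((e.J (e.f.symm (e.ρ t x)))⁻¹) * √((e.J (e.f.symm (e.ρ s x)))⁻¹) *
    sin (t - s)
  rw [h, e1, e1, ← hs', ← ht', sqrt_inv, sqrt_inv]
  have h1 : 0 < √(e.J (e.ρ t' y)) := sqrt_pos.2 (e.J_pos _)
  have h2 : 0 < √(e.J (e.ρ s' y)) := sqrt_pos.2 (e.J_pos _)
  field_simp

theorem Star.symm {e : Ext M B} {ε : ℝ} (h : e.Star ε) : e.symm.Star ε := by
  intro θ hθ y n hn hy
  set Y : ℕ → M := fun i => (e.symm.push θ)^[i] y with hY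
  set z : ℕ → M := fun i => e.ρ (-θ) (Y i) with hz
  have hY1 : ∀ i, Y (i + 1) = e.ρ θ (e.f.symm (Y i)) := fun i => by
    simp only [hY]
    rw [Function.iterate_succ_apply']
    rfl
  have hz1 : ∀ i, z (i + 1) = e.f.symm (Y i) := fun i => by
    simp only [hz]
    rw [hY1, ρ_neg]
  have hz2 : ∀ i, e.push (-θ) (z (i + 1)) = z i := fun i => by
    rw [push, hz1, e.f.apply_symm_apply]
  have hz3 : ∀ i j, (e.push (-θ))^[j] (z (i + j)) = z i := by
    intro i j
    induction j with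
    | zero => rfl
    | succ j ih => rw [Function.iterate_succ_apply, ← add_assoc, hz2, ih]
  have hzn : z n = z 0 := by
    simp only [hz, hY]
    rw [hy]
    rfl
  have hper : (e.push (-θ))^[n] (z n) = z n := by
    have := hz3 0 n
    rw [zero_add] at this
    rw [this, hzn]
  have h1 := h (-θ) (by rwa [abs_neg]) (z n) n hn hper
  intro h2
  apply h1
  have e1 : ∏ i ∈ Finset.range n, e.J ((e.push (-θ))^[i] (z n)) =
      ∏ i ∈ Finset.range n, e.J (z (i + 1)) := by
    rw [← Finset.prod_range_reflect (fun i => e.J (z (i + 1))) n]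
    refine Finset.prod_congr rfl fun i hi => ?_
    have hi := Finset.mem_range.1 hi
    have e2 : z n = z ((n - 1 - i + 1) + i) := by
      congr 1
      omega
    rw [e2, hz3]
  have e3 : ∏ i ∈ Finset.range n, e.symm.J ((e.symm.push θ)^[i] y) =
      (∏ i ∈ Finset.range n, e.J (z (i + 1)))⁻¹ := by
    rw [← Finset.prod_inv_distrib]
    refine Finset.prod_congr rfl fun i _ => ?_
    rw [hz1]
    rfl
  rw [e1]
  rw [e3, inv_eq_one] at h2
  exact h2

/-! ### Continuity of the vertical derivative -/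

theorem F_mem {x : M} {s : ℝ} (h : s ∈ Ioo 0 π) : e.F x s ∈ Ioo 0 π := by
  have h1 := e.F_mono x h.1
  have h2 := e.F_mono x h.2
  have h3 := e.F_pi x 0
  rw [zero_add, e.F_zero, zero_add] at h3
  rw [e.F_zero] at h1
  rw [h3] at h2
  exact ⟨h1, h2⟩

theorem continuous_F [T2Space M] {s : ℝ} (hs : s ∈ Ioo 0 π) : Continuous fun x => e.F x s := by
  rw [continuous_iff_ultrafilter]
  intro x₀ U hU
  have hcomp : IsCompact (Icc (0 : ℝ) π) := isCompact_Icc
  have hmem : ∀ x, e.F x s ∈ Icc 0 π := fun x => ⟨(e.F_mem hs).1.le, (e.F_mem hs).2.le⟩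
  obtain ⟨τ, hτ, hτU⟩ := hcomp.ultrafilter_le_nhds (U.map fun x => e.F x s) (by
    rw [Ultrafilter.coe_map, le_principal_iff, mem_map]
    exact Eventually.of_forall hmem)
  have hτU' : Tendsto (fun x => e.F x s) U (𝓝 τ) := hτU
  have h1 : Tendsto (fun x => e.ρ (e.F x s) (e.f x)) U (𝓝 (e.ρ τ (e.f x₀))) := by
    have h2 : Tendsto (fun x => (e.F x s, e.f x)) U (𝓝 (τ, e.f x₀)) :=
      hτU'.prodMk_nhds ((e.f.continuous.tendsto x₀).mono_left hU)
    exact (e.cont.tendsto _).comp h2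
  have h3 : Tendsto (fun x => e.f (e.ρ s x)) U (𝓝 (e.f (e.ρ s x₀))) := by
    have h4 : Continuous fun x => e.f (e.ρ s x) :=
      e.f.continuous.comp (e.cont.comp (Continuous.prodMk_right s))
    exact (h4.tendsto x₀).mono_left hU
  have h4 : (fun x => e.f (e.ρ s x)) = fun x => e.ρ (e.F x s) (e.f x) := funext fun x => e.F_eq x s
  rw [h4] at h3
  have h5 := tendsto_nhds_unique h1 h3
  rw [e.F_eq] at h5
  obtain ⟨k, hk⟩ := e.ρ_eq h5
  have h6 := e.F_mem (x := x₀) hs
  have hk0 : k = 0 := by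
    have h7 : (k : ℝ) * π < 1 * π := by linarith [hτ.2, h6.1]
    have h8 : (-1 : ℝ) * π < k * π := by linarith [hτ.1, h6.2]
    have h9 : (k : ℝ) < 1 := lt_of_mul_lt_mul_right h7 pi_pos.le
    have h10 : (-1 : ℝ) < k := lt_of_mul_lt_mul_right h8 pi_pos.le
    have h9' : k < 1 := by exact_mod_cast h9
    have h10' : -1 < k := by exact_mod_cast h10
    omega
  rw [hk0, Int.cast_zero, zero_mul, add_zero] at hk
  rw [← hk]
  exact hτU'

theorem continuous_J [T2Space M] (hP : e.Proj) : Continuous e.J := by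
  have hw : sin (π / 3) ≠ 0 := (sin_pos_of_pos_of_lt_pi (by positivity) (by linarith [pi_pos])).ne'
  have hw' : sin (2 * π / 3) = sin (π / 3) := by
    rw [← sin_pi_sub]
    congr 1
    ring
  have hm1 : (π / 3) ∈ Ioo 0 π := ⟨by positivity, by linarith [pi_pos]⟩
  have hm2 : (2 * π / 3) ∈ Ioo 0 π := ⟨by positivity, by linarith [pi_pos]⟩
  have hpos : ∀ x, 0 < sin (e.F x (2 * π / 3) - e.F x (π / 3)) := by
    intro x
    have h1 := e.F_mono x (show π / 3 < 2 * π / 3 by linarith [pi_pos])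
    exact sin_pos_of_pos_of_lt_pi (by linarith)
      (by linarith [(e.F_mem (x := x) hm1).1, (e.F_mem (x := x) hm2).2])
  have key : ∀ x, e.J x = sin (e.F x (π / 3)) * sin (e.F x (2 * π / 3)) /
      (sin (e.F x (2 * π / 3) - e.F x (π / 3)) * sin (π / 3)) := by
    intro x
    have h1 := hP x 0 (π / 3)
    have h2 := hP x 0 (2 * π / 3)
    have h3 := hP x (π / 3) (2 * π / 3)
    rw [e.F_zero, sub_zero, sub_zero, e.zero] at h1 h2
    have e1 : 2 * π / 3 - π / 3 = π / 3 := by ring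
    rw [e1] at h3
    rw [hw'] at h2
    have h4 := hpos x
    rw [eq_div_iff (mul_ne_zero h4.ne' hw), h3, h1, h2]
    have h5 : e.J x = √(e.J x) * √(e.J x) := (mul_self_sqrt (e.J_pos x).le).symm
    conv_lhs => rw [h5]
    ring
  have h6 : e.J = fun x => sin (e.F x (π / 3)) * sin (e.F x (2 * π / 3)) /
      (sin (e.F x (2 * π / 3) - e.F x (π / 3)) * sin (π / 3)) := funext key
  rw [h6]
  have c1 := e.continuous_F hm1
  have c2 := e.continuous_F hm2
  refine Continuous.div ((continuous_sin.comp c1).mul (continuous_sin.comp c2))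
    ((continuous_sin.comp (c2.sub c1)).mul continuous_const) fun x => ?_
  exact mul_ne_zero (hpos x).ne' hw

theorem continuous_Dk [T2Space M] (hP : e.Proj) (k : ℕ) : Continuous (e.Dk k) := by
  unfold Dk
  exact continuous_finset_prod _ fun j _ =>
    (e.continuous_J hP).comp (e.f.symm.continuous.iterate (j + 1))

/-! ### The invariant sets -/

/-- The closure of the set of periodic points of the base. -/
def Per : Set B := closure (Function.periodicPts e.g)

/-- The points with uniform contraction in the past. -/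
def Ku (C μ : ℝ) : Set M := {x | e.p x ∈ e.Per ∧ ∀ k, e.Dk k x ≤ C * μ ^ k}

theorem isClosed_Ku [T2Space M] (hP : e.Proj) (C μ : ℝ) : IsClosed (e.Ku C μ) := by
  have : e.Ku C μ = (e.p ⁻¹' e.Per) ∩ ⋂ k, {x | e.Dk k x ≤ C * μ ^ k} := by
    ext x
    simp [Ku]
  rw [this]
  exact (isClosed_closure.preimage e.p_cont).inter
    (isClosed_iInter fun k => isClosed_le (e.continuous_Dk hP k) continuous_const)

theorem periodic_g {b : B} (h : b ∈ Function.periodicPts e.g) :
    e.g b ∈ Function.periodicPts e.g := by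
  obtain ⟨n, hn, hb⟩ := h
  exact ⟨n, hn, hb.map (Function.Commute.refl e.g)⟩

theorem periodic_symm : Function.periodicPts e.g.symm = Function.periodicPts e.g := by
  have h1 : ∀ g : B ≃ₜ B, Function.periodicPts g ⊆ Function.periodicPts g.symm := by
    rintro g b ⟨n, hn, hb⟩
    have hb : g^[n] b = b := hb
    refine ⟨n, hn, ?_⟩
    have h2 := (Function.LeftInverse.iterate g.symm_apply_apply n) b
    rw [hb] at h2
    exact h2
  exact subset_antisymm (h1 e.g.symm) (h1 e.g)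

theorem Per_g {b : B} (h : b ∈ e.Per) : e.g b ∈ e.Per :=
  map_mem_closure e.g.continuous h fun _ h => e.periodic_g h

theorem Per_symm {b : B} (h : b ∈ e.Per) : e.g.symm b ∈ e.Per := by
  refine map_mem_closure e.g.symm.continuous h fun c hc => ?_
  rw [← periodic_symm] at hc ⊢
  exact e.symm.periodic_g hc

theorem tendsto_Dk {C μ : ℝ} (hμ0 : 0 < μ) (hμ1 : μ < 1) {x : M}
    (h : ∀ k, e.Dk k x ≤ C * μ ^ k) : Tendsto (fun k => e.Dk k x) atTop (𝓝 0) := by
  have h1 : Tendsto (fun k : ℕ => C * μ ^ k) atTop (𝓝 (C * 0)) :=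
    (tendsto_pow_atTop_nhds_zero_of_lt_one hμ0.le hμ1).const_mul C
  rw [mul_zero] at h1
  exact squeeze_zero (fun k => (e.Dk_pos k x).le) h h1

theorem exists_Ku [T2Space M] [CompactSpace M] [T2Space B] (hP : e.Proj) {C μ : ℝ}
    (h : ∀ b ∈ Function.periodicPts e.g, ∃ u, e.p u = b ∧ ∀ k, e.Dk k u ≤ C * μ ^ k)
    {b : B} (hb : b ∈ e.Per) : ∃ u ∈ e.Ku C μ, e.p u = b := by
  have h1 : IsClosed (e.p '' e.Ku C μ) :=
    ((e.isClosed_Ku hP C μ).isCompact.image e.p_cont).isClosed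
  have h2 : Function.periodicPts e.g ⊆ e.p '' e.Ku C μ := by
    intro c hc
    obtain ⟨u, hu, hu'⟩ := h c hc
    exact ⟨u, ⟨by rw [hu]; exact subset_closure hc, hu'⟩, hu⟩
  exact closure_minimal h2 h1 hb

theorem Ku_f [T2Space M] [CompactSpace M] [T2Space B] (hP : e.Proj) {C μ : ℝ}
    (hμ0 : 0 < μ) (hμ1 : μ < 1)
    (h : ∀ b ∈ Function.periodicPts e.g, ∃ u, e.p u = b ∧ ∀ k, e.Dk k u ≤ C * μ ^ k)
    {x : M} (hx : x ∈ e.Ku C μ) : e.f x ∈ e.Ku C μ := by
  obtain ⟨y, hy, hyx⟩ := e.exists_Ku hP h (e.Per_g hx.1)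
  have h1 : e.f x = y := by
    refine e.unique hP (by rw [e.cov, hyx]) ?_ (e.tendsto_Dk hμ0 hμ1 hy.2)
    rw [← tendsto_add_atTop_iff_nat 1]
    have h2 := (e.tendsto_Dk hμ0 hμ1 hx.2).const_mul (e.J x)
    rw [mul_zero] at h2
    exact h2.congr fun k => (e.Dk_f k x).symm
  rw [h1]
  exact hy

theorem Ku_symm [T2Space M] [CompactSpace M] [T2Space B] (hP : e.Proj) {C μ : ℝ}
    (hμ0 : 0 < μ) (hμ1 : μ < 1)
    (h : ∀ b ∈ Function.periodicPts e.g, ∃ u, e.p u = b ∧ ∀ k, e.Dk k u ≤ C * μ ^ k)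
    {x : M} (hx : x ∈ e.Ku C μ) : e.f.symm x ∈ e.Ku C μ := by
  obtain ⟨y, hy, hyx⟩ := e.exists_Ku hP h (e.Per_symm hx.1)
  have h1 : e.f.symm x = y := by
    refine e.unique hP (by rw [e.p_symm, hyx]) ?_ (e.tendsto_Dk hμ0 hμ1 hy.2)
    have h2 := ((e.tendsto_Dk hμ0 hμ1 hx.2).comp (tendsto_add_atTop_nat 1)).const_mul
      (e.J (e.f.symm x))⁻¹
    rw [mul_zero] at h2
    refine h2.congr fun k => ?_
    have h3 := e.Dk_f k (e.f.symm x)
    rw [e.f.apply_symm_apply] at h3
    rw [Function.comp_apply, h3, inv_mul_cancel_left₀ (e.J_pos _).ne']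
  rw [h1]
  exact hy

theorem iterate_mem {S : Set M} {f : M → M} (hS : ∀ x ∈ S, f x ∈ S) {x : M} (hx : x ∈ S) (k : ℕ) :
    f^[k] x ∈ S := by
  induction k with
  | zero => exact hx
  | succ k ih =>
    rw [Function.iterate_succ_apply']
    exact hS _ ih

/-- **The recurrent points.** -/
theorem recurrent_mem [T2Space M] [CompactSpace M] [T2Space B] (hP : e.Proj) {C μ : ℝ}
    (hμ0 : 0 < μ) (hμ1 : μ < 1)
    (hu : ∀ b ∈ Function.periodicPts e.g, ∃ u, e.p u = b ∧ ∀ k, e.Dk k u ≤ C * μ ^ k)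
    (hs : ∀ b ∈ Function.periodicPts e.symm.g, ∃ u, e.symm.p u = b ∧
      ∀ k, e.symm.Dk k u ≤ C * μ ^ k)
    {x : M} (hx : OmSt.Recurrent e.f x) (hxp : e.p x ∈ e.Per) :
    x ∈ e.Ku C μ ∪ e.symm.Ku C μ := by
  obtain ⟨u, huK, hux⟩ := e.exists_Ku hP hu hxp
  have hxp' : e.p x ∈ e.symm.Per := by
    change e.p x ∈ closure (Function.periodicPts e.g.symm)
    rw [periodic_symm]
    exact hxp
  obtain ⟨s, hsK, hsx⟩ := e.symm.exists_Ku hP.symm hs hxp'
  have hsx : e.p s = e.p x := hsx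
  by_cases hxs : x = s
  · right
    rw [hxs]
    exact hsK
  left
  have hch : 0 < e.ch x s := lt_of_le_of_ne (e.ch_nonneg hsx.symm) fun h =>
    hxs (e.eq_of_ch hsx.symm h.symm)
  -- the forward derivatives at `s`
  have hJs : ∀ k, 1 ≤ C * μ ^ k * e.Jk k s := by
    intro k
    have h1 := hsK.2 k
    have h2 : e.symm.Dk k s = (e.Jk k s)⁻¹ := by
      unfold Dk Jk
      rw [← Finset.prod_inv_distrib]
      refine Finset.prod_congr rfl fun j _ => ?_
      change (e.J (e.f.symm (e.f.symm.symm^[j + 1] s)))⁻¹ = _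
      have e1 : e.f.symm.symm^[j + 1] s = e.f (e.f^[j] s) := by
        change e.f^[j + 1] s = _
        rw [Function.iterate_succ_apply']
      rw [e1, e.f.symm_apply_apply]
    rw [h2, inv_le_iff_one_le_mul₀ (e.Jk_pos k s)] at h1
    exact h1
  have hJu : ∀ k, e.Jk k u ≤ C * μ ^ k := by
    intro k
    rw [Jk_eq_Dk]
    exact (iterate_mem (fun x hx => e.Ku_f hP hμ0 hμ1 hu hx) huK k).2 k
  have hC0 : 0 ≤ C := by
    have := hJu 0
    have h0 := e.Jk_pos 0 u
    rw [pow_zero, mul_one] at this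
    linarith
  -- the distance to the orbit of `u`
  have hdist : ∀ k, e.ch (e.f^[k] u) (e.f^[k] x) ≤ C * μ ^ k / e.ch x s * e.ch u x := by
    intro k
    have h1 := e.ch_iter hP hsx.symm k
    have h2 := e.ch_le_one (e.p_iter hsx.symm k)
    rw [h1] at h2
    have h3 := e.ch_iter hP hux k
    rw [h3]
    have hJx : 0 < √(e.Jk k x) := sqrt_pos.2 (e.Jk_pos k x)
    have hJs' : 0 < √(e.Jk k s) := sqrt_pos.2 (e.Jk_pos k s)
    have hCk : 0 ≤ C * μ ^ k := by positivity
    have h4 : 1 ≤ √(C * μ ^ k) * √(e.Jk k s) := by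
      rw [← sqrt_mul hCk]
      exact one_le_sqrt.2 (hJs k)
    have h5 : √(e.Jk k x) * e.ch x s ≤ √(C * μ ^ k) := by
      have h6 : √(e.Jk k x) * e.ch x s * 1 ≤
          √(e.Jk k x) * e.ch x s * (√(C * μ ^ k) * √(e.Jk k s)) := by gcongr
      have h7 : √(e.Jk k x) * e.ch x s * (√(C * μ ^ k) * √(e.Jk k s)) =
          √(C * μ ^ k) * (√(e.Jk k x) * √(e.Jk k s) * e.ch x s) := by ring
      have h8 : √(C * μ ^ k) * (√(e.Jk k x) * √(e.Jk k s) * e.ch x s) ≤ √(C * μ ^ k) * 1 := by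
        gcongr
      linarith
    have h6 : √(e.Jk k x) ≤ √(C * μ ^ k) / e.ch x s := by
      rw [le_div_iff₀ hch]
      exact h5
    have h7 : √(e.Jk k u) ≤ √(C * μ ^ k) := sqrt_le_sqrt (hJu k)
    have h8 : 0 ≤ e.ch u x := e.ch_nonneg hux
    calc √(e.Jk k u) * √(e.Jk k x) * e.ch u x
        ≤ √(C * μ ^ k) * (√(C * μ ^ k) / e.ch x s) * e.ch u x := by gcongr
      _ = (√(C * μ ^ k) * √(C * μ ^ k)) / e.ch x s * e.ch u x := by ring
      _ = _ := by rw [mul_self_sqrt hCk]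
  have hlim : Tendsto (fun k => e.ch (e.f^[k] u) (e.f^[k] x)) atTop (𝓝 0) := by
    have h1 : Tendsto (fun k : ℕ => C * μ ^ k / e.ch x s * e.ch u x) atTop
        (𝓝 (C * 0 / e.ch x s * e.ch u x)) :=
      (((tendsto_pow_atTop_nhds_zero_of_lt_one hμ0.le hμ1).const_mul C).div_const _).mul_const _
    rw [mul_zero, zero_div, zero_mul] at h1
    exact squeeze_zero (fun k => e.ch_nonneg (e.p_iter hux k)) hdist h1
  -- small rotations
  have hrot : ∀ k, ∃ t, e.ρ t (e.f^[k] u) = e.f^[k] x ∧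
      |t| = arcsin (e.ch (e.f^[k] u) (e.f^[k] x)) := by
    intro k
    obtain ⟨t, ht⟩ := (e.fib _ _).1 (e.p_iter hux k)
    have h1 := e.ch_eq ht
    set t' := toIocMod pi_pos (-(π / 2)) t with ht'
    have h2 := toIocMod_mem_Ioc pi_pos (-(π / 2)) t
    have h3 := toIocMod_add_toIocDiv_zsmul pi_pos (-(π / 2)) t
    rw [zsmul_eq_mul] at h3
    have h4 : t = t' + (toIocDiv pi_pos (-(π / 2)) t : ℤ) * π := h3.symm
    have h5 : e.ρ t' (e.f^[k] u) = e.f^[k] x := by
      rw [← ht]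
      conv_rhs => rw [h4]
      rw [e.ρ_add_int]
    refine ⟨t', h5, ?_⟩
    rw [e.ch_eq h5]
    have h6 : t' ∈ Ioc (-(π / 2)) (-(π / 2) + π) := h2
    have h7 : |t'| ≤ π / 2 := by
      rw [abs_le]
      exact ⟨h6.1.le, by linarith [h6.2]⟩
    have h8 : |sin t'| = sin |t'| := by
      rcases le_total 0 t' with h | h
      · rw [abs_of_nonneg h, abs_of_nonneg]
        exact sin_nonneg_of_nonneg_of_le_pi h (by linarith [h6.2, pi_pos])
      · rw [abs_of_nonpos h, sin_neg, abs_of_nonpos]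
        exact sin_nonpos_of_nonpos_of_neg_pi_le h (by linarith [h6.1, pi_pos])
    rw [h8, arcsin_sin (by linarith [abs_nonneg t', pi_pos]) h7]
  choose t ht ht' using hrot
  have htlim : Tendsto t atTop (𝓝 0) := by
    rw [tendsto_zero_iff_abs_tendsto_zero]
    have h1 : Tendsto (fun k => arcsin (e.ch (e.f^[k] u) (e.f^[k] x))) atTop (𝓝 (arcsin 0)) :=
      (continuous_arcsin.tendsto 0).comp hlim
    rw [arcsin_zero] at h1
    exact h1.congr fun k => (ht' k).symm
  -- a limit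
  have hclus : MapClusterPt x atTop (fun k => e.f^[k] x) := by
    rw [mapClusterPt_iff_frequently]
    intro V hV
    rw [frequently_atTop]
    intro N
    obtain ⟨n, hn, hnV⟩ := hx V hV N
    exact ⟨n, hn, hnV⟩
  rw [mapClusterPt_iff_ultrafilter] at hclus
  obtain ⟨U, hU, hUx⟩ := hclus
  have hK : IsCompact (e.Ku C μ) := (e.isClosed_Ku hP C μ).isCompact
  obtain ⟨u', hu', hUu⟩ := hK.ultrafilter_le_nhds (U.map fun k => e.f^[k] u) (by
    rw [Ultrafilter.coe_map, le_principal_iff, mem_map]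
    exact Eventually.of_forall fun k =>
      iterate_mem (fun x hx => e.Ku_f hP hμ0 hμ1 hu hx) huK k)
  have hUu' : Tendsto (fun k => e.f^[k] u) U (𝓝 u') := hUu
  have h1 : Tendsto (fun k => e.ρ (t k) (e.f^[k] u)) U (𝓝 (e.ρ 0 u')) :=
    (e.cont.tendsto _).comp ((htlim.mono_left hU).prodMk_nhds hUu')
  rw [e.zero] at h1
  have h2 : (fun k => e.ρ (t k) (e.f^[k] u)) = fun k => e.f^[k] x := funext ht
  rw [h2] at h1
  rw [tendsto_nhds_unique hUx h1]
  exact hu'

end Ext

end PCE
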