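import Pool.Agent.PCE.Defs

/-!
# Hyperbolic sets of the inverse
-/

open Set Filter Topology Manifold ContDiff Metric

namespace OmSt

variable {E : Type*} [NormedAddCommGroup E] [NormedSpace ℝ E] [FiniteDimensional ℝ E]
  {M : Type*} [MetricSpace M] [CompactSpace M] [ChartedSpace E M] [IsManifold 𝓘(ℝ, E) ∞ M]
  {r : ℕ∞}

/-- The complementary field of a field of endomorphisms of `E`. -/
def cfield (P : M → E →L[ℝ] E) (x : M) : E →L[ℝ] E := 1 - P x

/-- The complementary field of projections is continuous. -/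
theorem ContinuousField.one_sub {P : M → E →L[ℝ] E} {Λ : Set M}
    (hP : ContinuousField (E := E) (M := M) P Λ) :
    ContinuousField (E := E) (M := M) (cfield P) Λ := by
  intro b hb
  have h1 := ((continuousWithinAt_hom_bundle (RingHom.id ℝ) _).1 (hP b hb)).2
  let P' : M → E →L[ℝ] E := fun y =>
    ContinuousLinearMap.inCoordinates E (fun x : M => TangentSpace 𝓘(ℝ, E) x) E
    (fun x : M => TangentSpace 𝓘(ℝ, E) x) b y b y (P y)
  let Q' : M → E →L[ℝ] E := fun y =>
    ContinuousLinearMap.inCoordinates E (fun x : M => TangentSpace 𝓘(ℝ, E) x) E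
    (fun x : M => TangentSpace 𝓘(ℝ, E) x) b y b y (1 - P y : E →L[ℝ] E)
  have h2 : ContinuousWithinAt P' Λ b := h1
  have key : ∀ y ∈ (chartAt E b).source, Q' y = 1 - P' y := by
    intro y hys
    have h4 : (Dc b y : E →L[ℝ] E) * P y * (Dc' b y : E →L[ℝ] E) = P' y := by
      rw [← cla_eq hys, ← sym_eq hys]
      rfl
    have h5 : (Dc b y : E →L[ℝ] E) * (1 - P y) * (Dc' b y : E →L[ℝ] E) = Q' y := by
      rw [← cla_eq hys, ← sym_eq hys]
      rfl
    rw [← h4, ← h5, mul_sub, sub_mul, mul_one, (Dc_mul hys).1]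
  have h3 : ContinuousWithinAt Q' Λ b := by
    have h6 : ContinuousWithinAt (fun y => 1 - P' y) Λ b := continuousWithinAt_const.sub h2
    refine h6.congr_of_eventuallyEq ?_ (key b (mem_chart_source E b))
    filter_upwards [mem_nhdsWithin_of_mem_nhds
      ((chartAt E b).open_source.mem_nhds (mem_chart_source E b))] with y hy using key y hy
  exact (continuousWithinAt_hom_bundle (RingHom.id ℝ) _).2 ⟨continuousWithinAt_id, h3⟩

/-- Hyperbolic sets of the inverse. -/
theorem IsHyperbolicSet.of_symm (hr : 1 ≤ r) (f : Dyn E M r) {K : Set M} (hK : IsClosed K)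
    (hf : ∀ x ∈ K, f x ∈ K) (hf' : ∀ x ∈ K, f.symm x ∈ K)
    (h : IsHyperbolicSet f.symm K) : IsHyperbolicSet f K := by
  obtain ⟨P, h1, h2, h3, h4, h5⟩ := h
  let P₁ : M → E →L[ℝ] E := P
  let Q : M → E →L[ℝ] E := cfield P₁
  have hst : ∀ x, stableSp (E := E) (M := M) Q x = unstableSp P x := by
    intro x
    ext v
    let v₀ : E := v
    change (v₀ - P₁ x v₀ : E) = v₀ ↔ P₁ x v₀ = 0
    exact sub_eq_self
  have hun : ∀ x, unstableSp (E := E) (M := M) Q x = stableSp P x := by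
    intro x
    ext v
    let v₀ : E := v
    change (v₀ - P₁ x v₀ : E) = 0 ↔ P₁ x v₀ = v₀
    rw [sub_eq_zero]
    exact eq_comm
  have himg : ∀ x ∈ K, ∀ (V V' : Set E), (D f.symm (f x) : E →L[ℝ] E) '' V = V' →
      (D f x : E →L[ℝ] E) '' V' = V := by
    intro x hx V V' hVV
    rw [← hVV, Set.image_image]
    have h6 := (D_symm_mul f hr x).2
    have h7 : ∀ v : E, (D f x : E →L[ℝ] E) ((D f.symm (f x) : E →L[ℝ] E) v) = v := by
      intro v
      have := congrArg (fun T : E →L[ℝ] E => T v) h6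
      exact this
    simp only [h7, Set.image_id']
  refine ⟨Q, fun x hx v => ?_, ContinuousField.one_sub h2, fun x hx => ?_, fun x hx => ?_,
    fun γ => ?_⟩
  · let v₀ : E := v
    change ((v₀ - P₁ x v₀) - P₁ x (v₀ - P₁ x v₀) : E) = v₀ - P₁ x v₀
    have h6 : P₁ x (P₁ x v₀) = P₁ x v₀ := h1 x hx v
    rw [map_sub, h6, sub_self, sub_zero]
  · rw [hst, hst]
    have h6 := h4 (f x) (hf x hx)
    rw [f.symm_apply_apply] at h6
    exact himg x hx _ _ h6
  · rw [hun, hun]
    have h6 := h3 (f x) (hf x hx)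
    rw [f.symm_apply_apply] at h6
    exact himg x hx _ _ h6
  · obtain ⟨c, hc, μ, hμ0, hμ1, h6⟩ := h5 γ
    refine ⟨c, hc, μ, hμ0, hμ1, fun x hx => ?_⟩
    rw [hst, hun]
    exact ⟨(h6 x hx).2, (h6 x hx).1⟩

end OmSt
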