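import Pool.Agent.PCE.Star
import Pool.Agent.PCE.Symm
import Pool.Agent.PCE.Ext

/-!
# Projective circle extensions: the main theorem
-/

open Set Filter Topology Manifold ContDiff Metric

namespace OmSt

variable {E : Type*} [NormedAddCommGroup E] [NormedSpace ℝ E] [FiniteDimensional ℝ E]
  {M : Type*} [MetricSpace M] [CompactSpace M] [ChartedSpace E M] [IsManifold 𝓘(ℝ, E) ∞ M]
  {E' : Type*} [NormedAddCommGroup E'] [NormedSpace ℝ E'] [FiniteDimensional ℝ E']
  {B : Type*} [MetricSpace B] [CompactSpace B] [ChartedSpace E' B] [IsManifold 𝓘(ℝ, E') ∞ B]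
  {r : ℕ∞}

/-- The condition on the base: recurrent points are limits of periodic points, and their orbit
closures are hyperbolic. -/
def HypBase (g : Dyn E' B r) : Prop :=
  ∀ b, Recurrent g b → b ∈ closure (Function.periodicPts g) ∧
    IsHyperbolicSet g (closure (range fun n : ℕ => g^[n] b))

omit [FiniteDimensional ℝ E'] in
theorem hypBase_of_axiomA (g : Dyn E' B r) (hg : AxiomA g) : HypBase g := by
  intro b hb
  have hbΩ : b ∈ nonwandering g := mem_nonwandering_of_recurrent hb
  refine ⟨hg.2 hbΩ, hg.1.mono ?_⟩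
  have e1 : closure (range fun n : ℕ => g^[n] b) = omegaL g b :=
    closure_orbit_eq (f := g.toHomeomorph) hb
  rw [e1]
  exact omegaL_subset_nonwandering g b

theorem inv_closure_orbit {X : Type*} [MetricSpace X] [CompactSpace X] (f : X ≃ₜ X) {x : X}
    (hx : Recurrent f x) :
    (∀ y ∈ closure (range fun n : ℕ => f^[n] x), f y ∈ closure (range fun n : ℕ => f^[n] x)) ∧
      ∀ y ∈ closure (range fun n : ℕ => f^[n] x),
        f.symm y ∈ closure (range fun n : ℕ => f^[n] x) := by
  rw [closure_orbit_eq hx]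
  have h := omegaL_zinv f x
  constructor
  · intro y hy
    have := h y hy 1
    have e1 : zi f.toEquiv 1 y = f y := by
      have := zi_nat f.toEquiv 1 y
      simpa using this
    rwa [e1] at this
  · intro y hy
    have := h y hy (-1)
    have e1 : zi f.toEquiv (-1) y = f.symm y := by
      have := zi_neg f.toEquiv 1 y
      simpa using this
    rwa [e1] at this

/-- **The metric version of the theorem on projective circle extensions.** -/
theorem projective_main (hr : 1 ≤ r) (P : CircleBundle E M E' B) (f : Dyn E M r) (g : Dyn E' B r)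
    (hcov : ∀ x, P.p (f x) = g (P.p x)) (hP : P.Projective f) (hg : HypBase g)
    (hf : OmegaStable f) : AxiomA f := by
  refine (main_metric3 hr f hf).2 fun x hx _ => ?_
  obtain ⟨N, hN, hfN, hconj⟩ := hf
  have hS : Stab N := ⟨hN, fun g hg g' hg' =>
    ((hconj g hg).symm (Dyn.isOpenMap f) f.continuous).trans (Dyn.isOpenMap f) f.continuous
      (hconj g' hg')⟩
  obtain ⟨ε, hε, hstar⟩ := P.exists_star hr hS hfN g hcov hP
  set e := P.mkExt hr f g hcov hP with he
  have hproj : e.Proj := P.mkExt_proj hr f g hcov hP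
  -- the bounds
  have hJc : Continuous e.J := e.continuous_J hproj
  obtain ⟨R, hR, hJR, hJR'⟩ : ∃ R > 0, (∀ y, e.J y ≤ R) ∧ ∀ y, e.symm.J y ≤ R := by
    have hJc' : Continuous e.symm.J := e.symm.continuous_J hproj.symm
    obtain ⟨a, ha⟩ := (isCompact_univ.image hJc).bddAbove
    obtain ⟨b, hb⟩ := (isCompact_univ.image hJc').bddAbove
    refine ⟨max 1 (max a b), lt_of_lt_of_le one_pos (le_max_left _ _), fun y => ?_, fun y => ?_⟩
    · exact (ha ⟨y, mem_univ _, rfl⟩).trans ((le_max_left _ _).trans (le_max_right _ _))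
    · exact (hb ⟨y, mem_univ _, rfl⟩).trans ((le_max_right _ _).trans (le_max_right _ _))
  set θ := min (ε / 2) 1 with hθ
  have hθ0 : 0 < θ := lt_min (half_pos hε) one_pos
  have hθε : θ < ε := (min_le_left _ _).trans_lt (half_lt_self hε)
  have hθπ : θ < Real.pi / 2 := (min_le_right _ _).trans_lt (by linarith [Real.pi_gt_three])
  set C := PCE.CC θ R with hC
  set μ := PCE.lam θ with hμ
  have hμ0 : 0 < μ := PCE.lam_pos hθ0 hθπ
  have hμ1 : μ < 1 := PCE.lam_lt_one hθ0 hθπ
  have hu : ∀ b ∈ Function.periodicPts e.g, ∃ u, e.p u = b ∧ ∀ k, e.Dk k u ≤ C * μ ^ k :=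
    fun b hb => e.attr hproj hR hJR hstar hθ0 hθε hb
  have hs : ∀ b ∈ Function.periodicPts e.symm.g, ∃ u, e.symm.p u = b ∧
      ∀ k, e.symm.Dk k u ≤ C * μ ^ k :=
    fun b hb => e.symm.attr hproj.symm hR hJR' hstar.symm hθ0 hθε hb
  -- the base
  have hbrec : Recurrent g (P.p x) := by
    intro U hU n
    obtain ⟨m, hm, hmU⟩ := hx (P.p ⁻¹' U)
      (P.p_smooth.continuous.continuousAt.preimage_mem_nhds hU) n
    refine ⟨m, hm, ?_⟩
    have := e.cov_iter m x
    change g^[m] (P.p x) ∈ U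
    have h2 : P.p (f^[m] x) = g^[m] (P.p x) := this
    rw [← h2]
    exact hmU
  obtain ⟨hbper, hbhyp⟩ := hg (P.p x) hbrec
  set K := closure (range fun n : ℕ => f^[n] x) with hK
  have hKcl : IsClosed K := isClosed_closure
  obtain ⟨hKf, hKf'⟩ := inv_closure_orbit f.toHomeomorph hx
  have hKf : ∀ y ∈ K, f y ∈ K := hKf
  have hKf' : ∀ y ∈ K, f.symm y ∈ K := hKf'
  have hKB : P.p '' K ⊆ closure (range fun n : ℕ => g^[n] (P.p x)) := by
    rintro _ ⟨y, hy, rfl⟩
    refine map_mem_closure P.p_smooth.continuous hy ?_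
    rintro _ ⟨n, rfl⟩
    exact ⟨n, (e.cov_iter n x).symm⟩
  have hBK : IsHyperbolicSet g (P.p '' K) := hbhyp.mono hKB
  have hmem := e.recurrent_mem hproj hμ0 hμ1 hu hs hx hbper
  rcases hmem with hxK | hxK
  · -- vertical contraction
    have hKu : K ⊆ e.Ku C μ := by
      refine closure_minimal ?_ (e.isClosed_Ku hproj C μ)
      rintro _ ⟨n, rfl⟩
      exact PCE.Ext.iterate_mem (fun y hy => e.Ku_f hproj hμ0 hμ1 hu hy) hxK n
    refine P.isHyperbolicSet hr f g hcov hKcl hKf hKf' e.J e.J_pos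
      (P.mkExt_D hr f g hcov hP) hμ0 hμ1 (C := C) (fun y hy k => ?_) hBK
    have h1 := e.Jk_eq_Dk k y
    have h2 := (PCE.Ext.iterate_mem (fun y hy => e.Ku_f hproj hμ0 hμ1 hu hy) (hKu hy) k).2 k
    exact h1.trans_le h2
  · -- vertical expansion
    have hKu : K ⊆ e.symm.Ku C μ := by
      refine closure_minimal ?_ (e.symm.isClosed_Ku hproj.symm C μ)
      rintro _ ⟨n, rfl⟩
      refine PCE.Ext.iterate_mem (f := f) (fun y hy => ?_) hxK n
      have := e.symm.Ku_symm hproj.symm hμ0 hμ1 hs hy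
      exact this
    refine IsHyperbolicSet.of_symm hr f hKcl hKf hKf' ?_
    have hcov' : ∀ y, P.p (f.symm y) = g.symm (P.p y) := e.p_symm
    have hBK' : IsHyperbolicSet g.symm (P.p '' K) := by
      refine IsHyperbolicSet.of_symm hr g.symm (hKcl.isCompact.image
        P.p_smooth.continuous).isClosed ?_ ?_ hBK
      · rintro _ ⟨y, hy, rfl⟩
        exact ⟨f.symm y, hKf' y hy, hcov' y⟩
      · rintro _ ⟨y, hy, rfl⟩
        exact ⟨f y, hKf y hy, hcov y⟩
    refine P.isHyperbolicSet hr f.symm g.symm hcov' hKcl hKf' hKf e.symm.J e.symm.J_pos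
      (fun y => ?_) hμ0 hμ1 (C := C) (fun y hy k => ?_) hBK'
    · -- the derivative of the inverse
      have h1 := P.mkExt_D hr f g hcov hP (f.symm y)
      have h2 := (D_symm_mul f hr (f.symm y)).1
      rw [f.apply_symm_apply] at h1 h2
      have h3 : (D f.symm y : E →L[ℝ] E) ((D f (f.symm y) : E →L[ℝ] E) (P.X (f.symm y))) =
          P.X (f.symm y) := congrArg (fun L : E →L[ℝ] E => L (P.X (f.symm y))) h2
      rw [h1, map_smul] at h3
      have hJne : e.J (f.symm y) ≠ 0 := (e.J_pos _).ne'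
      change (D f.symm y : E →L[ℝ] E) (P.X y) = (e.J (f.symm y))⁻¹ • P.X (f.symm y)
      rw [← h3, smul_smul, inv_mul_cancel₀ hJne, one_smul]
    · have h1 := e.symm.Jk_eq_Dk k y
      have h2 := (PCE.Ext.iterate_mem (fun y hy => e.symm.Ku_f hproj.symm hμ0 hμ1 hs hy)
        (hKu hy) k).2 k
      exact h1.trans_le h2

end OmSt
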