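import Mathlib

/-!
# Periodic sequences of lifts of circle diffeomorphisms, pushed by a constant
-/

open Set Filter Topology Real

namespace PCE

theorem exists_neg_pos_aux {d : ℝ → ℝ} {a s : ℝ} (hd : HasDerivAt d a s) (h0 : d s = 0)
    (ha : a < 0) : ∃ t₁ t₂, d t₁ < 0 ∧ 0 < d t₂ := by
  have h3 : ∀ᶠ t in 𝓝[≠] (0 : ℝ), t⁻¹ • (d (s + t) - d s) < 0 :=
    hd.tendsto_slope_zero.eventually (gt_mem_nhds ha)
  rw [eventually_nhdsWithin_iff, Metric.eventually_nhds_iff] at h3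
  obtain ⟨η, hη, h4⟩ := h3
  have e1 : dist (η / 2) 0 < η := by
    rw [dist_zero_right, Real.norm_eq_abs, abs_of_pos (by linarith)]
    linarith
  have e2 : dist (-(η / 2)) 0 < η := by
    rw [dist_zero_right, Real.norm_eq_abs, abs_neg, abs_of_pos (by linarith)]
    linarith
  have h5 := h4 e1 (by simp; linarith)
  have h6 := h4 e2 (by simp; linarith)
  rw [h0, sub_zero, smul_eq_mul] at h5 h6
  refine ⟨s + η / 2, s + -(η / 2), ?_, ?_⟩
  · have h7 : 0 < (η / 2)⁻¹ := by positivity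
    by_contra hc
    push Not at hc
    have := mul_nonneg h7.le hc
    linarith
  · have h7 : (-(η / 2))⁻¹ < 0 := by
      rw [inv_lt_zero]
      linarith
    by_contra hc
    push Not at hc
    have := mul_nonneg_of_nonpos_of_nonpos h7.le hc
    linarith

theorem exists_neg_pos {d : ℝ → ℝ} {a s : ℝ} (hd : HasDerivAt d a s) (h0 : d s = 0)
    (ha : a ≠ 0) : ∃ t₁ t₂, d t₁ < 0 ∧ 0 < d t₂ := by
  rcases lt_or_gt_of_ne ha with h | h
  · exact exists_neg_pos_aux hd h0 h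
  · obtain ⟨t₁, t₂, h1, h2⟩ := exists_neg_pos_aux (d := fun t => - d t) hd.neg
      (by simp [h0]) (by linarith)
    exact ⟨t₂, t₁, by linarith, by linarith⟩

/-- An `n`-periodic sequence of lifts of orientation preserving diffeomorphisms of the circle
`ℝ / πℤ`. -/
structure Cyc where
  n : ℕ
  n_pos : 0 < n
  Φ : ℕ → ℝ → ℝ
  J : ℕ → ℝ → ℝ
  per_Φ : ∀ i, Φ (i + n) = Φ i
  per_J : ∀ i, J (i + n) = J i
  mono : ∀ i, StrictMono (Φ i)
  deg : ∀ i s, Φ i (s + π) = Φ i s + π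
  deriv : ∀ i s, HasDerivAt (Φ i) (J i s) s
  J_pos : ∀ i s, 0 < J i s

namespace Cyc

variable (c : Cyc)

theorem cont (i : ℕ) : Continuous (c.Φ i) :=
  continuous_iff_continuousAt.2 fun s => (c.deriv i s).continuousAt

/-- the composition of the first `N` maps, pushed by `θ`. -/
noncomputable def G (θ : ℝ) : ℕ → ℝ → ℝ
  | 0, s => s
  | (i + 1), s => c.Φ i (G θ i s) + θ

/-- the derivative of `G`. -/
noncomputable def Jn (θ : ℝ) (N : ℕ) (s : ℝ) : ℝ := ∏ i ∈ Finset.range N, c.J i (c.G θ i s)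

@[simp] theorem G_zero (θ s : ℝ) : c.G θ 0 s = s := rfl

theorem G_succ (θ : ℝ) (i : ℕ) (s : ℝ) : c.G θ (i + 1) s = c.Φ i (c.G θ i s) + θ := rfl

theorem deg_int (i : ℕ) (s : ℝ) (k : ℤ) : c.Φ i (s + k * π) = c.Φ i s + k * π := by
  induction k using Int.induction_on with
  | zero => simp
  | succ m ih =>
    have h1 := c.deg i (s + m * π)
    have e1 : s + ((m + 1 : ℤ) : ℝ) * π = s + m * π + π := by push_cast; ring
    rw [e1, h1]
    have ih' : c.Φ i (s + (m : ℝ) * π) = c.Φ i s + (m : ℝ) * π := by exact_mod_cast ih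
    rw [ih']
    push_cast
    ring
  | pred m ih =>
    have h1 := c.deg i (s + ((-(m : ℤ) - 1 : ℤ) : ℝ) * π)
    have e1 : s + ((-(m : ℤ) - 1 : ℤ) : ℝ) * π + π = s + ((-(m : ℤ) : ℤ) : ℝ) * π := by
      push_cast; ring
    rw [e1, ih] at h1
    have : c.Φ i (s + ((-(m : ℤ) - 1 : ℤ) : ℝ) * π) = c.Φ i s + ((-(m : ℤ) : ℤ) : ℝ) * π - π := by
      linarith
    rw [this]
    push_cast
    ring

theorem G_deg (θ : ℝ) (N : ℕ) (s : ℝ) (k : ℤ) :
    c.G θ N (s + k * π) = c.G θ N s + k * π := by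
  induction N with
  | zero => rfl
  | succ N ih => rw [G_succ, G_succ, ih, deg_int]; ring

theorem G_cont (N : ℕ) : Continuous fun q : ℝ × ℝ => c.G q.1 N q.2 := by
  induction N with
  | zero => exact continuous_snd
  | succ N ih => exact ((c.cont N).comp ih).add continuous_fst

theorem G_mono (θ : ℝ) (N : ℕ) : StrictMono (c.G θ N) := by
  induction N with
  | zero => exact strictMono_id
  | succ N ih =>
    intro s t hst
    rw [G_succ, G_succ]
    have := c.mono N (ih hst)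
    linarith

theorem G_le (θ θ' : ℝ) (h : θ ≤ θ') (N : ℕ) (s : ℝ) : c.G θ N s ≤ c.G θ' N s := by
  induction N with
  | zero => exact le_rfl
  | succ N ih =>
    rw [G_succ, G_succ]
    have := (c.mono N).monotone ih
    linarith

theorem G_push (θ θ' : ℝ) (h : θ ≤ θ') (N : ℕ) (s : ℝ) :
    c.G θ (N + 1) s + (θ' - θ) ≤ c.G θ' (N + 1) s := by
  rw [G_succ, G_succ]
  have := (c.mono N).monotone (c.G_le θ θ' h N s)
  linarith

theorem G_hasDerivAt (θ : ℝ) (N : ℕ) (s : ℝ) : HasDerivAt (c.G θ N) (c.Jn θ N s) s := by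
  induction N with
  | zero =>
    have e1 : c.Jn θ 0 s = 1 := by simp [Jn]
    rw [e1]
    exact hasDerivAt_id' s
  | succ N ih =>
    have h := ((c.deriv N (c.G θ N s)).comp s ih).add_const θ
    unfold Jn at ih ⊢
    rw [Finset.prod_range_succ, mul_comm]
    exact h

theorem per_Φ_mul (i m : ℕ) : c.Φ (i + m * c.n) = c.Φ i := by
  induction m with
  | zero => simp
  | succ m ih => rw [Nat.succ_mul, ← add_assoc, c.per_Φ, ih]

theorem per_J_mul (i m : ℕ) : c.J (i + m * c.n) = c.J i := by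
  induction m with
  | zero => simp
  | succ m ih => rw [Nat.succ_mul, ← add_assoc, c.per_J, ih]

theorem G_add (θ : ℝ) (m N : ℕ) (s : ℝ) :
    c.G θ (m * c.n + N) s = c.G θ N (c.G θ (m * c.n) s) := by
  induction N with
  | zero => rfl
  | succ N ih =>
    rw [← add_assoc, G_succ, G_succ, ih, add_comm (m * c.n) N, per_Φ_mul]

/-- The orbits of the pushed maps which close up after a multiple of the period are hyperbolic. -/
def Star (ε : ℝ) : Prop :=
  ∀ θ, |θ| < ε → ∀ m > 0, ∀ (s : ℝ) (k : ℤ), c.G θ (m * c.n) s = s + k * π →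
    c.Jn θ (m * c.n) s ≠ 1

/-- Pigeonhole: some multiple of the period brings some point back up to `δ`. -/
theorem exists_close (θ : ℝ) {δ : ℝ} (hδ : 0 < δ) :
    ∃ m > 0, ∃ (k : ℤ) (s : ℝ), |c.G θ (m * c.n) s - (s + k * π)| ≤ δ := by
  -- the points `G (j n) 0` modulo `π`
  have hcomp : IsCompact (Icc (0 : ℝ) π) := isCompact_Icc
  let t : ℕ → ℝ := fun j => toIcoMod pi_pos 0 (c.G θ (j * c.n) 0)
  have ht : ∀ j, t j ∈ Icc (0 : ℝ) π := by
    intro j
    have h := toIcoMod_mem_Ico pi_pos 0 (c.G θ (j * c.n) 0)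
    rw [zero_add] at h
    exact ⟨h.1, h.2.le⟩
  obtain ⟨a, -, φ, hφ, hlim⟩ := hcomp.tendsto_subseq ht
  rw [Metric.tendsto_atTop] at hlim
  obtain ⟨N, hN⟩ := hlim (δ / 2) (half_pos hδ)
  have h1 := hN N le_rfl
  have h2 := hN (N + 1) (Nat.le_succ N)
  have hlt : φ N < φ (N + 1) := hφ (Nat.lt_succ_self N)
  have h3 : |t (φ (N + 1)) - t (φ N)| ≤ δ := by
    have h4 := dist_triangle_right (t (φ (N + 1))) (t (φ N)) a
    rw [← Real.dist_eq]
    have h1' : dist (t (φ N)) a < δ / 2 := h1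
    have h2' : dist (t (φ (N + 1))) a < δ / 2 := h2
    linarith
  refine ⟨φ (N + 1) - φ N, by omega, ?_⟩
  set s := c.G θ (φ N * c.n) 0 with hs
  have e1 : c.G θ ((φ (N + 1) - φ N) * c.n) s = c.G θ (φ (N + 1) * c.n) 0 := by
    rw [hs, ← G_add, ← add_mul]
    congr 2
    omega
  have hk : ∀ j, ∃ k : ℤ, c.G θ (j * c.n) 0 = t j + k * π := by
    intro j
    refine ⟨toIcoDiv pi_pos 0 (c.G θ (j * c.n) 0), ?_⟩
    have := toIcoMod_add_toIcoDiv_zsmul pi_pos 0 (c.G θ (j * c.n) 0)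
    rw [zsmul_eq_mul] at this
    exact this.symm
  obtain ⟨k₁, hk₁⟩ := hk (φ N)
  obtain ⟨k₂, hk₂⟩ := hk (φ (N + 1))
  refine ⟨k₂ - k₁, s, ?_⟩
  rw [e1, hk₂, hs, hk₁]
  push_cast
  have e2 : t (φ (N + 1)) + k₂ * π - (t (φ N) + k₁ * π + (k₂ - k₁) * π) =
      t (φ (N + 1)) - t (φ N) := by ring
  rw [e2]
  exact h3

/-- **Locking of the rotation number.** -/
theorem lock {ε : ℝ} (hε : 0 < ε) (h : c.Star ε) :
    ∃ m > 0, ∃ k : ℤ, ∀ θ, |θ| < ε → ∃ s, c.G θ (m * c.n) s = s + k * π := by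
  obtain ⟨m, hm, k, s₀, hs₀⟩ := c.exists_close 0 (half_pos hε)
  refine ⟨m, hm, k, ?_⟩
  obtain ⟨N, hN⟩ : ∃ N, m * c.n = N + 1 :=
    ⟨m * c.n - 1, (Nat.succ_pred_eq_of_pos (Nat.mul_pos hm c.n_pos)).symm⟩
  -- some parameter
  have hex : ∃ θ₀, |θ₀| < ε ∧ ∃ s, c.G θ₀ (m * c.n) s = s + k * π := by
    have hc : Continuous fun θ => c.G θ (m * c.n) s₀ :=
      (c.G_cont (m * c.n)).comp (Continuous.prodMk_left s₀)
    rw [abs_le] at hs₀
    have h1 := c.G_push (-(ε / 2)) 0 (by linarith) N s₀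
    have h2 := c.G_push 0 (ε / 2) (by linarith) N s₀
    rw [← hN] at h1 h2
    have h3 : s₀ + k * π ∈ Icc (c.G (-(ε / 2)) (m * c.n) s₀) (c.G (ε / 2) (m * c.n) s₀) := by
      constructor <;> linarith [hs₀.1, hs₀.2]
    obtain ⟨θ, hθ, hθs⟩ := intermediate_value_Icc (by linarith) hc.continuousOn h3
    refine ⟨θ, ?_, s₀, hθs⟩
    rw [abs_lt]
    exact ⟨by linarith [hθ.1], by linarith [hθ.2]⟩
  -- open and closed in the interval
  set A : Set ℝ := {θ | ∃ s, c.G θ (m * c.n) s = s + k * π} with hA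
  have hAclosed : IsClosed A := by
    have e1 : A = Prod.fst '' {q : ℝ × ℝ | q.2 ∈ Icc (0 : ℝ) π ∧
        c.G q.1 (m * c.n) q.2 = q.2 + k * π} := by
      ext θ
      constructor
      · rintro ⟨s, hs⟩
        refine ⟨(θ, toIcoMod pi_pos 0 s), ⟨?_, ?_⟩, rfl⟩
        · have h := toIcoMod_mem_Ico pi_pos 0 s
          rw [zero_add] at h
          exact ⟨h.1, h.2.le⟩
        · have h1 := toIcoMod_add_toIcoDiv_zsmul pi_pos 0 s
          rw [zsmul_eq_mul] at h1
          have h2 : toIcoMod pi_pos 0 s = s + ((-toIcoDiv pi_pos 0 s : ℤ) : ℝ) * π := by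
            push_cast
            linarith
          change c.G θ (m * c.n) (toIcoMod pi_pos 0 s) = toIcoMod pi_pos 0 s + k * π
          rw [h2, G_deg, hs]
          ring
      · rintro ⟨⟨θ', s⟩, ⟨-, hs⟩, rfl⟩
        exact ⟨s, hs⟩
    rw [e1]
    have hcl : IsClosed {q : ℝ × ℝ | q.2 ∈ Icc (0 : ℝ) π ∧
        c.G q.1 (m * c.n) q.2 = q.2 + k * π} :=
      (isClosed_Icc.preimage continuous_snd).inter
        (isClosed_eq (c.G_cont (m * c.n)) (continuous_snd.add continuous_const))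
    rw [← isSeqClosed_iff_isClosed]
    intro u x hu hx
    choose q hq hq1 using hu
    obtain ⟨y, hy, φ, hφ, hlim⟩ := isCompact_Icc.tendsto_subseq (fun j => (hq j).1)
    refine ⟨(x, y), hcl.mem_of_tendsto (b := atTop) (f := fun j => q (φ j)) ?_
      (Eventually.of_forall fun j => hq (φ j)), rfl⟩
    rw [Prod.tendsto_iff]
    refine ⟨?_, hlim⟩
    have : (fun j => (q (φ j)).1) = u ∘ φ := by
      funext j
      exact hq1 (φ j)
    rw [this]
    exact hx.comp hφ.tendsto_atTop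
  have hAopen : ∀ θ ∈ A, |θ| < ε → A ∈ 𝓝 θ := by
    rintro θ ⟨s, hs⟩ hθ
    have hne := h θ hθ m hm s k hs
    have hd := c.G_hasDerivAt θ (m * c.n) s
    -- the displacement takes both signs near `s`
    set d : ℝ → ℝ := fun t => c.G θ (m * c.n) t - (t + k * π) with hdd
    have hd' : HasDerivAt d (c.Jn θ (m * c.n) s - 1) s := by
      have := hd.sub ((hasDerivAt_id s).add_const (k * π))
      exact this
    have hd0 : d s = 0 := by simp only [hdd]; rw [hs]; ring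
    have key : ∃ t₁ t₂, d t₁ < 0 ∧ 0 < d t₂ := exists_neg_pos hd' hd0 (sub_ne_zero.2 hne)
    obtain ⟨t₁, t₂, ht₁, ht₂⟩ := key
    have hcont : ∀ t, Continuous fun θ' => c.G θ' (m * c.n) t - (t + k * π) := fun t =>
      ((c.G_cont (m * c.n)).comp (Continuous.prodMk_left t)).sub continuous_const
    have e1 : ∀ᶠ θ' in 𝓝 θ, c.G θ' (m * c.n) t₁ - (t₁ + k * π) < 0 :=
      (hcont t₁).continuousAt.eventually (gt_mem_nhds ht₁)
    have e2 : ∀ᶠ θ' in 𝓝 θ, 0 < c.G θ' (m * c.n) t₂ - (t₂ + k * π) :=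
      (hcont t₂).continuousAt.eventually (lt_mem_nhds ht₂)
    filter_upwards [e1, e2] with θ' h1 h2
    have hc' : Continuous fun t => c.G θ' (m * c.n) t - (t + k * π) :=
      ((c.G_cont (m * c.n)).comp (Continuous.prodMk_right θ')).sub
        (continuous_id.add continuous_const)
    obtain ⟨t, ht⟩ := mem_range_of_exists_le_of_exists_ge hc' ⟨t₁, h1.le⟩ ⟨t₂, h2.le⟩
    exact ⟨t, by linarith⟩
  -- connectedness
  have hpre : IsPreconnected (Ioo (-ε) ε) := isPreconnected_Ioo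
  obtain ⟨θ₀, hθ₀, hθ₀A⟩ := hex
  intro θ hθ
  by_contra hcon
  have hθA : θ ∉ A := hcon
  have hopen1 : IsOpen (interior A) := isOpen_interior
  have hopen2 : IsOpen Aᶜ := hAclosed.isOpen_compl
  have hcov : Ioo (-ε) ε ⊆ interior A ∪ Aᶜ := by
    intro y hy
    by_cases hyA : y ∈ A
    · exact Or.inl (mem_interior_iff_mem_nhds.2 (hAopen y hyA (abs_lt.2 hy)))
    · exact Or.inr hyA
  obtain ⟨y, hy, hy1, hy2⟩ := hpre (interior A) Aᶜ hopen1 hopen2 hcov
    ⟨θ₀, abs_lt.1 hθ₀, mem_interior_iff_mem_nhds.2 (hAopen θ₀ hθ₀A hθ₀)⟩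
    ⟨θ, abs_lt.1 hθ, hθA⟩
  exact hy2 (interior_subset hy1)

end Cyc

end PCE
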