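import Pool.Agent.PCE.Defs

/-!
# Invariant splittings with uniform constants are hyperbolic splittings
-/

open Set Filter Topology Manifold ContDiff Metric Bundle

set_option linter.unusedSectionVars false
set_option linter.unusedVariables false

namespace OmSt

/-- A bounded family of operators: norm attained up to a factor `2`. -/
theorem spl_exists_norm {E : Type*} [NormedAddCommGroup E] [NormedSpace ℝ E] (A : E →L[ℝ] E) :
    ∃ w : E, ‖w‖ ≤ 1 ∧ ‖A‖ / 2 ≤ ‖A w‖ := by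
  rcases (norm_nonneg A).eq_or_lt with h0 | h0
  · exact ⟨0, by simp, by rw [← h0]; simp⟩
  · obtain ⟨w, hw1, hw2⟩ := A.exists_lt_apply_of_lt_opNorm (half_lt_self h0)
    exact ⟨w, hw1.le, hw2.le⟩

theorem spl_clm_apply {E : Type*} [NormedAddCommGroup E] [NormedSpace ℝ E] {F : Type*}
    [NormedAddCommGroup F] [NormedSpace ℝ F] {Y : Type*} {l : Filter Y} {A : Y → E →L[ℝ] F}
    {A₀ : E →L[ℝ] F} {v : Y → E} {v₀ : E} (hA : Tendsto A l (𝓝 A₀)) (hv : Tendsto v l (𝓝 v₀)) :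
    Tendsto (fun y => A y (v y)) l (𝓝 (A₀ v₀)) :=
  ((isBoundedBilinearMap_apply (𝕜 := ℝ) (E := E) (F := F)).continuous.tendsto (A₀, v₀)).comp
    (hA.prodMk_nhds hv)

/-- Continuity of a family of projections from the closedness of the images and kernels. -/
theorem spl_tendsto {E : Type*} [NormedAddCommGroup E] [NormedSpace ℝ E]
    [FiniteDimensional ℝ E] {Y : Type*} {P : Y → E →L[ℝ] E} {Q : E →L[ℝ] E} {l : Filter Y}
    (hP : ∀ᶠ y in l, P y * P y = P y)
    (h1 : ∀ F : Ultrafilter Y, (F : Filter Y) ≤ l → ∀ (v : Y → E) (v₀ : E),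
      Tendsto v F (𝓝 v₀) → (∀ᶠ y in (F : Filter Y), P y (v y) = v y) → Q v₀ = v₀)
    (h2 : ∀ F : Ultrafilter Y, (F : Filter Y) ≤ l → ∀ (v : Y → E) (v₀ : E),
      Tendsto v F (𝓝 v₀) → (∀ᶠ y in (F : Filter Y), P y (v y) = 0) → Q v₀ = 0) :
    Tendsto P l (𝓝 Q) := by
  have : ProperSpace E := FiniteDimensional.proper ℝ E
  have : ProperSpace (E →L[ℝ] E) := FiniteDimensional.proper ℝ (E →L[ℝ] E)
  rw [tendsto_iff_ultrafilter]
  intro F hF
  have hPF : ∀ᶠ y in (F : Filter Y), P y * P y = P y := hF hP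
  have hPv : ∀ᶠ y in (F : Filter Y), ∀ v, P y (P y v) = P y v := by
    filter_upwards [hPF] with y hy v
    exact congrArg (fun L : E →L[ℝ] E => L v) hy
  -- boundedness
  have hb : ∃ C : ℝ, ∀ᶠ y in (F : Filter Y), ‖P y‖ ≤ C := by
    by_contra hcon
    have hcon' : ∀ C : ℝ, ∀ᶠ y in (F : Filter Y), C < ‖P y‖ := by
      intro C
      have h3 := (Ultrafilter.eventually_not (f := F) (p := fun y => ‖P y‖ ≤ C)).2
        (fun h4 => hcon ⟨C, h4⟩)
      filter_upwards [h3] with y hy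
      exact not_le.1 hy
    choose w hw1 hw2 using fun y => spl_exists_norm (P y)
    have ht : Tendsto (fun y => ‖P y (w y)‖⁻¹) F (𝓝 0) := by
      refine tendsto_inv_atTop_zero.comp (tendsto_atTop.2 fun b => ?_)
      filter_upwards [hcon' (2 * b)] with y hy
      have := hw2 y
      linarith
    have hpos : ∀ᶠ y in (F : Filter Y), 0 < ‖P y (w y)‖ := by
      filter_upwards [hcon' 0] with y hy
      have := hw2 y
      linarith
    -- the images, normalized
    have hs1 : ((F.map fun y => ‖P y (w y)‖⁻¹ • P y (w y)) : Filter E) ≤ 𝓟 (sphere (0 : E) 1) := by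
      rw [le_principal_iff, Ultrafilter.mem_coe, Ultrafilter.mem_map]
      filter_upwards [hpos] with y hy
      change _ ∈ sphere (0 : E) 1
      rw [mem_sphere_zero_iff_norm, norm_smul, norm_inv, norm_norm, inv_mul_cancel₀ hy.ne']
    obtain ⟨s, hs, hs2⟩ := (isCompact_sphere (0 : E) 1).ultrafilter_le_nhds _ hs1
    have hs3 : Tendsto (fun y => ‖P y (w y)‖⁻¹ • P y (w y)) F (𝓝 s) := hs2
    have hQ1 := h1 F hF _ s hs3 (by
      filter_upwards [hPv] with y hy
      rw [map_smul, hy])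
    have hw3 : Tendsto (fun y => ‖P y (w y)‖⁻¹ • w y) F (𝓝 0) := by
      refine squeeze_zero_norm (fun y => ?_) ht
      rw [norm_smul, norm_inv, norm_norm]
      have h5 : 0 ≤ ‖P y (w y)‖⁻¹ := by positivity
      calc ‖P y (w y)‖⁻¹ * ‖w y‖ ≤ ‖P y (w y)‖⁻¹ * 1 := by gcongr; exact hw1 y
        _ = _ := mul_one _
    have hQ2 := h2 F hF (fun y => ‖P y (w y)‖⁻¹ • w y - ‖P y (w y)‖⁻¹ • P y (w y)) (0 - s)
      (hw3.sub hs3) (by
        filter_upwards [hPv] with y hy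
        rw [map_sub, map_smul, map_smul, hy, sub_self])
    rw [zero_sub, map_neg, hQ1, neg_eq_zero] at hQ2
    rw [hQ2, mem_sphere_zero_iff_norm, norm_zero] at hs
    exact zero_ne_one hs
  obtain ⟨C, hC⟩ := hb
  have hR1 : ((F.map P : Ultrafilter (E →L[ℝ] E)) : Filter (E →L[ℝ] E)) ≤
      𝓟 (closedBall (0 : E →L[ℝ] E) C) := by
    rw [le_principal_iff, Ultrafilter.mem_coe, Ultrafilter.mem_map]
    filter_upwards [hC] with y hy
    change _ ∈ closedBall (0 : E →L[ℝ] E) C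
    rwa [mem_closedBall_zero_iff]
  obtain ⟨R, -, hR2⟩ := (isCompact_closedBall (0 : E →L[ℝ] E) C).ultrafilter_le_nhds _ hR1
  have hR3 : Tendsto P F (𝓝 R) := hR2
  have hRQ : R = Q := by
    refine ContinuousLinearMap.ext fun v => ?_
    have hv : Tendsto (fun y => P y v) F (𝓝 (R v)) := spl_clm_apply hR3 tendsto_const_nhds
    have a1 := h1 F hF _ _ hv (by
      filter_upwards [hPv] with y hy
      exact hy v)
    have a2 := h2 F hF (fun y => v - P y v) (v - R v) (tendsto_const_nhds.sub hv) (by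
      filter_upwards [hPv] with y hy
      rw [map_sub, hy, sub_self])
    rw [map_sub, a1, sub_eq_zero] at a2
    exact a2.symm
  rw [← hRQ]
  exact hR3

section Norms

variable {E : Type*} [NormedAddCommGroup E] [NormedSpace ℝ E]
  {M : Type*} [TopologicalSpace M] [ChartedSpace E M] [IsManifold 𝓘(ℝ, E) ∞ M] {r : ℕ∞}

theorem spl_rnorm_nonneg (γ : RMetric E M) (x : M) (v : E) : 0 ≤ rnorm γ x v := Real.sqrt_nonneg _

theorem spl_rnorm_eq_zero (γ : RMetric E M) (x : M) {v : E} (h : rnorm γ x v ≤ 0) : v = 0 := by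
  by_contra hv
  have h1 : 0 < γ.inner x v v := γ.pos x v hv
  have h2 : 0 < rnorm γ x v := Real.sqrt_pos.2 h1
  linarith

theorem spl_rnorm_sub_le (γ : RMetric E M) (x : M) (v w : E) :
    rnorm γ x (v - w : E) ≤ 2 * (rnorm γ x v + rnorm γ x w) := by
  let G : E →L[ℝ] E →L[ℝ] ℝ := γ.inner x
  have hpos : ∀ u : E, 0 ≤ G u u := by
    intro u
    by_cases hu : u = 0
    · rw [hu]
      simp
    · exact (γ.pos x u hu).le
  have e : ∀ u : E, rnorm γ x u = √(G u u) := fun u => rfl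
  rw [e, e, e]
  refine Real.sqrt_le_iff.2 ⟨by positivity, ?_⟩
  have h1 := hpos (v + w)
  have h2 : G (v + w) (v + w) = G v v + G v w + G w v + G w w := by
    simp only [map_add, add_apply]
    ring
  have h3 : G (v - w) (v - w) = G v v - G v w - G w v + G w w := by
    simp only [map_sub, sub_apply]
    ring
  have h4 := Real.sq_sqrt (hpos v)
  have h5 := Real.sq_sqrt (hpos w)
  have h6 := Real.sqrt_nonneg (G v v)
  have h7 := Real.sqrt_nonneg (G w w)
  have h8 := mul_nonneg h6 h7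
  rw [h3]
  nlinarith

/-- Continuity of the Riemannian norm, in charts. -/
theorem spl_tendsto_rnorm (γ : RMetric E M) (b : M) {Y : Type*} {l : Filter Y} {y : Y → M}
    (hy : Tendsto y l (𝓝 b)) {v w : Y → E} {w₀ : E} (hw : Tendsto w l (𝓝 w₀))
    (hv : ∀ᶠ i in l, (Dc b (y i) : E →L[ℝ] E) (v i) = w i) :
    Tendsto (fun i => rnorm γ (y i) (v i)) l (𝓝 (rnorm γ b ((Dc' b b : E →L[ℝ] E) w₀))) := by
  let γ' : M → E →L[ℝ] E →L[ℝ] ℝ := fun y =>
    ContinuousLinearMap.inCoordinates E (fun x : M => TangentSpace 𝓘(ℝ, E) x) (E →L[ℝ] ℝ)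
      (fun x : M => TangentSpace 𝓘(ℝ, E) x →L[ℝ] ℝ) b y b y (γ.inner y)
  have hcont : ContinuousAt γ' b := by
    have h1 := γ.contMDiff.continuous.continuousAt (x := b)
    exact ((continuousAt_hom_bundle (RingHom.id ℝ) _).1 h1).2
  have hval : ∀ y ∈ (chartAt E b).source, ∀ v : E,
      γ.inner y v v = γ' y ((Dc b y : E →L[ℝ] E) v) ((Dc b y : E →L[ℝ] E) v) := by
    intro y hy v
    have h1 := inC₂ hy (γ.inner y) ((Dc b y : E →L[ℝ] E) v) ((Dc b y : E →L[ℝ] E) v)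
    rw [Dc'_Dc hy v] at h1
    exact h1.symm
  have hbs : b ∈ (chartAt E b).source := mem_chart_source E b
  have h1 : Tendsto (fun i => γ' (y i) (w i) (w i)) l (𝓝 (γ' b w₀ w₀)) :=
    spl_clm_apply (spl_clm_apply (hcont.tendsto.comp hy) hw) hw
  have h2 : rnorm γ b ((Dc' b b : E →L[ℝ] E) w₀) = √(γ' b w₀ w₀) := by
    unfold rnorm
    rw [hval b hbs, Dc_Dc' hbs]
  rw [h2]
  refine ((Real.continuous_sqrt.tendsto _).comp h1).congr' ?_
  filter_upwards [hv, hy ((chartAt E b).open_source.mem_nhds hbs)] with i hi hyi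
  unfold rnorm
  rw [hval (y i) hyi, hi]
  rfl

/-- Continuity of the norm of the image under the derivative of an iterate. -/
theorem spl_tendsto_D (f : Dyn E M r) (hr : 1 ≤ r) (γ : RMetric E M) (m : ℕ) (x : M)
    {l : Filter M} (hl : l ≤ 𝓝 x) {v : M → E} {v₀ : E} (hv : Tendsto v l (𝓝 v₀)) :
    Tendsto (fun y => rnorm γ (f^[m] y)
      ((D f^[m] y : E →L[ℝ] E) ((Dc' x y : E →L[ℝ] E) (v y)))) l
      (𝓝 (rnorm γ (f^[m] x) ((D f^[m] x : E →L[ℝ] E) ((Dc' x x : E →L[ℝ] E) v₀)))) := by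
  set b' := f^[m] x with hb'
  have hxs : x ∈ (chartAt E x).source := mem_chart_source E x
  have hbs : b' ∈ (chartAt E b').source := mem_chart_source E b'
  have hfc : ContinuousAt (f^[m]) x := (f.continuous.iterate m).continuousAt
  have hcd : ContDiffAt ℝ 1 (chG f^[m] x b') (chartAt E x x) :=
    contDiffAt_chart_iterate hr (IsManifold.chart_mem_maximalAtlas x)
      (IsManifold.chart_mem_maximalAtlas b') m ((chartAt E x).map_source hxs)
      (by rw [(chartAt E x).left_inv hxs]; exact hbs)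
  have hA : ContinuousAt (fun y => fderiv ℝ (chG f^[m] x b') (chartAt E x y)) x :=
    ContinuousAt.comp (f := chartAt E x) (g := fderiv ℝ (chG f^[m] x b'))
      (hcd.continuousAt_fderiv (by simp)) ((chartAt E x).continuousAt hxs)
  have hmd : MDifferentiable 𝓘(ℝ, E) 𝓘(ℝ, E) f^[m] := mdiff_iterate (Dyn.mdiff f hr) m
  have hw : Tendsto (fun y => fderiv ℝ (chG f^[m] x b') (chartAt E x y) (v y)) l
      (𝓝 (fderiv ℝ (chG f^[m] x b') (chartAt E x x) v₀)) :=
    spl_clm_apply (hA.tendsto.mono_left hl) hv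
  have h1 := spl_tendsto_rnorm γ b' (y := f^[m]) (hfc.tendsto.mono_left hl)
    (v := fun y => (D f^[m] y : E →L[ℝ] E) ((Dc' x y : E →L[ℝ] E) (v y))) hw (by
      filter_upwards [hl ((chartAt E x).open_source.mem_nhds hxs),
        hl (hfc ((chartAt E b').open_source.mem_nhds hbs))] with y hy1 hy2
      rw [fderiv_chG (hmd y) hy1 hy2]
      rfl)
  have h2 : (Dc' b' b' : E →L[ℝ] E) (fderiv ℝ (chG f^[m] x b') (chartAt E x x) v₀) =
      (D f^[m] x : E →L[ℝ] E) ((Dc' x x : E →L[ℝ] E) v₀) := by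
    rw [fderiv_chG (hmd x) hxs hbs]
    exact Dc'_Dc hbs _
  rw [h2] at h1
  exact h1

/-- An invariant splitting with uniform constants. -/
structure Spl (γ : RMetric E M) (f : Dyn E M r) (K : Set M) (S U : M → Submodule ℝ E)
    (c μ : ℝ) : Prop where
  hr : 1 ≤ r
  hf : ∀ x ∈ K, f x ∈ K
  hf' : ∀ x ∈ K, f.symm x ∈ K
  compl : ∀ x ∈ K, IsCompl (S x) (U x)
  hS : ∀ x ∈ K, ∀ v ∈ S x, (D f x : E →L[ℝ] E) v ∈ S (f x)
  hU : ∀ x ∈ K, ∀ v ∈ U x, (D f x : E →L[ℝ] E) v ∈ U (f x)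
  hc : 0 < c
  hμ0 : 0 < μ
  hμ1 : μ < 1
  fwd : ∀ x ∈ K, ∀ v ∈ S x, ∀ m : ℕ,
    rnorm γ (f^[m] x) ((D f^[m] x : E →L[ℝ] E) v) ≤ c * μ ^ m * rnorm γ x v
  bwd : ∀ x ∈ K, ∀ v ∈ U x, ∀ m : ℕ,
    rnorm γ (f.symm^[m] x) ((D f.symm^[m] x : E →L[ℝ] E) v) ≤ c * μ ^ m * rnorm γ x v

theorem spl_D_inj (f : Dyn E M r) (hr : 1 ≤ r) (x : M) {v : E}
    (h : (D f x : E →L[ℝ] E) v = 0) : v = 0 := by
  have h1 := congrArg (fun L : E →L[ℝ] E => L v) (D_symm_mul f hr x).1
  change (D f.symm (f x) : E →L[ℝ] E) ((D f x : E →L[ℝ] E) v) = v at h1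
  rw [h, map_zero] at h1
  exact h1.symm

theorem spl_D_D (f : Dyn E M r) (hr : 1 ≤ r) (x : M) (v : E) :
    (D f (f.symm x) : E →L[ℝ] E) ((D f.symm x : E →L[ℝ] E) v) = v := by
  have h1 := congrArg (fun L : E →L[ℝ] E => L v) (D_symm_mul f hr (f.symm x)).2
  rw [f.apply_symm_apply] at h1
  exact h1

theorem spl_exists_add {S U : Submodule ℝ E} (h : IsCompl S U) (v : E) :
    ∃ s ∈ S, ∃ u ∈ U, v = s + u := by
  have h1 : v ∈ S ⊔ U := by rw [h.sup_eq_top]; trivial
  obtain ⟨s, hs, u, hu, h2⟩ := Submodule.mem_sup.1 h1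
  exact ⟨s, hs, u, hu, h2.symm⟩

theorem spl_eq_zero {S U : Submodule ℝ E} (h : IsCompl S U) {v : E} (h1 : v ∈ S) (h2 : v ∈ U) :
    v = 0 := by
  have h3 : v ∈ S ⊓ U := ⟨h1, h2⟩
  rw [h.inf_eq_bot] at h3
  exact (Submodule.mem_bot ℝ).1 h3

namespace Spl

variable {γ : RMetric E M} {f : Dyn E M r} {K : Set M} {S U : M → Submodule ℝ E} {c μ : ℝ}

theorem S_symm (h : Spl γ f K S U c μ) {x : M} (hx : x ∈ K) {v : E} (hv : v ∈ S x) :
    (D f.symm x : E →L[ℝ] E) v ∈ S (f.symm x) := by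
  have hy := h.hf' x hx
  obtain ⟨s, hs, u, hu, h1⟩ := spl_exists_add (h.compl _ hy) ((D f.symm x : E →L[ℝ] E) v)
  have h2 := spl_D_D f h.hr x v
  rw [h1, map_add] at h2
  have h3 := h.hS _ hy s hs
  have h4 := h.hU _ hy u hu
  rw [f.apply_symm_apply] at h3 h4
  have h5 : (D f (f.symm x) : E →L[ℝ] E) u = v - (D f (f.symm x) : E →L[ℝ] E) s := by
    rw [← h2]
    abel
  have h6 : (D f (f.symm x) : E →L[ℝ] E) u ∈ S x := by
    rw [h5]
    exact (S x).sub_mem hv h3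
  have h7 := spl_D_inj f h.hr _ (spl_eq_zero (h.compl x hx) h6 h4)
  rw [h1, h7, add_zero]
  exact hs

theorem U_symm (h : Spl γ f K S U c μ) {x : M} (hx : x ∈ K) {v : E} (hv : v ∈ U x) :
    (D f.symm x : E →L[ℝ] E) v ∈ U (f.symm x) := by
  have hy := h.hf' x hx
  obtain ⟨s, hs, u, hu, h1⟩ := spl_exists_add (h.compl _ hy) ((D f.symm x : E →L[ℝ] E) v)
  have h2 := spl_D_D f h.hr x v
  rw [h1, map_add] at h2
  have h3 := h.hS _ hy s hs
  have h4 := h.hU _ hy u hu
  rw [f.apply_symm_apply] at h3 h4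
  have h5 : (D f (f.symm x) : E →L[ℝ] E) s = v - (D f (f.symm x) : E →L[ℝ] E) u := by
    rw [← h2]
    abel
  have h6 : (D f (f.symm x) : E →L[ℝ] E) s ∈ U x := by
    rw [h5]
    exact (U x).sub_mem hv h4
  have h7 := spl_D_inj f h.hr _ (spl_eq_zero (h.compl x hx) h3 h6)
  rw [h1, h7, zero_add]
  exact hu

theorem symm (h : Spl γ f K S U c μ) : Spl γ f.symm K U S c μ :=
  ⟨h.hr, h.hf', h.hf, fun x hx => (h.compl x hx).symm, fun _ hx _ hv => h.U_symm hx hv,
    fun _ hx _ hv => h.S_symm hx hv, h.hc, h.hμ0, h.hμ1, h.bwd, h.fwd⟩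

theorem iter_mem (h : Spl γ f K S U c μ) {x : M} (hx : x ∈ K) (m : ℕ) : f^[m] x ∈ K := by
  induction m with
  | zero => exact hx
  | succ m ih =>
    rw [Function.iterate_succ_apply']
    exact h.hf _ ih

theorem iter_U (h : Spl γ f K S U c μ) {x : M} (hx : x ∈ K) {v : E} (hv : v ∈ U x) (m : ℕ) :
    (D f^[m] x : E →L[ℝ] E) v ∈ U (f^[m] x) := by
  induction m with
  | zero =>
    have e : (D f^[0] x : E →L[ℝ] E) = 1 := D_id x
    rw [e]
    exact hv
  | succ m ih =>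
    rw [D_iterate_succ (Dyn.mdiff f h.hr), Function.iterate_succ_apply']
    exact h.hU _ (h.iter_mem hx m) _ ih

/-- Characterization of the stable spaces. -/
theorem mem_S (h : Spl γ f K S U c μ) {x : M} (hx : x ∈ K) {v : E}
    (hv : ∀ m : ℕ, rnorm γ (f^[m] x) ((D f^[m] x : E →L[ℝ] E) v) ≤ c * μ ^ m * rnorm γ x v) :
    v ∈ S x := by
  obtain ⟨s, hs, u, hu, h1⟩ := spl_exists_add (h.compl x hx) v
  have hc := h.hc
  have hμ0 := h.hμ0
  have hu0 : rnorm γ x u ≤ 0 := by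
    have h2 : ∀ m : ℕ, rnorm γ x u ≤ (c * (2 * (c * (rnorm γ x v + rnorm γ x s)))) *
        (μ * μ) ^ m := by
      intro m
      have h3 := h.bwd _ (h.iter_mem hx m) _ (h.iter_U hx hu m) m
      have h4 := congrArg (fun L : E →L[ℝ] E => L u) (Dyn.D_inv f h.hr m (x := x)).1
      change (D f.symm^[m] (f^[m] x) : E →L[ℝ] E) ((D f^[m] x : E →L[ℝ] E) u) = u at h4
      have h5 : f.symm^[m] (f^[m] x) = x :=
        (Function.LeftInverse.iterate f.symm_apply_apply m) x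
      rw [h4, h5] at h3
      have h6 : (D f^[m] x : E →L[ℝ] E) u =
          (D f^[m] x : E →L[ℝ] E) v - (D f^[m] x : E →L[ℝ] E) s := by
        rw [← map_sub, h1, add_sub_cancel_left]
      have h7 := spl_rnorm_sub_le γ (f^[m] x) ((D f^[m] x : E →L[ℝ] E) v)
        ((D f^[m] x : E →L[ℝ] E) s)
      rw [← h6] at h7
      have h8 := hv m
      have h9 := h.fwd x hx s hs m
      calc rnorm γ x u ≤ c * μ ^ m * rnorm γ (f^[m] x) ((D f^[m] x : E →L[ℝ] E) u) := h3
        _ ≤ c * μ ^ m * (2 * (c * μ ^ m * rnorm γ x v + c * μ ^ m * rnorm γ x s)) := by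
          have : 0 ≤ c * μ ^ m := by positivity
          refine mul_le_mul_of_nonneg_left (h7.trans ?_) this
          linarith
        _ = _ := by
          rw [mul_pow]
          ring
    have h3 : Tendsto (fun m : ℕ => (c * (2 * (c * (rnorm γ x v + rnorm γ x s)))) *
        (μ * μ) ^ m) atTop (𝓝 ((c * (2 * (c * (rnorm γ x v + rnorm γ x s)))) * 0)) :=
      (tendsto_pow_atTop_nhds_zero_of_lt_one (by positivity)
        (by nlinarith [h.hμ1])).const_mul _
    rw [mul_zero] at h3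
    exact ge_of_tendsto' h3 h2
  have h2 := spl_rnorm_eq_zero γ x hu0
  rw [h1, h2, add_zero]
  exact hs

/-- The stable spaces form a closed set. -/
theorem closed_S (h : Spl γ f K S U c μ) {x : M} (hx : x ∈ K) {l : Filter M} [l.NeBot]
    (hl : l ≤ 𝓝[K] x) {v : M → E} {v₀ : E} (hv : Tendsto v l (𝓝 v₀))
    (hvS : ∀ᶠ y in l, (Dc' x y : E →L[ℝ] E) (v y) ∈ S y) :
    (Dc' x x : E →L[ℝ] E) v₀ ∈ S x := by
  have hl' : l ≤ 𝓝 x := hl.trans nhdsWithin_le_nhds
  have hlK : ∀ᶠ y in l, y ∈ K := hl self_mem_nhdsWithin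
  refine h.mem_S hx fun m => ?_
  have h1 := spl_tendsto_D f h.hr γ m x hl' hv
  have h2 := spl_tendsto_D f h.hr γ 0 x hl' hv
  have e : ∀ y : M, (D f^[0] y : E →L[ℝ] E) = 1 := fun y => D_id y
  have h3 : Tendsto (fun y => rnorm γ y ((Dc' x y : E →L[ℝ] E) (v y))) l
      (𝓝 (rnorm γ x ((Dc' x x : E →L[ℝ] E) v₀))) := by
    convert h2 using 2
    · rw [e]
      rfl
    · rw [e]
      rfl
  refine le_of_tendsto_of_tendsto h1 (h3.const_mul (c * μ ^ m)) ?_
  filter_upwards [hvS, hlK] with y hy hyK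
  exact h.fwd y hyK _ hy m

end Spl

end Norms

section Main

variable {E : Type*} [NormedAddCommGroup E] [NormedSpace ℝ E] [FiniteDimensional ℝ E]
  {M : Type*} [MetricSpace M] [CompactSpace M] [ChartedSpace E M] [IsManifold 𝓘(ℝ, E) ∞ M]
  {r : ℕ∞}

/-- Any two Riemannian metrics on a compact manifold are equivalent. -/
theorem exists_equiv_rmetric (γ γ' : RMetric E M) :
    ∃ C > 0, ∀ (x : M) (v : E), rnorm γ' x v ≤ C * rnorm γ x v := by
  have h1 : ∀ x : M, ∃ C > 0, ∀ᶠ y in 𝓝 x, ∀ v : E, rnorm γ' y v ≤ C * rnorm γ y v := by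
    intro x
    obtain ⟨C, hC, h1⟩ := exists_comparison γ x
    obtain ⟨C', hC', h2⟩ := exists_comparison γ' x
    refine ⟨C' * C, by positivity, ?_⟩
    filter_upwards [h1, h2] with y hy1 hy2 v
    calc rnorm γ' y v ≤ C' * ‖(Dc x y : E →L[ℝ] E) v‖ := (hy2 v).2
      _ ≤ C' * (C * rnorm γ y v) := by
        gcongr
        exact (hy1 v).1
      _ = _ := by ring
  obtain ⟨C, hC, h2⟩ : ∃ C > 0, ∀ x ∈ (univ : Set M), ∀ v : E,
      rnorm γ' x v ≤ C * rnorm γ x v := by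
    refine isCompact_univ.induction_on
      (p := fun X => ∃ C > 0, ∀ x ∈ X, ∀ v : E, rnorm γ' x v ≤ C * rnorm γ x v)
      ⟨1, one_pos, by simp⟩ (fun s t hst ⟨C, hC, ht⟩ => ⟨C, hC, fun x hx => ht x (hst hx)⟩)
      (fun s t ⟨C, hC, hs⟩ ⟨C', hC', ht⟩ => ⟨C + C', by positivity, fun x hx v => ?_⟩)
      (fun x _ => ?_)
    · have hn := spl_rnorm_nonneg γ x v
      rcases hx with hx | hx
      · refine (hs x hx v).trans ?_
        gcongr
        linarith
      · refine (ht x hx v).trans ?_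
        gcongr
        linarith
    · obtain ⟨C, hC, h2⟩ := h1 x
      exact ⟨_, mem_nhdsWithin_of_mem_nhds h2, C, hC, fun y hy => hy⟩
  exact ⟨C, hC, fun x v => h2 x (mem_univ x) v⟩

open Classical in
/-- The projections of a splitting. -/
noncomputable def splP (K : Set M) (S U : M → Submodule ℝ E)
    (h : ∀ x ∈ K, IsCompl (S x) (U x)) (x : M) : E →L[ℝ] E :=
  if hx : x ∈ K then LinearMap.toContinuousLinearMap ((S x).projection (U x) (h x hx)) else 0

theorem splP_eq {K : Set M} {S U : M → Submodule ℝ E} (h : ∀ x ∈ K, IsCompl (S x) (U x)) {x : M}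
    (hx : x ∈ K) (v : E) : splP K S U h x v = v ↔ v ∈ S x := by
  unfold splP
  rw [dif_pos hx]
  exact Submodule.projection_eq_self_iff (h x hx) v

theorem splP_zero {K : Set M} {S U : M → Submodule ℝ E} (h : ∀ x ∈ K, IsCompl (S x) (U x)) {x : M}
    (hx : x ∈ K) (v : E) : splP K S U h x v = 0 ↔ v ∈ U x := by
  unfold splP
  rw [dif_pos hx]
  exact Submodule.projection_apply_eq_zero_iff (h x hx)

theorem splP_idem {K : Set M} {S U : M → Submodule ℝ E} (h : ∀ x ∈ K, IsCompl (S x) (U x)) {x : M}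
    (hx : x ∈ K) (v : E) : splP K S U h x (splP K S U h x v) = splP K S U h x v := by
  rw [splP_eq h hx]
  unfold splP
  rw [dif_pos hx]
  exact Submodule.projection_apply_mem _ v

/-- The projections of an invariant splitting with uniform constants are continuous. -/
theorem Spl.contField {γ : RMetric E M} {f : Dyn E M r} {K : Set M} {S U : M → Submodule ℝ E}
    {c μ : ℝ} (h : Spl γ f K S U c μ) :
    ContinuousField (E := E) (M := M) (splP K S U h.compl) K := by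
  intro x hx
  refine (continuousWithinAt_hom_bundle (RingHom.id ℝ) _).2 ⟨continuousWithinAt_id, ?_⟩
  have hxs : x ∈ (chartAt E x).source := mem_chart_source E x
  let P₀ : M → E →L[ℝ] E := splP K S U h.compl
  let P' : M → E →L[ℝ] E := fun y =>
    ContinuousLinearMap.inCoordinates E (fun x : M => TangentSpace 𝓘(ℝ, E) x) E
      (fun x : M => TangentSpace 𝓘(ℝ, E) x) x y x y (P₀ y)
  change ContinuousWithinAt P' K x
  have hP' : ∀ y ∈ (chartAt E x).source,
      P' y = (Dc x y : E →L[ℝ] E) * splP K S U h.compl y * (Dc' x y : E →L[ℝ] E) := by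
    intro y hy
    rw [← cla_eq hy, ← sym_eq hy]
    rfl
  have hsrc : ∀ᶠ y in 𝓝[K] x, y ∈ (chartAt E x).source :=
    nhdsWithin_le_nhds ((chartAt E x).open_source.mem_nhds hxs)
  have hK : ∀ᶠ y in 𝓝[K] x, y ∈ K := self_mem_nhdsWithin
  have happ : ∀ y ∈ (chartAt E x).source, ∀ v, P' y v =
      (Dc x y : E →L[ℝ] E) (splP K S U h.compl y ((Dc' x y : E →L[ℝ] E) v)) := by
    intro y hy v
    rw [hP' y hy]
    rfl
  have heq : ∀ y ∈ (chartAt E x).source, y ∈ K → ∀ v,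
      (P' y v = v ↔ (Dc' x y : E →L[ℝ] E) v ∈ S y) := by
    intro y hy hyK v
    rw [happ y hy, ← splP_eq h.compl hyK]
    constructor
    · intro h1
      have h2 := congrArg (Dc' x y : E →L[ℝ] E) h1
      rwa [Dc'_Dc hy] at h2
    · intro h1
      rw [h1, Dc_Dc' hy]
  have hze : ∀ y ∈ (chartAt E x).source, y ∈ K → ∀ v,
      (P' y v = 0 ↔ (Dc' x y : E →L[ℝ] E) v ∈ U y) := by
    intro y hy hyK v
    rw [happ y hy, ← splP_zero h.compl hyK]
    constructor
    · intro h1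
      have h2 := congrArg (Dc' x y : E →L[ℝ] E) h1
      rwa [Dc'_Dc hy, map_zero] at h2
    · intro h1
      rw [h1, map_zero]
  refine spl_tendsto (l := 𝓝[K] x) (Q := P' x) ?_ (fun F hF v v₀ hv h1 => ?_)
    (fun F hF v v₀ hv h1 => ?_)
  · filter_upwards [hsrc, hK] with y hy hyK
    refine ContinuousLinearMap.ext fun v => ?_
    change P' y (P' y v) = P' y v
    rw [happ y hy, happ y hy, Dc'_Dc hy, splP_idem h.compl hyK]
  · rw [heq x hxs hx]
    refine h.closed_S hx hF hv ?_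
    filter_upwards [h1, hF hsrc, hF hK] with y hy1 hy2 hy3
    exact (heq y hy2 hy3 _).1 hy1
  · rw [hze x hxs hx]
    refine h.symm.closed_S hx hF hv ?_
    filter_upwards [h1, hF hsrc, hF hK] with y hy1 hy2 hy3
    exact (hze y hy2 hy3 _).1 hy1

/-- (E1) An invariant splitting with uniform constants over a closed invariant set is a
hyperbolic splitting (continuity of the projections is automatic). -/
theorem isHyperbolicSet_of_split (hr : 1 ≤ r) (f : Dyn E M r) {K : Set M} (hK : IsClosed K)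
    (hf : ∀ x ∈ K, f x ∈ K) (hf' : ∀ x ∈ K, f.symm x ∈ K) (γ : RMetric E M)
    (S U : M → Submodule ℝ E) (hSU : ∀ x ∈ K, IsCompl (S x) (U x))
    (hS : ∀ x ∈ K, ∀ v ∈ S x, (D f x : E →L[ℝ] E) v ∈ S (f x))
    (hU : ∀ x ∈ K, ∀ v ∈ U x, (D f x : E →L[ℝ] E) v ∈ U (f x))
    {c μ : ℝ} (hc : 0 < c) (hμ0 : 0 < μ) (hμ1 : μ < 1)
    (hSc : ∀ x ∈ K, ∀ v ∈ S x, ∀ m : ℕ,
      rnorm γ (f^[m] x) ((D f^[m] x : E →L[ℝ] E) v) ≤ c * μ ^ m * rnorm γ x v)
    (hUc : ∀ x ∈ K, ∀ v ∈ U x, ∀ m : ℕ,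
      rnorm γ (f.symm^[m] x) ((D f.symm^[m] x : E →L[ℝ] E) v) ≤ c * μ ^ m * rnorm γ x v) :
    IsHyperbolicSet f K := by
  have h : Spl γ f K S U c μ := ⟨hr, hf, hf', hSU, hS, hU, hc, hμ0, hμ1, hSc, hUc⟩
  have hst : ∀ x ∈ K, ∀ v : E, v ∈ stableSp (E := E) (M := M) (splP K S U hSU) x ↔ v ∈ S x :=
    fun x hx v => splP_eq hSU hx v
  have hun : ∀ x ∈ K, ∀ v : E, v ∈ unstableSp (E := E) (M := M) (splP K S U hSU) x ↔ v ∈ U x :=
    fun x hx v => splP_zero hSU hx v
  refine ⟨splP K S U hSU, fun x hx v => splP_idem hSU hx v, h.contField, fun x hx => ?_,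
    fun x hx => ?_, fun γ' => ?_⟩
  · refine Set.ext fun v => ?_
    constructor
    · rintro ⟨w, hw, rfl⟩
      exact (hst _ (hf x hx) _).2 (hS x hx w ((hst x hx w).1 hw))
    · intro hv
      have h1 := h.S_symm (hf x hx) ((hst _ (hf x hx) _).1 hv)
      rw [f.symm_apply_apply] at h1
      refine ⟨(D f.symm (f x) : E →L[ℝ] E) v, (hst x hx _).2 h1, ?_⟩
      exact congrArg (fun L : E →L[ℝ] E => L v) (D_symm_mul f hr x).2
  · refine Set.ext fun v => ?_
    constructor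
    · rintro ⟨w, hw, rfl⟩
      exact (hun _ (hf x hx) _).2 (hU x hx w ((hun x hx w).1 hw))
    · intro hv
      have h1 := h.U_symm (hf x hx) ((hun _ (hf x hx) _).1 hv)
      rw [f.symm_apply_apply] at h1
      refine ⟨(D f.symm (f x) : E →L[ℝ] E) v, (hun x hx _).2 h1, ?_⟩
      exact congrArg (fun L : E →L[ℝ] E => L v) (D_symm_mul f hr x).2
  · obtain ⟨C, hC, h1⟩ := exists_equiv_rmetric γ γ'
    obtain ⟨C', hC', h2⟩ := exists_equiv_rmetric γ' γ
    refine ⟨C * c * C', by positivity, μ, hμ0, hμ1, fun x hx => ⟨fun m v hv => ?_,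
      fun m v hv => ?_⟩⟩
    · have h3 := hSc x hx v ((hst x hx v).1 hv) m
      calc rnorm γ' (f^[m] x) ((D f^[m] x : E →L[ℝ] E) v)
          ≤ C * rnorm γ (f^[m] x) ((D f^[m] x : E →L[ℝ] E) v) := h1 _ _
        _ ≤ C * (c * μ ^ m * (C' * rnorm γ' x v)) := by
          gcongr
          refine h3.trans ?_
          gcongr
          exact h2 x v
        _ = _ := by ring
    · have h3 := hUc x hx v ((hun x hx v).1 hv) m
      calc rnorm γ' (f.symm^[m] x) ((D f.symm^[m] x : E →L[ℝ] E) v)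
          ≤ C * rnorm γ (f.symm^[m] x) ((D f.symm^[m] x : E →L[ℝ] E) v) := h1 _ _
        _ ≤ C * (c * μ ^ m * (C' * rnorm γ' x v)) := by
          gcongr
          refine h3.trans ?_
          gcongr
          exact h2 x v
        _ = _ := by ring

end Main

end OmSt
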