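import Pool.Agent.PCE.Bund

/-!
# The circle extension of a covering of diffeomorphisms; the star property
-/

open Set Filter Topology Manifold ContDiff Metric

namespace OmSt

variable {E : Type*} [NormedAddCommGroup E] [NormedSpace ℝ E]
  {M : Type*} [TopologicalSpace M] [ChartedSpace E M] [IsManifold 𝓘(ℝ, E) ∞ M]
  {E' : Type*} [NormedAddCommGroup E'] [NormedSpace ℝ E']
  {B : Type*} [TopologicalSpace B] [ChartedSpace E' B]
  {r : ℕ∞}

namespace CircleBundle

variable (P : CircleBundle E M E' B)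

theorem J_unique (hr : 1 ≤ r) (f : Dyn E M r) {x : M} {F G : ℝ → ℝ} {j j' : ℝ}
    (hF0 : F 0 = 0) (hF : HasDerivAt F j 0) (h : ∀ s, f (P.ρ s x) = P.ρ (F s) (f x))
    (hG0 : G 0 = 0) (hG : HasDerivAt G j' 0) (h' : ∀ s, f (P.ρ s x) = P.ρ (G s) (f x)) :
    j = j' := by
  have h1 := P.D_X (Dyn.mdiff f hr x) hF0 hF h
  have h2 := P.D_X (Dyn.mdiff f hr x) hG0 hG h'
  rw [h1] at h2
  exact smul_left_injective ℝ (P.X_ne (f x)) h2

/-- the chosen lift -/
noncomputable def Fl (f : Dyn E M r) (hP : P.Projective f) (x : M) : ℝ → ℝ :=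
  (P.exists_lift f.injective hP x).choose

theorem Fl_spec (f : Dyn E M r) (hP : P.Projective f) (x : M) :
    ∃ (κ : ℝ → ℝ), Continuous (P.Fl f hP x) ∧ StrictMono (P.Fl f hP x) ∧ P.Fl f hP x 0 = 0 ∧
      (∀ s, P.Fl f hP x (s + Real.pi) = P.Fl f hP x s + Real.pi) ∧
      (∀ s, f (P.ρ s x) = P.ρ (P.Fl f hP x s) (f x)) ∧ Continuous κ ∧ (∀ s, 0 < κ s) ∧
      ∀ s t, Real.sin (P.Fl f hP x t - P.Fl f hP x s) = κ t * κ s * Real.sin (t - s) :=
  (P.exists_lift f.injective hP x).choose_spec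

/-- the vertical derivative -/
noncomputable def Jv (f : Dyn E M r) (hP : P.Projective f) (x : M) : ℝ := deriv (P.Fl f hP x) 0

theorem Jv_spec (hr : 1 ≤ r) (f : Dyn E M r) (hP : P.Projective f) (x : M) :
    ∃ (κ : ℝ → ℝ), (∀ s, 0 < κ s) ∧ (∀ s, P.Jv f hP (P.ρ s x) = κ s * κ s) ∧
      (∀ s, HasDerivAt (P.Fl f hP x) (κ s * κ s) s) ∧
      ∀ s t, Real.sin (P.Fl f hP x t - P.Fl f hP x s) = κ t * κ s * Real.sin (t - s) := by
  obtain ⟨κ, hFc, -, hF0, -, hFe, hκc, hκ0, hκ⟩ := P.Fl_spec f hP x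
  have hd := hasDerivAt_of_chord hFc hκc hκ
  refine ⟨κ, hκ0, fun s => ?_, hd, hκ⟩
  obtain ⟨κ', hFc', -, hF0', -, hFe', hκc', hκ0', hκ'⟩ := P.Fl_spec f hP (P.ρ s x)
  have hd' := hasDerivAt_of_chord hFc' hκc' hκ' 0
  have h1 : P.Jv f hP (P.ρ s x) = κ' 0 * κ' 0 := hd'.deriv
  rw [h1]
  refine P.J_unique hr f hF0' hd' hFe' (G := fun t => P.Fl f hP x (t + s) - P.Fl f hP x s)
    (by simp) ?_ fun t => ?_
  · have h2 : HasDerivAt (P.Fl f hP x) (κ s * κ s) (0 + s) := by
      rw [zero_add]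
      exact hd s
    exact (h2.comp_add_const 0 s).sub_const _
  · rw [← P.add, hFe, hFe s, ← P.add]
    congr 1
    ring

/-- The circle extension given by a covering of diffeomorphisms. -/
noncomputable def mkExt (hr : 1 ≤ r) (f : Dyn E M r) (g : Dyn E' B r)
    (hcov : ∀ x, P.p (f x) = g (P.p x)) (hP : P.Projective f) : PCE.Ext M B where
  ρ := P.ρ
  cont := P.smooth.continuous
  zero := P.zero
  add := P.add
  period := P.period
  p := P.p
  p_cont := P.p_smooth.continuous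
  p_surj := P.p_surj
  fib := P.fib
  f := f.toHomeomorph
  g := g.toHomeomorph
  cov := hcov
  F := P.Fl f hP
  F_mono x := by
    obtain ⟨κ, -, h, -⟩ := P.Fl_spec f hP x
    exact h
  F_zero x := by
    obtain ⟨κ, -, -, h, -⟩ := P.Fl_spec f hP x
    exact h
  F_pi x := by
    obtain ⟨κ, -, -, -, h, -⟩ := P.Fl_spec f hP x
    exact h
  F_eq x := by
    obtain ⟨κ, -, -, -, -, h, -⟩ := P.Fl_spec f hP x
    exact h
  J := P.Jv f hP
  J_pos x := by
    obtain ⟨κ, h0, h1, -⟩ := P.Jv_spec hr f hP x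
    have := h1 0
    rw [P.zero] at this
    rw [this]
    have := h0 0
    positivity
  F_deriv x s := by
    obtain ⟨κ, h0, h1, h2, -⟩ := P.Jv_spec hr f hP x
    rw [h1]
    exact h2 s

theorem mkExt_proj (hr : 1 ≤ r) (f : Dyn E M r) (g : Dyn E' B r)
    (hcov : ∀ x, P.p (f x) = g (P.p x)) (hP : P.Projective f) : (P.mkExt hr f g hcov hP).Proj := by
  intro x s t
  obtain ⟨κ, h0, h1, -, h3⟩ := P.Jv_spec hr f hP x
  change Real.sin (P.Fl f hP x t - P.Fl f hP x s) = √(P.Jv f hP (P.ρ t x)) *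
    √(P.Jv f hP (P.ρ s x)) * Real.sin (t - s)
  rw [h1, h1, Real.sqrt_mul_self (h0 t).le, Real.sqrt_mul_self (h0 s).le, h3]

theorem mkExt_D (hr : 1 ≤ r) (f : Dyn E M r) (g : Dyn E' B r)
    (hcov : ∀ x, P.p (f x) = g (P.p x)) (hP : P.Projective f) (x : M) :
    (D f x : E →L[ℝ] E) (P.X x) = (P.mkExt hr f g hcov hP).J x • P.X (f x) := by
  set e := P.mkExt hr f g hcov hP with he
  have h1 := e.F_deriv x 0
  rw [e.zero] at h1
  exact P.D_X (Dyn.mdiff f hr x) (e.F_zero x) h1 (e.F_eq x)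

/-- The rotations as a family of diffeomorphisms. -/
noncomputable def rotFam : Fam E M ℝ where
  toFun θ :=
    { toFun := P.ρ θ
      invFun := P.ρ (-θ)
      left_inv := fun x => by rw [← P.add, neg_add_cancel, P.zero]
      right_inv := fun x => by rw [← P.add, add_neg_cancel, P.zero]
      contMDiff_toFun := P.rho_smooth θ
      contMDiff_invFun := P.rho_smooth (-θ) }
  map_zero := P.zero
  smooth := Eventually.of_forall fun v x => P.smooth.contMDiffAt

theorem not_eig_one {T : E →L[ℝ] E} (hT : IsHyp T) {v : E} (hv : T v = v) : v = 0 := by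
  obtain ⟨T', Q, c, μ, h1, h2, h3, h4, hc, hμ0, hμ1, hb⟩ := hT
  have hpow : ∀ n : ℕ, (T ^ n) v = v := by
    intro n
    induction n with
    | zero => rfl
    | succ n ih => rw [pow_succ]; change (T ^ n) (T v) = v; rw [hv, ih]
  have hv' : T' v = v := by
    have := congrArg (fun L : E →L[ℝ] E => L v) h2
    change T' (T v) = v at this
    rwa [hv] at this
  have hpow' : ∀ n : ℕ, (T' ^ n) v = v := by
    intro n
    induction n with
    | zero => rfl
    | succ n ih => rw [pow_succ]; change (T' ^ n) (T' v) = v; rw [hv', ih]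
  have hcomm : Commute T Q := h4.symm
  have hcomm' : Commute T' Q := by
    change T' * Q = Q * T'
    calc T' * Q = T' * (Q * T) * T' := by rw [mul_assoc, mul_assoc, h1, mul_one]
      _ = T' * (T * Q) * T' := by rw [h4]
      _ = (T' * T) * Q * T' := by simp only [mul_assoc]
      _ = Q * T' := by rw [h2, one_mul]
  have hlim : Tendsto (fun n : ℕ => c * μ ^ n * ‖v‖) atTop (𝓝 0) := by
    have := ((tendsto_pow_atTop_nhds_zero_of_lt_one hμ0 hμ1).const_mul c).mul_const ‖v‖
    simpa using this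
  have hQ : Q v = 0 := by
    rw [← norm_le_zero_iff]
    refine ge_of_tendsto hlim (Eventually.of_forall fun n => ?_)
    have e1 : Q v = (T ^ n * Q) v := by
      rw [(hcomm.pow_left n).eq]
      change Q v = Q ((T ^ n) v)
      rw [hpow]
    rw [e1]
    exact ((T ^ n * Q).le_opNorm v).trans (by gcongr; exact (hb n).1)
  have hQ' : v - Q v = 0 := by
    rw [← norm_le_zero_iff]
    refine ge_of_tendsto hlim (Eventually.of_forall fun n => ?_)
    have e1 : v - Q v = (T' ^ n * (1 - Q)) v := by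
      have : Commute (T' ^ n) (1 - Q) := (Commute.one_right _).sub_right (hcomm'.pow_left n)
      rw [this.eq]
      change v - Q v = (T' ^ n) v - Q ((T' ^ n) v)
      rw [hpow']
    rw [e1]
    exact ((T' ^ n * (1 - Q)).le_opNorm v).trans (by gcongr; exact (hb n).2)
  rw [hQ, sub_zero] at hQ'
  exact hQ'

/-- **The star property.** -/
theorem exists_star [FiniteDimensional ℝ E] [T2Space M] [CompactSpace M] (hr : 1 ≤ r)
    {N : Set (Dyn E M r)} (hN : Stab N) {f : Dyn E M r} (hf : f ∈ N) (g : Dyn E' B r)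
    (hcov : ∀ x, P.p (f x) = g (P.p x)) (hP : P.Projective f) :
    ∃ ε > 0, (P.mkExt hr f g hcov hP).Star ε := by
  set e := P.mkExt hr f g hcov hP with he
  have h1 := P.rotFam.eventually_mem f hN.isOpen hf
  rw [Metric.eventually_nhds_iff] at h1
  obtain ⟨ε, hε, h1⟩ := h1
  refine ⟨ε, hε, fun θ hθ y n hn hy hprod => ?_⟩
  set h : Dyn E M r := pert f (P.rotFam.toFun θ) with hh
  have hhN : h ∈ N := h1 (by rw [dist_zero_right]; exact hθ)
  have happ : ∀ w, h w = f (P.ρ θ w) := fun w => rfl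
  set z := P.ρ (-θ) y with hz
  have hzi : ∀ i, h^[i] z = P.ρ (-θ) ((e.push θ)^[i] y) := by
    intro i
    induction i with
    | zero => rfl
    | succ i ih =>
      rw [Function.iterate_succ_apply', Function.iterate_succ_apply', ih, happ]
      change f (P.ρ θ (P.ρ (-θ) ((e.push θ)^[i] y))) = P.ρ (-θ) (P.ρ θ (f ((e.push θ)^[i] y)))
      rw [← P.add, ← P.add, add_neg_cancel, neg_add_cancel, P.zero, P.zero]
  have hzi' : ∀ i, P.ρ θ (h^[i] z) = (e.push θ)^[i] y := by
    intro i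
    rw [hzi, ← P.add, add_neg_cancel, P.zero]
  have hfix : h^[n] z = z := by rw [hzi, hy]
  have hDh : ∀ w, (D h w : E →L[ℝ] E) (P.X w) = e.J (P.ρ θ w) • P.X (h w) := by
    intro w
    have h2 := e.F_deriv (P.ρ θ w) 0
    rw [e.zero] at h2
    refine P.D_X (Dyn.mdiff h hr w) (e.F_zero (P.ρ θ w)) h2 fun s => ?_
    rw [happ, happ, ← P.add, add_comm θ s, P.add]
    exact e.F_eq (P.ρ θ w) s
  have hDi : ∀ i, (D h^[i] z : E →L[ℝ] E) (P.X z) =
      (∏ j ∈ Finset.range i, e.J ((e.push θ)^[j] y)) • P.X (h^[i] z) := by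
    intro i
    induction i with
    | zero =>
      have : (D h^[0] z : E →L[ℝ] E) = 1 := D_id z
      rw [this]
      simp
    | succ i ih =>
      rw [D_iterate_succ (Dyn.mdiff h hr)]
      change (D h (h^[i] z) : E →L[ℝ] E) ((D h^[i] z : E →L[ℝ] E) (P.X z)) = _
      rw [ih, map_smul, hDh, hzi', Finset.prod_range_succ, smul_smul,
        Function.iterate_succ_apply']
  have h2 := hN.isHyp hr hhN hn hfix
  have h3 := hDi n
  rw [hprod, one_smul, hfix] at h3
  exact P.X_ne z (not_eig_one h2 h3)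

end CircleBundle

end OmSt
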